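import Pool.Agent.Lib.TATE.Asm.Spec
import Pool.Agent.Lib.TATE.Asm.Pg

/-!
# PROJECT TATE: assembly, the new parts exist, the lattice is a rational structure (helper42)
-/

set_option autoImplicit false

open Topology Metric

noncomputable section

namespace TATE

open HC HC.CC SEJ SEB SEQ

namespace Av_aux

/-- The map of the curve. -/
theorem mp_of_new {T : AV} {m r : ℕ} {Z : T.V → T.V} {t : Fin (r + 1) → ℂ} {b : Fin (r + 1) → ℕ}
    (h : IsNew T m Z t b) : ∃ γ : Cur T, IsMp T m Z t b γ := by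
  obtain ⟨γ, h1, h2, h3, h4⟩ := h.map
  exact ⟨γ, ⟨h1, h2, h3, h4⟩⟩

/-- The branch points are different. -/
theorem inj_t {p N : ℕ} (D : Dt p N) (s : Fin p → ℂ) (h : D.ok) (hs : Function.Injective s)
    (n : Fin N) : Function.Injective (D.t s n) := by
  intro j j' e
  apply h.inj n
  apply hs
  cases hk : D.k n with
  | none =>
    have e' : pt s (D.i n) (D.k n) j = pt s (D.i n) (D.k n) j' := e
    rw [hk] at e'
    exact e'
  | some l =>
    have e' : pt s (D.i n) (D.k n) j = pt s (D.i n) (D.k n) j' := e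
    rw [hk] at e'
    have e'' : (s (D.i n j) - s l)⁻¹ = (s (D.i n j') - s l)⁻¹ := e'
    exact sub_left_injective (inv_injective e'')

/-- The rational vectors of an abelian variety are a rational structure. -/
theorem isQ_rt (T : AV) : IsQ T.V {v | Rt T v} := by
  classical
  obtain ⟨ι, hι, b, hb, hb'⟩ := Pg_aux.rt_iff T
  refine ⟨?_, ?_, ?_, ?_, ?_⟩
  · rw [Set.mem_ofPred_eq, hb']
    intro i
    exact ⟨0, by rw [map_zero, Finsupp.zero_apply, Rat.cast_zero]⟩
  · intro u hu v hv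
    rw [Set.mem_ofPred_eq, hb'] at hu hv ⊢
    intro i
    obtain ⟨x, hx⟩ := hu i
    obtain ⟨y, hy⟩ := hv i
    exact ⟨x + y, by rw [map_add, Finsupp.add_apply, hx, hy, Rat.cast_add]⟩
  · intro x v hv
    rw [Set.mem_ofPred_eq, hb'] at hv ⊢
    intro i
    obtain ⟨y, hy⟩ := hv i
    exact ⟨x * y, by rw [map_smul, Finsupp.smul_apply, hy, smul_eq_mul, Rat.cast_mul]⟩
  · rw [eq_top_iff, ← b.span_eq]
    refine Submodule.span_mono ?_
    rintro _ ⟨i, rfl⟩
    exact hb i
  · intro n x v hx hv h0 k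
    have hv' : ∀ k i, ∃ q : ℚ, b.repr (v k) i = q := fun k => (hb' _).1 (hv k)
    choose q hq using hv'
    have h1 : ∀ i, ∑ k, q k i • x k = 0 := by
      intro i
      have h2 := congrArg (fun w => b.repr w i) h0
      simp only [map_sum, map_smul, map_zero, Finsupp.coe_finsetSum, Finset.sum_apply,
        Finsupp.smul_apply, Finsupp.zero_apply, smul_eq_mul, hq] at h2
      rw [← h2]
      refine Finset.sum_congr rfl fun k _ => ?_
      rw [Rat.smul_def]
      exact mul_comm _ _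
    have h3 : ∀ i k, q k i = 0 := fun i =>
      Fintype.linearIndependent_iff.1 hx (fun k => q k i) (h1 i)
    refine b.repr.injective ?_
    rw [map_zero]
    ext i
    rw [hq, h3, Rat.cast_zero, Finsupp.zero_apply]

/-- The image of a rational structure. -/
theorem isQ_image {V W : Type} [NormedAddCommGroup V] [NormedSpace ℂ V] [NormedAddCommGroup W]
    [NormedSpace ℂ W] (κ : V ≃ₗ[ℝ] W) {L : Set V} (h : IsQ V L) : IsQ W (κ '' L) := by
  refine ⟨⟨0, h.zero, map_zero _⟩, ?_, ?_, ?_, ?_⟩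
  · rintro _ ⟨u, hu, rfl⟩ _ ⟨v, hv, rfl⟩
    exact ⟨u + v, h.add u hu v hv, map_add _ _ _⟩
  · rintro x _ ⟨v, hv, rfl⟩
    exact ⟨(x : ℝ) • v, h.smul x v hv, map_smul _ _ _⟩
  · have h1 := Submodule.map_span (κ : V →ₗ[ℝ] W) L
    rw [h.spn, Submodule.map_top, LinearEquiv.range] at h1
    exact h1.symm
  · intro n x v hx hv h0 k
    choose w hw hw' using hv
    have h1 : κ (∑ k, x k • w k) = 0 := by
      rw [map_sum, ← h0]
      exact Finset.sum_congr rfl fun k _ => by rw [map_smul, hw']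
    have h2 := h.ind n x w hx hw (κ.injective (h1.trans (map_zero κ).symm)) k
    rw [← hw', h2, map_zero]

/-- Products of rational structures. -/
theorem isQ_pi {N : ℕ} {K : Fin N → Type} [∀ n, NormedAddCommGroup (K n)]
    [∀ n, NormedSpace ℂ (K n)] {L : ∀ n, Set (K n)} (h : ∀ n, IsQ (K n) (L n)) :
    IsQ (∀ n, K n) {v | ∀ n, v n ∈ L n} := by
  classical
  refine ⟨fun n => (h n).zero, fun u hu v hv n => (h n).add _ (hu n) _ (hv n),
    fun x v hv n => (h n).smul x _ (hv n), ?_, ?_⟩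
  · rw [eq_top_iff]
    intro v _
    have h1 : v = ∑ n, LinearMap.single ℝ K n (v n) := (Finset.univ_sum_single v).symm
    rw [h1]
    refine Submodule.sum_mem _ fun n _ => ?_
    have h2 : v n ∈ Submodule.span ℝ (L n) := by
      rw [(h n).spn]
      exact Submodule.mem_top
    have h3 := Submodule.mem_map_of_mem (f := LinearMap.single ℝ K n) h2
    rw [Submodule.map_span] at h3
    refine Submodule.span_mono ?_ h3
    rintro _ ⟨w, hw, rfl⟩ n'
    by_cases hn : n' = n
    · subst hn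
      rw [LinearMap.single_apply, Pi.single_eq_same]
      exact hw
    · rw [LinearMap.single_apply, Pi.single_eq_of_ne hn]
      exact (h n').zero
  · intro k x v hx hv h0 l
    funext n
    refine (h n).ind k x (fun l => v l n) hx (fun l => hv l n) ?_ l
    have h1 := congrFun h0 n
    rw [Finset.sum_apply] at h1
    exact h1

end Av_aux

open Av_aux in
theorem tAv : StmtFA3 → StmtFA4 → S_Av := by
  intro h3 h4 p N D s h hs
  have ht := inj_t D s h hs
  have hJ : ∀ n, ∃ (T : AV) (Z : T.V → T.V), IsNew T (D.m n) Z (D.t s n) (D.b n) := fun n =>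
    h4 (D.m n) (D.r n) (D.b n) (D.t s n) (h.cv n) (by have := h.r3 n; omega) (ht n)
  choose J Z hZ using hJ
  have hκ : ∀ n, ∃ κ : (J n).V ≃ₗ[ℂ] (Ix (D.m n) (D.b n) → ℂ),
      κ '' {v | Rt (J n) v} = LQ (D.m n) (D.b n) (D.t s n) := by
    intro n
    obtain ⟨γ, hγ⟩ := mp_of_new (hZ n)
    obtain ⟨κ, -, -, h5, -⟩ := h3 (J n) (D.m n) (D.r n) (Z n) (D.t s n) (D.b n) γ (h.cv n) (ht n)
      (hZ n).cyc (hZ n).dim hγ
    exact ⟨κ, h5⟩
  choose κ hκ using hκ
  refine ⟨ht, ?_, J, Z, κ, hZ, hκ⟩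
  refine isQ_pi (L := fun n => LQ (D.m n) (D.b n) (D.t s n)) fun n => ?_
  rw [← hκ n]
  exact isQ_image ((κ n).restrictScalars ℝ) (isQ_rt (J n))

end TATE
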