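import Pool.Agent.Lib.TATE.Asm.Spec
import Pool.Agent.Lib.SE.N.n25

/-!
# PROJECT TATE, assembly: rational classes killed by `i` are algebraic (`S_Cc`)
-/

set_option autoImplicit false

open Topology Metric

noncomputable section

namespace TATE

open HC HC.CC SEJ SEB SEQ

namespace Cc_aux

/-- The abelian variety of dimension 0. -/
def nul : AV where
  V := PUnit
  L := ⊤
  latt := ⟨Subsingleton.elim _ _⟩
  pol := ⟨0, fun _ _ _ _ => ⟨0, by simp⟩, fun _ _ => by simp, fun _ _ => by simp,
    fun v hv => absurd (Subsingleton.elim v 0) hv⟩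

instance : Subsingleton nul.V := inferInstanceAs (Subsingleton PUnit)

theorem nul_cm : IsCM nul := by
  refine ⟨0, fun i => i.elim0, fun i => i.elim0, fun i => i.elim0, fun i => i.elim0,
    fun i => i.elim0, fun i => i.elim0, ?_, ?_⟩
  · exact
      { toFun := fun _ _ => 0
        invFun := fun _ => 0
        map_add' := fun _ _ => by
          funext x
          exact x.1.elim0
        map_smul' := fun _ _ => by
          funext x
          exact x.1.elim0
        left_inv := fun _ => Subsingleton.elim _ _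
        right_inv := fun _ => by
          funext x
          exact x.1.elim0 }
  · intro v _
    exact ⟨fun i => i.elim0, fun i => i.elim0⟩

theorem gd {p : ℕ} (s : Fin p → ℂ) {e : ℕ} {T : AV} (γ : Cur T) (h : IsBn s e γ) :
    IsGd s T := by
  obtain ⟨m, Z, r, i, k, b, h1, h2, -, -, h5, -, h7, h8, h9, -⟩ := h
  exact Or.inr (Or.inr (Or.inr (Or.inr ⟨m, Z, r, i, k, b, h1, h2, h5,
    ⟨h7, h8, γ, h9.P, h9.S, h9.equ, h9.dif⟩⟩)))

end Cc_aux

open Cc_aux in
theorem tCc : S_Cc := by
  rintro ⟨M, hM, H⟩
  refine ⟨M, hM, ?_⟩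
  intro p s hs T N J γ g e hB hg d C hr hk
  have hH : IsHodge T d C := SEN.tn25 T d C hr hk
  have hHdg : IsHdg C := by
    refine ⟨hH.1, fun u hu a a' ha => ?_⟩
    have h1 := congrArg (fun c : Hlg T d => c a) (hH.2 u hu)
    have h2 : a' = fun i => HC.pull (u • LinearMap.id) (a i) := by
      funext i
      ext v
      exact ha i v
    rw [h2]
    exact h1
  refine H p s hs nul T T N J (fun _ => 0) g nul_cm (fun n => gd s (γ n) (hB n))
    ⟨⟨fun _ _ => (add_zero _).symm, fun _ _ => (smul_zero _).symm⟩, hg.lin, ?_, ?_⟩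
    0 0 (fun i => i.elim0) (fun i => i.elim0) (fun i => i.elim0) (fun i => i.elim0) (fun v => v)
    (fun i => i.elim0) (fun i => i.elim0) (fun i => i.elim0)
    ⟨⟨fun _ _ => rfl, fun _ _ => rfl⟩, fun i => i.elim0, ?_, ?_⟩ d C hHdg ?_
  · constructor
    · intro v w hvw
      exact hg.bij.1 (congrArg Prod.snd hvw)
    · rintro ⟨x, y⟩
      obtain ⟨v, hv⟩ := hg.bij.2 y
      exact ⟨v, Prod.ext (Subsingleton.elim _ _) hv⟩
  · intro v hv
    exact ⟨⟨1, one_ne_zero, trivial⟩, hg.rat v hv⟩
  · constructor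
    · intro v w hvw
      exact congrArg Prod.fst hvw
    · rintro ⟨x, y⟩
      refine ⟨x, Prod.ext rfl ?_⟩
      funext i
      exact i.elim0
  · intro v hv
    exact ⟨hv, fun i => i.elim0⟩
  · intro P Q _ X hX a a' ha
    refine Finset.sum_eq_zero fun i _ => ?_
    have h1 : a' i = 0 := by
      ext v
      have h2 : X v = 0 := (hX v).1
      have h3 := ha i v
      rw [h2] at h3
      exact h3.trans (map_zero (a i))
    rw [h1]
    exact C.map_update_zero a i

end TATE
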