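import Pool.Agent.Lib.TATE.Asm.Spec

/-!
# PROJECT TATE, assembly: the transport is componentwise (helper45)
-/

set_option autoImplicit false

open Topology Metric

noncomputable section

namespace TATE

open HC HC.CC SEJ

namespace Cmp_aux

/-- `φ` is componentwise. -/
def Cw {N : ℕ} {W : Fin N → Type} [∀ n, AddCommGroup (W n)] [∀ n, Module ℝ (W n)]
    (φ : (∀ n, W n) ≃ₗ[ℝ] (∀ n, W n)) : Prop :=
  ∀ n v v', v n = v' n ↔ φ v n = φ v' n

theorem eta {N : ℕ} {W : Fin N → Type} [∀ n, AddCommGroup (W n)] [∀ n, Module ℝ (W n)]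
    (φ : (∀ n, W n) ≃ₗ[ℝ] (∀ n, W n)) (h : Cw φ) :
    ∃ η : ∀ n, W n ≃ₗ[ℝ] W n, ∀ v n, φ v n = η n (v n) := by
  have h1 : ∀ v n, φ (Pi.single n (v n)) n = φ v n := fun v n =>
    (h n _ _).1 (Pi.single_eq_same n (v n))
  have h2 : ∀ n, ∃ e : W n ≃ₗ[ℝ] W n, ∀ x, e x = φ (Pi.single n x) n := by
    intro n
    let f : W n →ₗ[ℝ] W n :=
      { toFun := fun x => φ (Pi.single n x) n
        map_add' := fun x y => by rw [Pi.single_add, map_add, Pi.add_apply]
        map_smul' := fun c x => by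
          rw [Pi.single_smul, map_smul, Pi.smul_apply, RingHom.id_apply] }
    have hf : Function.Bijective f := by
      constructor
      · intro x y hxy
        have h3 := (h n (Pi.single n x) (Pi.single n y)).2 hxy
        rwa [Pi.single_eq_same, Pi.single_eq_same] at h3
      · intro y
        refine ⟨φ.symm (Pi.single n y) n, ?_⟩
        change φ (Pi.single n (φ.symm (Pi.single n y) n)) n = y
        rw [h1, LinearEquiv.apply_symm_apply, Pi.single_eq_same]
    exact ⟨LinearEquiv.ofBijective f hf, fun x => rfl⟩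
  choose e he using h2
  exact ⟨e, fun v n => by rw [he, h1]⟩

end Cmp_aux

open Cmp_aux in
/-- **Cmp**: THE TRANSPORT IS COMPONENTWISE. -/
theorem tCmp : S_Cmp := by
  intro Φ p N D h s w M hM γ z z' hγ φ hφ
  refine eta (φ 1) ?_
  have hloc : IsLocallyConstant fun t : Set.Icc (0 : ℝ) 1 => Cw (φ t) := by
    rw [IsLocallyConstant.iff_eventually_eq]
    intro t
    obtain ⟨ε, hε, h1⟩ := hφ.loc t t.2
    filter_upwards [Metric.ball_mem_nhds t hε] with t' ht'
    obtain ⟨h2, h3⟩ := h1 t' t'.2 (by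
      rw [Metric.mem_ball, Subtype.dist_eq, Real.dist_eq] at ht'
      exact ht')
    refine propext (forall_congr' fun n => forall_congr' fun v => forall_congr' fun v' => ?_)
    rw [h3 v, h3 v', hM.τ _ (hγ.mem t t.2) _ h2, hM.τ _ (hγ.mem t t.2) _ h2,
      EmbeddingLike.apply_eq_iff_eq]
  have h0 : Cw (φ 0) := fun n v v' => by rw [hφ.zero, hφ.zero]
  have h4 := hloc.apply_eq_of_preconnectedSpace
    ⟨0, Set.left_mem_Icc.2 zero_le_one⟩ ⟨1, Set.right_mem_Icc.2 zero_le_one⟩
  exact h4 ▸ h0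

end TATE
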