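import Pool.Agent.Lib.TATE.Asm.Spec

/-!
# PROJECT TATE: assembly, Coc (flat transport is unique)
-/

set_option autoImplicit false

open Topology Metric

noncomputable section

namespace TATE

open HC HC.CC SEJ SEB SEQ

namespace Coc_aux

/-- A continuous linear equivalence from a linear one in finite dimension. -/
def cle {V : Type} [NormedAddCommGroup V] [NormedSpace ℝ V] [FiniteDimensional ℝ V]
    (e : V ≃ₗ[ℝ] V) : V ≃L[ℝ] V := e.toContinuousLinearEquiv

/-- `u ↦ (e u)⁻¹ (w u)` is continuous if `e`, `w` are. -/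
theorem cont_inv {V X : Type} [NormedAddCommGroup V] [NormedSpace ℝ V] [FiniteDimensional ℝ V]
    [TopologicalSpace X] {S : Set X} (e : X → (V ≃ₗ[ℝ] V)) (w : X → V)
    (he : ∀ v, ContinuousOn (fun u => e u v) S) (hw : ContinuousOn w S) :
    ContinuousOn (fun u => (e u).symm (w u)) S := by
  have _ : CompleteSpace V := FiniteDimensional.complete ℝ V
  have h1 : ContinuousOn (fun u => (cle (e u) : V →L[ℝ] V)) S :=
    continuousOn_clm_apply.2 fun y => he y
  have h2 : ContinuousOn (fun u => ContinuousLinearMap.inverse (cle (e u) : V →L[ℝ] V)) S := by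
    intro u hu
    have h0 : ContinuousAt (ContinuousLinearMap.inverse : (V →L[ℝ] V) → (V →L[ℝ] V))
        ((fun u => (cle (e u) : V →L[ℝ] V)) u) :=
      (contDiffAt_map_inverse (𝕜 := ℝ) (n := 0) (cle (e u))).continuousAt
    exact ContinuousAt.comp_continuousWithinAt (f := fun u => (cle (e u) : V →L[ℝ] V)) h0 (h1 u hu)
  have h3 := h2.clm_apply hw
  refine h3.congr fun u _ => ?_
  simp only [ContinuousLinearMap.inverse_equiv]
  rfl

end Coc_aux

open Coc_aux in
/-- **Coc**: flat transport is unique. -/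
theorem tCoc : S_Coc := by
  intro m r b Φ t t' t'' ht ht' ht'' h12
  have hi' : Function.Injective t' := Φ.dom t ht t' ht'
  -- the intersection of the two balls
  let S : Set (Fin (r + 1) → ℂ) := ball t (Φ.ρ t) ∩ ball t' (Φ.ρ t')
  have hS : IsPreconnected S :=
    ((convex_ball t (Φ.ρ t)).inter (convex_ball t' (Φ.ρ t'))).isPreconnected
  have hS' : t' ∈ S := ⟨ht', mem_ball_self (Φ.rpos t' hi')⟩
  have hS'' : t'' ∈ S := ⟨ht'', h12⟩
  -- periods
  have hZ : ∀ v ∈ LZ m b t, Φ.τ t' t'' (Φ.τ t t' v) = Φ.τ t t'' v := by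
    intro v hv
    have hF : ContinuousOn (fun u => (Φ.τ t u).symm (Φ.τ t' u (Φ.τ t t' v))) S := by
      refine cont_inv (fun u => Φ.τ t u) (fun u => Φ.τ t' u (Φ.τ t t' v)) (fun y => ?_) ?_
      · exact (Φ.hol t ht y).continuousOn.mono Set.inter_subset_left
      · exact (Φ.hol t' hi' (Φ.τ t t' v)).continuousOn.mono Set.inter_subset_right
    have hL : (fun u => (Φ.τ t u).symm (Φ.τ t' u (Φ.τ t t' v))) '' S ⊆ LZ m b t := by
      rintro _ ⟨u, hu, rfl⟩
      have h1 : Φ.τ t t' v ∈ LZ m b t' := by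
        rw [← Φ.latZ t ht t' ht']
        exact ⟨v, hv, rfl⟩
      have h2 : Φ.τ t' u (Φ.τ t t' v) ∈ LZ m b u := by
        rw [← Φ.latZ t' hi' u hu.2]
        exact ⟨_, h1, rfl⟩
      rw [← Φ.latZ t ht u hu.1] at h2
      obtain ⟨l, hl, hl2⟩ := h2
      have h3 : (Φ.τ t u).symm (Φ.τ t' u (Φ.τ t t' v)) = l := by
        rw [← hl2, LinearEquiv.symm_apply_apply]
      simp only [h3]
      exact hl
    have hc : (LZ m b t).Countable := by
      refine (Φ.cnt t ht).mono fun l hl => ?_
      exact ⟨1, one_ne_zero, by rwa [one_smul]⟩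
    have hs : ((fun u => (Φ.τ t u).symm (Φ.τ t' u (Φ.τ t t' v))) '' S).Subsingleton :=
      hc.isTotallyDisconnected _ hL (hS.image _ hF)
    have h := hs ⟨t'', hS'', rfl⟩ ⟨t', hS', rfl⟩
    simp only [Φ.one t' hi', LinearEquiv.symm_apply_apply] at h
    have h4 := congrArg (Φ.τ t t'') h
    rw [LinearEquiv.apply_symm_apply] at h4
    exact h4
  -- rational periods
  have hQ : ∀ v ∈ LQ m b t, Φ.τ t' t'' (Φ.τ t t' v) = Φ.τ t t'' v := by
    rintro v ⟨k, hk, hkv⟩
    have h := hZ _ hkv
    rw [map_nsmul, map_nsmul, map_nsmul] at h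
    exact (nsmul_right_injective hk) h
  -- all vectors
  intro v
  have hv : v ∈ Submodule.span ℝ (LQ m b t) := by
    rw [Φ.spn t ht]
    trivial
  induction hv using Submodule.span_induction with
  | mem x hx => exact hQ x hx
  | zero => simp only [map_zero]
  | add x y _ _ hx hy => rw [map_add, map_add, map_add, hx, hy]
  | smul a x _ hx => rw [map_smul, map_smul, map_smul, hx]

end TATE
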