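import Pool.Agent.Lib.TATE.Asm.Spec

/-!
# PROJECT TATE, assembly: the Lie algebra action on classes (`S_Dr`)
-/

set_option autoImplicit false

open Topology Metric

noncomputable section

namespace TATE

open HC HC.CC SEJ SEB SEQ

namespace Dr_aux

open Finset

variable {V V' : Type} [NormedAddCommGroup V] [NormedSpace ℂ V] [NormedAddCommGroup V']
  [NormedSpace ℂ V'] {d : ℕ}

/-- The action of `X` on `c` as a multilinear map. -/
def mlt (X : V →ₗ[ℝ] V) (c : Cl V d) :
    MultilinearMap ℂ (fun _ : Fin d => (V →ₗ[ℝ] ℂ)) ℂ :=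
  ∑ i, c.toMultilinearMap.compLinearMap
    (Function.update (fun _ => LinearMap.id) i (pl X) :
      Fin d → ((V →ₗ[ℝ] ℂ) →ₗ[ℂ] (V →ₗ[ℝ] ℂ)))

theorem mlt_apply (X : V →ₗ[ℝ] V) (c : Cl V d) (a : Fin d → (V →ₗ[ℝ] ℂ)) :
    mlt X c a = der X c a := by
  unfold mlt der
  rw [_root_.sum_apply]
  refine sum_congr rfl fun i _ => ?_
  rw [MultilinearMap.compLinearMap_apply]
  refine congrArg c (funext fun j => ?_)
  rcases eq_or_ne j i with h | h
  · subst h
    rw [Function.update_self, Function.update_self]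
    rfl
  · rw [Function.update_of_ne h, Function.update_of_ne h]
    rfl

theorem mlt_alt (X : V →ₗ[ℝ] V) (c : Cl V d) (a : Fin d → (V →ₗ[ℝ] ℂ)) (i j : Fin d)
    (hij : a i = a j) (h : i ≠ j) : mlt X c a = 0 := by
  rw [mlt_apply]
  unfold der
  rw [Fintype.sum_eq_add i j h]
  · have h1 : Function.update a j (a j ∘ₗ X) =
        (Function.update a i (a i ∘ₗ X)) ∘ Equiv.swap i j := by
      funext k
      rw [Function.comp_apply]
      rcases eq_or_ne k i with hk | hk
      · subst hk
        rw [Equiv.swap_apply_left, Function.update_of_ne h, Function.update_of_ne h.symm, hij]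
      · rcases eq_or_ne k j with hk2 | hk2
        · subst hk2
          rw [Equiv.swap_apply_right, Function.update_self, Function.update_self, hij]
        · rw [Equiv.swap_apply_of_ne_of_ne hk hk2, Function.update_of_ne hk2,
            Function.update_of_ne hk]
    rw [h1, c.map_swap _ h, add_neg_cancel]
  · intro k hk
    refine c.map_eq_zero_of_eq _ ?_ h
    rw [Function.update_of_ne hk.1.symm, Function.update_of_ne hk.2.symm, hij]

/-- The class `X c`. -/
def act (X : V →ₗ[ℝ] V) (c : Cl V d) : Cl V d :=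
  { mlt X c with
    map_eq_zero_of_eq' := fun a i j hij h => mlt_alt X c a i j hij h }

theorem act_apply (X : V →ₗ[ℝ] V) (c : Cl V d) (a : Fin d → (V →ₗ[ℝ] ℂ)) :
    act X c a = der X c a := mlt_apply X c a

/-- Two derivations one after the other. -/
theorem two (X Y : V →ₗ[ℝ] V) (c c₁ c₂ : Cl V d) (h1 : IsDr Y c c₁) (h2 : IsDr X c₁ c₂)
    (a : Fin d → (V →ₗ[ℝ] ℂ)) :
    c₂ a = ∑ j, c (Function.update a j (a j ∘ₗ X ∘ₗ Y)) + ∑ j, ∑ i ∈ univ.erase j,
        c (Function.update (Function.update a j (a j ∘ₗ X)) i (a i ∘ₗ Y)) := by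
  rw [h2 a, ← sum_add_distrib]
  unfold der
  refine sum_congr rfl fun j _ => ?_
  rw [h1]
  unfold der
  rw [← add_sum_erase univ _ (mem_univ j), Function.update_self, Function.update_idem]
  congr 1
  refine sum_congr rfl fun i hi => ?_
  rw [Function.update_of_ne (ne_of_mem_erase hi)]

theorem swp (X Y : V →ₗ[ℝ] V) (c : Cl V d) (a : Fin d → (V →ₗ[ℝ] ℂ)) :
    ∑ j, ∑ i ∈ univ.erase j,
        c (Function.update (Function.update a j (a j ∘ₗ Y)) i (a i ∘ₗ X)) =
      ∑ j, ∑ i ∈ univ.erase j,
        c (Function.update (Function.update a j (a j ∘ₗ X)) i (a i ∘ₗ Y)) := by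
  rw [sum_comm' (t' := univ) (s' := fun i => univ.erase i)]
  · refine sum_congr rfl fun j _ => sum_congr rfl fun i hi => ?_
    rw [Function.update_comm (ne_of_mem_erase hi)]
  · intro x y
    simp [eq_comm]

end Dr_aux

open Dr_aux in
theorem tDr : S_Dr := by
  intro V _ _ d
  refine ⟨fun X c => ⟨act X c, act_apply X c⟩, ?_, ?_, ?_, ?_⟩
  · intro X Y c c₁ c₂ c₃ c₄ h1 h2 h3 h4 a
    have e1 := two X Y c c₁ c₂ h1 h2 a
    have e2 := two Y X c c₃ c₄ h3 h4 a
    have e3 := swp X Y c a
    have e4 : ∀ i, c (Function.update a i (a i ∘ₗ (X ∘ₗ Y - Y ∘ₗ X))) =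
        c (Function.update a i (a i ∘ₗ X ∘ₗ Y)) - c (Function.update a i (a i ∘ₗ Y ∘ₗ X)) := by
      intro i
      rw [← c.map_update_sub]
      congr 2
      ext v
      simp [map_sub]
    have e5 : (c₂ - c₄) a = c₂ a - c₄ a := rfl
    rw [e5]
    unfold der
    simp only [e4]
    rw [Finset.sum_sub_distrib]
    linear_combination e1 - e2 - e3
  · intro X Y c a b x y hX hY u
    have e5 : ((x : ℂ) • a + (y : ℂ) • b) u = (x : ℂ) * a u + (y : ℂ) * b u := rfl
    rw [e5, hX u, hY u]
    unfold der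
    rw [Finset.mul_sum, Finset.mul_sum, ← Finset.sum_add_distrib]
    refine Finset.sum_congr rfl fun i _ => ?_
    have e6 : u i ∘ₗ (x • X + y • Y) = (x : ℂ) • (u i ∘ₗ X) + (y : ℂ) • (u i ∘ₗ Y) := by
      ext v
      simp
    rw [e6, c.map_update_add, c.map_update_smul, c.map_update_smul, smul_eq_mul, smul_eq_mul]
  · intro X c c' a b x y hX hY u
    have e5 : (x • a + y • b) u = x * a u + y * b u := rfl
    rw [e5, hX u, hY u]
    unfold der
    rw [Finset.mul_sum, Finset.mul_sum, ← Finset.sum_add_distrib]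
    rfl
  · intro V' _ _ φ X X' c c' hX h u
    have e1 : psh φ c' u = c' fun i => u i ∘ₗ φ := rfl
    rw [e1, h]
    unfold der
    refine Finset.sum_congr rfl fun i _ => ?_
    have e2 : psh φ c (Function.update u i (u i ∘ₗ X')) =
        c fun j => (Function.update u i (u i ∘ₗ X') j) ∘ₗ φ := rfl
    rw [e2]
    refine congrArg c (funext fun j => ?_)
    rcases eq_or_ne j i with hj | hj
    · subst hj
      rw [Function.update_self, Function.update_self]
      ext v
      simp [hX]
    · rw [Function.update_of_ne hj, Function.update_of_ne hj]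

end TATE
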