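import Pool.Agent.Lib.TATE.Asm.Spec

/-! # Finite orbits -/

set_option autoImplicit false

open Topology Metric

noncomputable section

namespace TATE

open HC HC.CC SEJ SEB SEQ

namespace Fo_aux

theorem psh_comp {V V' V'' : Type} [NormedAddCommGroup V] [NormedSpace ℂ V] [NormedAddCommGroup V']
    [NormedSpace ℂ V'] [NormedAddCommGroup V''] [NormedSpace ℂ V''] {d : ℕ} (φ : V' →ₗ[ℝ] V'')
    (ψ : V →ₗ[ℝ] V') (c : Cl V d) : psh (φ ∘ₗ ψ) c = psh φ (psh ψ c) := rfl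

theorem cat_pth {G : Set ℂ} {γ γ' : ℝ → ℂ} {z z' : ℂ} (h : IsPth G γ z z') (h' : IsPth G γ' z z') :
    IsPth G (cat γ γ') z z := by
  refine ⟨?_, ?_, ?_, ?_⟩
  · refine Continuous.if_le (h.cont.comp (by fun_prop)) (h'.cont.comp (by fun_prop)) continuous_id
      continuous_const ?_
    intro t ht
    have ht' : t = 1 / 2 := ht
    have h1 : 2 * t = 1 := by rw [ht']; norm_num
    have h2 : 2 - 2 * t = 1 := by rw [ht']; norm_num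
    show γ (2 * t) = γ' (2 - 2 * t)
    rw [h2, h1, h.tgt, h'.tgt]
  · have h1 : cat γ γ' 0 = γ (2 * 0) := if_pos (by norm_num)
    rw [h1, mul_zero, h.src]
  · have h1 : cat γ γ' 1 = γ' (2 - 2 * 1) := if_neg (by norm_num)
    rw [h1]
    norm_num
    exact h'.src
  · intro t ht
    obtain ⟨ht0, ht1⟩ := ht
    by_cases hle : t ≤ 1 / 2
    · have h1 : cat γ γ' t = γ (2 * t) := if_pos hle
      rw [h1]
      exact h.mem _ ⟨by linarith, by linarith⟩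
    · have h1 : cat γ γ' t = γ' (2 - 2 * t) := if_neg hle
      rw [h1]
      push Not at hle
      exact h'.mem _ ⟨by linarith, by linarith⟩

theorem pth_mono {G G' : Set ℂ} (hG : G ⊆ G') {γ : ℝ → ℂ} {z z' : ℂ} (h : IsPth G' γ z z') :
    IsPth G γ z z' :=
  ⟨h.cont, h.src, h.tgt, fun t ht hm => h.mem t ht (hG hm)⟩

end Fo_aux

open Fo_aux

theorem tFo : S_Mg → S_Cmp → StmtPA1 → StmtPA3 → StmtPA5 → S_Fo := by
  classical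
  intro hMg hCmp hPA1 hPA3 hPA5 hFL Φ
  obtain ⟨X, hX, hs⟩ := hMg Φ
  refine ⟨X, hX, fun p s hsX => ⟨(hs p s hsX).1, ?_⟩⟩
  intro N J γ P ℓ _ B hB hBa d c hc hinv
  refine ⟨hc, fun w M hM => ?_⟩
  obtain ⟨hinj, h⟩ := hs p s hsX
  obtain ⟨D₀, K, y, e, hD₀, h0, h1, h2, h3⟩ := h N J γ P ℓ B hB hBa w M hM
  have hfin := (hFL Φ p N P.D P.ok s w hinj).1
  have h0F : (0 : ℂ) ∉ Bd s w := by
    intro hb
    apply hb
    have : ln s w 0 = s := by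
      funext i
      simp [ln]
    rw [this]
    exact hinj
  have key : ∀ δ δ' φ φ', IsPth (Bd s w ∪ D₀) δ 0 0 → IsPth (Bd s w ∪ D₀) δ' 0 0 → IsTr M δ φ →
      IsTr M δ' φ' → e δ = e δ' →
      psh (φ 1 : P.D.V →ₗ[ℝ] P.D.V) c = psh (φ' 1 : P.D.V →ₗ[ℝ] P.D.V) c := by
    intro δ δ' φ φ' hδ hδ' hφ hφ' he
    have hcG := cat_pth hδ hδ'
    have hcF : IsPth (Bd s w) (cat δ δ') 0 0 := pth_mono Set.subset_union_left hcG
    obtain ⟨ψ, hψ⟩ := (hPA1 P.D.V (Bd s w) hfin M (cat δ δ') 0 0 hcF).1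
    obtain ⟨η, hη⟩ := hCmp Φ p N P.D P.ok s w M hM (cat δ δ') 0 0 hcF ψ hψ
    have hg := h1 (cat δ δ') hcG (h2 δ δ' hδ hδ' he) ψ hψ η hη
    have hc' := hinv η hg (ψ 1) hη
    obtain ⟨_, hcomp⟩ := hPA5 P.D.V (Bd s w) hfin M δ δ' 0 0 (pth_mono Set.subset_union_left hδ)
      (pth_mono Set.subset_union_left hδ') φ φ' ψ hφ hφ' hψ
    have h4 : (φ 1 : P.D.V →ₗ[ℝ] P.D.V) = (φ' 1 : P.D.V →ₗ[ℝ] P.D.V) ∘ₗ (ψ 1 : P.D.V →ₗ[ℝ] P.D.V) := by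
      apply LinearMap.ext
      intro v
      exact (hcomp v).symm
    rw [h4, psh_comp, hc']
  refine hPA3 P.D.V (Bd s w) hfin M D₀ hD₀ 0 h0F h0 d c ?_
  let g : (Fin K → ℂ) → Cl P.D.V d := fun y' =>
    if hq : ∃ q : (ℝ → ℂ) × (ℝ → (P.D.V ≃ₗ[ℝ] P.D.V)), IsPth (Bd s w ∪ D₀) q.1 0 0 ∧
      IsTr M q.1 q.2 ∧ e q.1 = y' then psh (hq.choose.2 1 : P.D.V →ₗ[ℝ] P.D.V) c else 0
  refine (h3.image g).subset ?_
  rintro c' ⟨δ, φ, hδ, hφ, rfl⟩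
  refine ⟨e δ, ⟨δ, hδ, rfl⟩, ?_⟩
  have hq : ∃ q : (ℝ → ℂ) × (ℝ → (P.D.V ≃ₗ[ℝ] P.D.V)), IsPth (Bd s w ∪ D₀) q.1 0 0 ∧
      IsTr M q.1 q.2 ∧ e q.1 = e δ := ⟨(δ, φ), hδ, hφ, rfl⟩
  have h5 : g (e δ) = psh (hq.choose.2 1 : P.D.V →ₗ[ℝ] P.D.V) c := dif_pos hq
  rw [h5]
  exact key _ _ _ _ hq.choose_spec.1 hδ hq.choose_spec.2.1 hφ hq.choose_spec.2.2

end TATE
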