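import Pool.Agent.Lib.TATE.Asm.Spec

/-!
# PROJECT TATE: assembly, the classes of finite flat families form a rational space
-/

set_option autoImplicit false

open Topology Metric

noncomputable section

namespace TATE

open HC HC.CC SEJ SEB SEQ

namespace Gc1_aux

variable {V V' : Type} [NormedAddCommGroup V] [NormedSpace ℂ V] [NormedAddCommGroup V']
  [NormedSpace ℂ V']

theorem psh_zero {d : ℕ} (φ : V →ₗ[ℝ] V') : psh φ (0 : Cl V d) = 0 := by
  ext a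
  rfl

theorem psh_comb {d : ℕ} (φ : V →ₗ[ℝ] V') (x y : ℂ) (a b : Cl V d) :
    psh φ (x • a + y • b) = x • psh φ a + y • psh φ b := by
  ext v
  rfl

theorem rtc_zero {L : Set V} {d : ℕ} : Rtc L (0 : Cl V d) := by
  intro a _
  exact ⟨0, by simp⟩

theorem rtc_comb {L : Set V} {d : ℕ} {c c' : Cl V d} (h : Rtc L c) (h' : Rtc L c') (x y : ℚ) :
    Rtc L ((x : ℂ) • c + (y : ℂ) • c') := by
  intro a ha
  obtain ⟨u, hu⟩ := h a ha
  obtain ⟨v, hv⟩ := h' a ha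
  refine ⟨x * u + y * v, ?_⟩
  rw [AlternatingMap.add_apply, AlternatingMap.smul_apply, AlternatingMap.smul_apply, hu, hv]
  push_cast
  rfl

end Gc1_aux

open Gc1_aux in
theorem tGc1 : S_Rq → S_Av → S_Gc1 := by
  intro _ _ Φ p N D h s _ d
  refine ⟨⟨rtc_zero, fun w M _ => ⟨fun _ => {0}, ⟨fun _ _ => Set.finite_singleton _,
    fun z _ z' _ => ?_⟩, rfl⟩⟩, fun c c' x y hc hc' => ⟨rtc_comb hc.1 hc'.1 x y,
    fun w M hM => ?_⟩⟩
  · rw [Set.image_singleton, psh_zero]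
  · obtain ⟨O, hO, hcO⟩ := hc.2 w M hM
    obtain ⟨O', hO', hcO'⟩ := hc'.2 w M hM
    refine ⟨fun z => Set.image2 (fun a b => (x : ℂ) • a + (y : ℂ) • b) (O z) (O' z),
      ⟨fun z hz => (hO.fin z hz).image2 _ (hO'.fin z hz), fun z hz z' hz' => ?_⟩,
      ⟨c, hcO, c', hcO', rfl⟩⟩
    rw [hO.flat z hz z' hz', hO'.flat z hz z' hz', Set.image_image2_distrib
      (f' := fun a b => (x : ℂ) • a + (y : ℂ) • b)
      (g₁ := psh (M.τ z z' : D.V →ₗ[ℝ] D.V)) (g₂ := psh (M.τ z z' : D.V →ₗ[ℝ] D.V))]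
    intro a b
    exact psh_comb _ _ _ _ _

end TATE
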