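import Pool.Agent.Lib.TATE.Asm.Spec

/-! # The classes with finite flat families are stable under `i` -/

set_option autoImplicit false

open Topology Metric

noncomputable section

namespace TATE

open HC HC.CC SEJ SEB SEQ

namespace Gc2_aux

theorem ln_zero {p : ℕ} (s w : Fin p → ℂ) : ln s w 0 = s := by
  funext i
  simp [ln]

theorem bd_finite {p : ℕ} (s w : Fin p → ℂ) (hs : Function.Injective s) : (Bd s w).Finite := by
  have h1 : Bd s w ⊆ ⋃ i : Fin p, ⋃ j : Fin p, {z | i ≠ j ∧ s i + z * w i = s j + z * w j} := by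
    intro z hz
    have hz' : ¬ Function.Injective (ln s w z) := hz
    rw [Function.Injective] at hz'
    push Not at hz'
    obtain ⟨i, j, he, hij⟩ := hz'
    rw [Set.mem_iUnion]
    refine ⟨i, ?_⟩
    rw [Set.mem_iUnion]
    exact ⟨j, hij, he⟩
  refine (Set.finite_iUnion fun i => Set.finite_iUnion fun j => ?_).subset h1
  refine Set.Subsingleton.finite ?_
  rintro z ⟨hij, hz⟩ z' ⟨_, hz'⟩
  have h2 : w i - w j ≠ 0 := by
    intro h0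
    apply hij
    apply hs
    have : w i = w j := sub_eq_zero.mp h0
    rw [this] at hz
    exact add_right_cancel hz
  have h3 : (z - z') * (w i - w j) = 0 := by linear_combination hz - hz'
  exact sub_eq_zero.mp ((mul_eq_zero.mp h3).resolve_right h2)

theorem psh_sum {V V' : Type} [NormedAddCommGroup V] [NormedSpace ℂ V] [NormedAddCommGroup V']
    [NormedSpace ℂ V'] {d n : ℕ} (φ : V →ₗ[ℝ] V') (x : Fin n → ℝ) (e : Fin n → Cl V d) :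
    psh φ (∑ k, (x k : ℂ) • e k) = ∑ k, (x k : ℂ) • psh φ (e k) := by
  have hadd : ∀ c c' : Cl V d, psh φ (c + c') = psh φ c + psh φ c' := by
    intro c c'
    ext a
    rfl
  have hsmul : ∀ (r : ℂ) (c : Cl V d), psh φ (r • c) = r • psh φ c := by
    intro r c
    ext a
    rfl
  have hzero : psh φ (0 : Cl V d) = 0 := by
    ext a
    rfl
  have hgen : ∀ t : Finset (Fin n), psh φ (∑ k ∈ t, (x k : ℂ) • e k) =
      ∑ k ∈ t, (x k : ℂ) • psh φ (e k) := by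
    intro t
    induction t using Finset.induction_on with
    | empty => rw [Finset.sum_empty, Finset.sum_empty, hzero]
    | insert k t hk ih =>
      rw [Finset.sum_insert hk, Finset.sum_insert hk, hadd, hsmul, ih]
  exact hgen Finset.univ

end Gc2_aux

open Gc2_aux

theorem tGc2 : S_Rq → S_Av → StmtFP → StmtPA1 → StmtPA3 → StmtPA4 → S_Gc2 := by
  intro hRq hAv hFP hPA1 hPA3 hPA4 Φ p N D h s hs d c c' hc hc' n x e hx he hsum k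
  refine ⟨he k, fun w M hM => ?_⟩
  have hfin := bd_finite s w hs
  obtain ⟨_, hQ, _⟩ := hAv p N D s h hs
  obtain ⟨_, hR2, _, hR4, hR5⟩ := hRq D.V (D.L s) d hQ
  obtain ⟨O, hO, hcO⟩ := hc.2 w M hM
  have h0F : (0 : ℂ) ∉ Bd s w := by
    intro hb
    apply hb
    rw [ln_zero]
    exact hs
  refine hPA3 D.V (Bd s w) hfin M ∅ Set.countable_empty 0 h0F (Set.notMem_empty _) d (e k) ?_
  have hpar : ∀ γ φ, IsPth (Bd s w ∪ ∅) γ 0 0 → IsTr M γ φ →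
      psh (φ 1 : D.V →ₗ[ℝ] D.V) c ∈ O 0 ∧
      (∀ a, psh (φ 1 : D.V →ₗ[ℝ] D.V) c' a = der (jm D.V) (psh (φ 1 : D.V →ₗ[ℝ] D.V) c) a) ∧
      ∀ k, Rtc (D.L s) (psh (φ 1 : D.V →ₗ[ℝ] D.V) (e k)) := by
    intro γ φ hγ hφ
    rw [Set.union_empty] at hγ
    obtain ⟨h1, h2⟩ := hPA4 hFP D.V (Bd s w) hfin M d O hO γ 0 0 hγ φ hφ c hcO
    refine ⟨h1, fun a => ?_, fun k => ?_⟩
    · rw [h2 a]
      exact hc' _
    · have h3 := (hPA1 D.V (Bd s w) hfin M γ 0 0 hγ).2.2 φ hφ 1 ⟨zero_le_one, le_refl _⟩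
      rw [hγ.tgt, hM.L 0 h0F, ln_zero] at h3
      exact hR5 D.V (φ 1) (D.L s) (e k) h3 (he k)
  have hsub : {c'' | ∃ γ φ, IsPth (Bd s w ∪ ∅) γ 0 0 ∧ IsTr M γ φ ∧
      c'' = psh (φ 1 : D.V →ₗ[ℝ] D.V) (e k)} ⊆
      ⋃ o ∈ O 0, {c'' | ∃ γ φ, IsPth (Bd s w ∪ ∅) γ 0 0 ∧ IsTr M γ φ ∧
        psh (φ 1 : D.V →ₗ[ℝ] D.V) c = o ∧ c'' = psh (φ 1 : D.V →ₗ[ℝ] D.V) (e k)} := by
    rintro c'' ⟨γ, φ, hγ, hφ, rfl⟩
    exact Set.mem_iUnion₂.mpr ⟨_, (hpar γ φ hγ hφ).1, γ, φ, hγ, hφ, rfl, rfl⟩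
  refine ((hO.fin 0 h0F).biUnion fun o _ => ?_).subset hsub
  refine Set.Subsingleton.finite ?_
  rintro _ ⟨γ, φ, hγ, hφ, ho, rfl⟩ _ ⟨γ', φ', hγ', hφ', ho', rfl⟩
  obtain ⟨_, h1, h2⟩ := hpar γ φ hγ hφ
  obtain ⟨_, h1', h2'⟩ := hpar γ' φ' hγ' hφ'
  have h3 : psh (φ 1 : D.V →ₗ[ℝ] D.V) c' = psh (φ' 1 : D.V →ₗ[ℝ] D.V) c' := by
    ext a
    rw [h1, h1', ho, ho']
  rw [hsum, psh_sum, psh_sum] at h3
  have h4 : ∑ k, (x k : ℂ) • (psh (φ 1 : D.V →ₗ[ℝ] D.V) (e k) - psh (φ' 1 : D.V →ₗ[ℝ] D.V) (e k)) = 0 := by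
    simp_rw [smul_sub, Finset.sum_sub_distrib]
    rw [h3, sub_self]
  have h5 := hR2 n x _ hx (fun k => ?_) h4 k
  · exact sub_eq_zero.mp h5
  · have h6 := hR4 _ _ (1 : ℚ) (-1 : ℚ) (h2 k) (h2' k)
    have h7 : ((1 : ℚ) : ℂ) • psh (φ 1 : D.V →ₗ[ℝ] D.V) (e k) +
        ((-1 : ℚ) : ℂ) • psh (φ' 1 : D.V →ₗ[ℝ] D.V) (e k) =
        psh (φ 1 : D.V →ₗ[ℝ] D.V) (e k) - psh (φ' 1 : D.V →ₗ[ℝ] D.V) (e k) := by
      push_cast
      rw [one_smul, neg_smul, one_smul, sub_eq_add_neg]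
    rw [h7] at h6
    exact h6

end TATE
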