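import Pool.Agent.Lib.TATE.Asm.Spec
import Pool.Agent.Lib.TATE.NI.Opn

/-!
# PROJECT TATE: assembly, module Gc3: the classes with finite flat families near `s`
-/

set_option autoImplicit false

open Topology Metric

noncomputable section

namespace TATE

open HC HC.CC SEJ SEB SEQ

namespace Gc3_aux

theorem ln_mem {p : ℕ} {s s' : Fin p → ℂ} {ε : ℝ} (h : s' ∈ ball s ε) {t : ℝ}
    (ht : t ∈ Set.Icc (0 : ℝ) 1) : ln s (s' - s) (t : ℂ) ∈ ball s ε := by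
  have hε : 0 < ε := lt_of_le_of_lt dist_nonneg (Metric.mem_ball.1 h)
  rw [Metric.mem_ball, dist_eq_norm] at h ⊢
  have e : ln s (s' - s) (t : ℂ) - s = (t : ℂ) • (s' - s) := by
    funext i
    simp [ln]
  rw [e, norm_smul, Complex.norm_real, Real.norm_of_nonneg ht.1]
  calc t * ‖s' - s‖ ≤ 1 * ‖s' - s‖ := mul_le_mul_of_nonneg_right ht.2 (norm_nonneg _)
    _ = ‖s' - s‖ := one_mul _
    _ < ε := h

theorem ln_zero {p : ℕ} (s w : Fin p → ℂ) : ln s w 0 = s := by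
  funext i
  simp [ln]

theorem ln_one {p : ℕ} (s s' : Fin p → ℂ) : ln s (s' - s) 1 = s' := by
  funext i
  simp [ln]

end Gc3_aux

open Gc3_aux in
theorem tGc3 : StmtFP → StmtPA1 → StmtPA4 → StmtFL → S_Gc3 := by
  intro hFP hPA1 hPA4 hFL Φ p N D h s hs
  obtain ⟨ε, hε, hb⟩ := Metric.isOpen_iff.1 (NI.Opn_aux.inj_open p) s hs
  refine ⟨ε, hε, fun s' hs' => ⟨hb hs', ?_⟩⟩
  obtain ⟨hfin, M, hM⟩ := hFL Φ p N D h s (s' - s) hs
  have hpth : IsPth (Bd s (s' - s)) (fun t : ℝ => (t : ℂ)) 0 1 := by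
    refine ⟨Complex.continuous_ofReal, Complex.ofReal_zero, Complex.ofReal_one, ?_⟩
    intro t ht hbad
    exact hbad (hb (ln_mem hs' ht))
  have h0 : (0 : ℂ) ∉ Bd s (s' - s) := by
    intro hbad
    apply hbad
    rw [ln_zero]
    exact hs
  have h1 : (1 : ℂ) ∉ Bd s (s' - s) := by
    intro hbad
    apply hbad
    rw [ln_one]
    exact hb hs'
  obtain ⟨⟨φ, hφ⟩, -, hL⟩ := hPA1 D.V (Bd s (s' - s)) hfin M _ 0 1 hpth
  refine ⟨φ 1, ?_, fun d c hc => ?_⟩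
  · have h2 := hL φ hφ 1 ⟨zero_le_one, le_rfl⟩
    have e1 : M.L 0 = D.L s := by rw [hM.L 0 h0, ln_zero]
    have e2 : M.L ((1 : ℝ) : ℂ) = D.L s' := by rw [Complex.ofReal_one, hM.L 1 h1, ln_one]
    rw [e1, e2] at h2
    exact h2
  · obtain ⟨O, hO, hcO⟩ := hc.2 (s' - s) M hM
    exact (hPA4 hFP D.V (Bd s (s' - s)) hfin M d O hO _ 0 1 hpth φ hφ c hcO).2

end TATE
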