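import Pool.Agent.Lib.TATE.Asm.Spec
import Pool.Agent.Lib.HC.L.E.IsoInv

/-! # Two very general points -/

set_option autoImplicit false

open Topology Metric

noncomputable section

namespace TATE

open HC HC.CC SEJ SEB SEQ

namespace Ht2_aux

/-- The data of one factor. -/
structure Fac (p : ℕ) where
  m : ℕ
  r : ℕ
  i : Fin (r + 1) → Fin p
  k : Option (Fin p)
  b : Fin (r + 1) → ℕ
  R : AV
  Z : R.V → R.V

/-- The conditions on one factor at the point `s`. -/
structure FOk {p : ℕ} (s : Fin p → ℂ) (F : Fac p) : Prop where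
  inj : Function.Injective F.i
  lt : ∀ l, F.k = some l → ∀ j, F.i j < l
  cv : Cvb F.m F.b
  r3 : 3 ≤ F.r
  ndf : Ndf F.m F.b
  nw : IsNew F.R F.m F.Z (pt s F.i F.k) F.b

/-- A factor at the first point. -/
def lft {p : ℕ} (F : Fac p) : Fac (p + p) :=
  { m := F.m, r := F.r, i := fun j => Fin.castAdd p (F.i j), k := F.k.map (Fin.castAdd p),
    b := F.b, R := F.R, Z := F.Z }

/-- A factor at the second point. -/
def rgt {p : ℕ} (F : Fac p) : Fac (p + p) :=
  { m := F.m, r := F.r, i := fun j => Fin.natAdd p (F.i j), k := F.k.map (Fin.natAdd p),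
    b := F.b, R := F.R, Z := F.Z }

theorem pt_lft {p r : ℕ} (s s' : Fin p → ℂ) (i : Fin (r + 1) → Fin p) (k : Option (Fin p)) :
    pt (Fin.append s s') (fun j => Fin.castAdd p (i j)) (k.map (Fin.castAdd p)) = pt s i k := by
  cases k with
  | none =>
    funext j
    exact Fin.append_left s s' (i j)
  | some l =>
    funext j
    change (Fin.append s s' (Fin.castAdd p (i j)) - Fin.append s s' (Fin.castAdd p l))⁻¹ =
      (s (i j) - s l)⁻¹
    rw [Fin.append_left, Fin.append_left]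

theorem pt_rgt {p r : ℕ} (s s' : Fin p → ℂ) (i : Fin (r + 1) → Fin p) (k : Option (Fin p)) :
    pt (Fin.append s s') (fun j => Fin.natAdd p (i j)) (k.map (Fin.natAdd p)) = pt s' i k := by
  cases k with
  | none =>
    funext j
    exact Fin.append_right s s' (i j)
  | some l =>
    funext j
    change (Fin.append s s' (Fin.natAdd p (i j)) - Fin.append s s' (Fin.natAdd p l))⁻¹ =
      (s' (i j) - s' l)⁻¹
    rw [Fin.append_right, Fin.append_right]

theorem lft_ok {p : ℕ} {s s' : Fin p → ℂ} {F : Fac p} (h : FOk s F) :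
    FOk (Fin.append s s') (lft F) := by
  refine ⟨fun a b hab => h.inj (Fin.castAdd_injective p p hab), fun l hl j => ?_, h.cv, h.r3,
    h.ndf, ?_⟩
  · obtain ⟨l', hl', rfl⟩ := Option.map_eq_some_iff.mp hl
    exact (h.lt l' hl' j : (F.i j : ℕ) < (l' : ℕ))
  · have := pt_lft s s' F.i F.k
    change IsNew F.R F.m F.Z
      (pt (Fin.append s s') (fun j => Fin.castAdd p (F.i j)) (F.k.map (Fin.castAdd p))) F.b
    rw [this]
    exact h.nw

theorem rgt_ok {p : ℕ} {s s' : Fin p → ℂ} {F : Fac p} (h : FOk s' F) :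
    FOk (Fin.append s s') (rgt F) := by
  refine ⟨fun a b hab => h.inj (Fin.natAdd_injective p p hab), fun l hl j => ?_, h.cv, h.r3,
    h.ndf, ?_⟩
  · obtain ⟨l', hl', rfl⟩ := Option.map_eq_some_iff.mp hl
    exact Nat.add_lt_add_left (h.lt l' hl' j : (F.i j : ℕ) < (l' : ℕ)) p
  · have := pt_rgt s s' F.i F.k
    change IsNew F.R F.m F.Z
      (pt (Fin.append s s') (fun j => Fin.natAdd p (F.i j)) (F.k.map (Fin.natAdd p))) F.b
    rw [this]
    exact h.nw

/-- The discrete data. -/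
def dat {p q : ℕ} (G : Fin q → Fac p) : Dt p q :=
  { m := fun n => (G n).m, r := fun n => (G n).r, i := fun n => (G n).i, k := fun n => (G n).k,
    b := fun n => (G n).b }

theorem dat_ok {p q : ℕ} {G : Fin q → Fac p} {s : Fin p → ℂ} (h : ∀ n, FOk s (G n)) :
    (dat G).ok :=
  ⟨fun n => (h n).inj, fun n => (h n).lt, fun n => (h n).cv, fun n => (h n).r3,
    fun n => (h n).ndf⟩

/-- The conclusion. -/
def Cn {p q q' : ℕ} (F : Fin q → Fac p) (F' : Fin q' → Fac p) : Prop :=
  ∃ (E : ∀ n, Cyc (F n).R (F n).m) (E' : ∀ n, Cyc (F' n).R (F' n).m),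
    (∀ n (u : (ZMod (F n).m)ˣ), (E n).p u =
      sg (F n).m (F n).r (F n).b (u : ZMod (F n).m).val) ∧
    ∀ h, HLP E E' h → ∀ X : Tup fun n => (F n).R, (∀ n, IsSU (E n) (X n)) →
      ((X, 0) : (Tup fun n => (F n).R) × (Tup fun n => (F' n).R)) ∈ Submodule.span ℝ h

theorem isSU_zero {T : AV} {m : ℕ} (D : Cyc T m) : IsSU D 0 := by
  refine ⟨⟨fun v => by simp, fun u v => by simp⟩, fun k => by rw [zero_mul, map_zero]⟩

/-- Tuples over `Fin (q + q')` and pairs of tuples. -/
def spl {q q' : ℕ} (G : Fin (q + q') → AV) :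
    Tup G →ₗ[ℝ] (Tup fun n => G (Fin.castAdd q' n)) × (Tup fun n => G (Fin.natAdd q n)) where
  toFun X := (fun n => X (Fin.castAdd q' n), fun n => X (Fin.natAdd q n))
  map_add' _ _ := rfl
  map_smul' _ _ := rfl

theorem spl_inj {q q' : ℕ} (G : Fin (q + q') → AV) : Function.Injective (spl G) := by
  intro X Y hXY
  have h1 := congrArg Prod.fst hXY
  have h2 := congrArg Prod.snd hXY
  funext n
  refine Fin.addCases (fun a => ?_) (fun a => ?_) n
  · exact congrFun h1 a
  · exact congrFun h2 a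

theorem spl_surj {q q' : ℕ} (G : Fin (q + q') → AV) : Function.Surjective (spl G) := by
  rintro ⟨X, Y⟩
  refine ⟨fun n => Fin.addCases (motive := fun n => Module.End ℝ (G n).V) X Y n, ?_⟩
  refine Prod.ext ?_ ?_
  · funext a
    exact Fin.addCases_left (motive := fun n => Module.End ℝ (G n).V) (left := X) (right := Y) a
  · funext a
    exact Fin.addCases_right (motive := fun n => Module.End ℝ (G n).V) (left := X) (right := Y) a

theorem core {q q' : ℕ} (G : Fin (q + q') → AV) (m : Fin (q + q') → ℕ)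
    (E : ∀ n, Cyc (G n) (m n))
    (H : ∀ h, HLieT E h → ∀ X : Tup G, (∀ n, IsSU (E n) (X n)) → X ∈ Submodule.span ℝ (ComT h))
    (h : Set ((Tup fun n => G (Fin.castAdd q' n)) × (Tup fun n => G (Fin.natAdd q n))))
    (hh : HLP (fun n => E (Fin.castAdd q' n)) (fun n => E (Fin.natAdd q n)) h)
    (X₀ : Tup fun n => G (Fin.castAdd q' n)) (hX₀ : ∀ n, IsSU (E (Fin.castAdd q' n)) (X₀ n)) :
    ((X₀, 0) : (Tup fun n => G (Fin.castAdd q' n)) × (Tup fun n => G (Fin.natAdd q n))) ∈
      Submodule.span ℝ h := by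
  have himg : spl G '' (spl G ⁻¹' h) = h := Set.image_preimage_eq h (spl_surj G)
  have hL : HLieT E (spl G ⁻¹' h) := by
    refine ⟨fun X hX n => ?_, fun X hX n => ?_, hh.zero, fun X hX Y hY => hh.add _ hX _ hY,
      fun x X hX => hh.smul x _ hX, fun X hX Y hY => hh.br _ hX _ hY, ?_⟩
    · refine Fin.addCases (fun a => ?_) (fun a => ?_) n
      · exact (hh.rat _ hX).1 a
      · exact (hh.rat _ hX).2 a
    · refine Fin.addCases (fun a => ?_) (fun a => ?_) n
      · exact (hh.u _ hX).1 a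
      · exact (hh.u _ hX).2 a
    · have h1 := hh.J
      rw [← himg, Submodule.span_image] at h1
      obtain ⟨y, hy, hy'⟩ := h1
      have h2 : y = JT G := spl_inj G hy'
      rw [← h2]
      exact hy
  obtain ⟨X, hX⟩ := spl_surj G (X₀, 0)
  have h3 : ∀ n, IsSU (E n) (X n) := by
    intro n
    refine Fin.addCases (fun a => ?_) (fun a => ?_) n
    · have h1 : X (Fin.castAdd q' a) = X₀ a := congrFun (congrArg Prod.fst hX) a
      rw [h1]
      exact hX₀ a
    · have h1 : X (Fin.natAdd q a) = 0 := congrFun (congrArg Prod.snd hX) a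
      rw [h1]
      exact isSU_zero _
  have h4 := H _ hL X h3
  have h5 : X ∈ Submodule.span ℝ (spl G ⁻¹' h) := by
    refine Submodule.span_mono ?_ h4
    rintro Y ⟨A, hA, B, hB, rfl⟩
    exact hL.br A hA B hB
  have h6 : spl G X ∈ Submodule.span ℝ (spl G '' (spl G ⁻¹' h)) := by
    rw [Submodule.span_image]
    exact ⟨X, h5, rfl⟩
  rw [himg, hX] at h6
  exact h6

theorem isg_symm {T T' : AV} (h : Isg T T') : Isg T' T := by
  obtain ⟨ψ, hψ⟩ := h
  exact ⟨ψ.symm, HC.E.tIsoInv T T' ψ hψ⟩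

theorem main {X : (p : ℕ) → Set (Fin p → ℂ)}
    (H : ∀ (p : ℕ) (s : Fin p → ℂ), s ∉ X p →
      ∀ (q : ℕ) (D : Dt p q), D.ok → ∀ (R : Fin q → AV) (Z : ∀ n, (R n).V → (R n).V),
      (∀ n, IsNew (R n) (D.m n) (Z n) (D.t s n) (D.b n)) →
      (∀ n n', n ≠ n' → ¬ Isg (R n) (R n')) →
      ∃ E : ∀ n, Cyc (R n) (D.m n), (∀ n (u : (ZMod (D.m n))ˣ), (E n).p u =
        sg (D.m n) (D.r n) (D.b n) (u : ZMod (D.m n)).val) ∧
        ∀ h, HLieT E h → ∀ X : Tup R, (∀ n, IsSU (E n) (X n)) → X ∈ Submodule.span ℝ (ComT h))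
    {p q q' : ℕ} (s s' : Fin p → ℂ) (hs : Fin.append s s' ∉ X (p + p)) (F : Fin q → Fac p)
    (F' : Fin q' → Fac p) (hF : ∀ n, FOk s (F n)) (hF' : ∀ n, FOk s' (F' n))
    (h1 : ∀ n n', n ≠ n' → ¬ Isg (F n).R (F n').R)
    (h2 : ∀ n n', n ≠ n' → ¬ Isg (F' n).R (F' n').R)
    (h3 : ∀ n n', ¬ Isg (F n).R (F' n').R) :
    Cn F F' := by
  obtain ⟨G, hG⟩ : ∃ G : Fin (q + q') → Fac (p + p),
      G = fun n => Fin.addCases (fun a => lft (F a)) (fun a => rgt (F' a)) n := ⟨_, rfl⟩
  have hl : ∀ a, G (Fin.castAdd q' a) = lft (F a) := by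
    intro a
    rw [hG]
    exact Fin.addCases_left a
  have hr : ∀ a, G (Fin.natAdd q a) = rgt (F' a) := by
    intro a
    rw [hG]
    exact Fin.addCases_right a
  have hok : ∀ n, FOk (Fin.append s s') (G n) := by
    intro n
    refine Fin.addCases (fun a => ?_) (fun a => ?_) n
    · rw [hl]
      exact lft_ok (hF a)
    · rw [hr]
      exact rgt_ok (hF' a)
  have hne : ∀ n n', n ≠ n' → ¬ Isg (G n).R (G n').R := by
    intro n n'
    refine Fin.addCases (fun a => ?_) (fun a => ?_) n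
    · refine Fin.addCases (fun b => ?_) (fun b => ?_) n'
      · intro hab
        rw [hl, hl]
        exact h1 a b fun h => hab (by rw [h])
      · intro hab
        rw [hl, hr]
        exact h3 a b
    · refine Fin.addCases (fun b => ?_) (fun b => ?_) n'
      · intro hab
        rw [hl, hr]
        exact fun h => h3 b a (isg_symm h)
      · intro hab
        rw [hr, hr]
        exact h2 a b fun h => hab (by rw [h])
  obtain ⟨E, hp, hE⟩ := H (p + p) (Fin.append s s') hs (q + q') (dat G) (dat_ok hok)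
    (fun n => (G n).R) (fun n => (G n).Z) (fun n => (hok n).nw) hne
  have h4 : Cn (fun n => G (Fin.castAdd q' n)) (fun n => G (Fin.natAdd q n)) :=
    ⟨fun n => E (Fin.castAdd q' n), fun n => E (Fin.natAdd q n),
      fun n u => hp (Fin.castAdd q' n) u,
      fun h hh X hX => core (fun n => (G n).R) (fun n => (G n).m) E hE h hh X hX⟩
  have h5 : (fun n => G (Fin.castAdd q' n)) = fun n => lft (F n) := funext hl
  have h6 : (fun n => G (Fin.natAdd q n)) = fun n => rgt (F' n) := funext hr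
  rw [h5, h6] at h4
  exact h4

end Ht2_aux

open Ht2_aux

theorem tHt2 : S_Ht → S_Ht2 := by
  rintro ⟨X, hX, H⟩ p
  refine ⟨(Fin.appendHomeomorph (X := ℂ) p p) ⁻¹' X (p + p),
    (hX (p + p)).preimage_of_isOpenMap (Fin.appendHomeomorph (X := ℂ) p p).continuous
      (Fin.appendHomeomorph (X := ℂ) p p).isOpenMap, ?_⟩
  intro x hx q q' D D' hD hD' R R' Z Z' hN hN' h1 h2 h3
  exact main H x.1 x.2 hx
    (fun n => ⟨D.m n, D.r n, D.i n, D.k n, D.b n, R n, Z n⟩)
    (fun n => ⟨D'.m n, D'.r n, D'.i n, D'.k n, D'.b n, R' n, Z' n⟩)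
    (fun n => ⟨hD.inj n, hD.lt n, hD.cv n, hD.r3 n, hD.ndf n, hN n⟩)
    (fun n => ⟨hD'.inj n, hD'.lt n, hD'.cv n, hD'.r3 n, hD'.ndf n, hN' n⟩) h1 h2 h3

end TATE
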