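import Pool.Agent.Lib.TATE.Asm.Jc1
import Pool.Agent.Lib.TATE.Asm.Dr
import Pool.Agent.Lib.SE.Big.Dim
import Pool.Agent.Lib.SE.Big.Tw

/-!
# PROJECT TATE, assembly: `S_Jc` (helper59)
-/

set_option autoImplicit false

open Topology Metric

noncomputable section

namespace TATE

open HC HC.CC SEJ SEB SEQ

namespace Jc_aux

open Finset

/-! ### The combinatorics of the weights -/

section comb

variable {m g : ℕ}

theorem comb_bal (p : (ZMod m)ˣ → ℕ) (u : Fin g → (ZMod m)ˣ) (n : Fin g → ℤ) [NeZero m]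
    (hp : ∀ w, (univ.filter fun s => u s = w).card = p w) (hb : ∀ w, p w = p (-w))
    (h1 : ∀ s t, u s = u t → n s = n t) (h2 : ∀ s t, u t = -u s → n t = -n s) :
    ∑ s, n s = 0 := by
  classical
  have hS : ∑ s, n s = ∑ w, ∑ s ∈ univ.filter fun s => u s = w, n s :=
    (Finset.sum_fiberwise univ u n).symm
  have hneg : ∀ w, ∑ s ∈ univ.filter (fun s => u s = -w), n s =
      -∑ s ∈ univ.filter (fun s => u s = w), n s := by
    intro w
    rcases Nat.eq_zero_or_pos (p w) with h0 | h0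
    · have h3 := hp w
      have h4 := hp (-w)
      rw [h0, Finset.card_eq_zero] at h3
      rw [← hb, h0, Finset.card_eq_zero] at h4
      rw [h3, h4, Finset.sum_empty, neg_zero]
    · have h3 : 0 < p w := h0
      rw [← hp, Finset.card_pos] at h3
      obtain ⟨s₀, hs₀⟩ := h3
      have hs : u s₀ = w := (Finset.mem_filter.1 hs₀).2
      have e1 : ∀ s ∈ univ.filter (fun s => u s = w), n s = n s₀ := fun s hs' =>
        h1 s s₀ ((Finset.mem_filter.1 hs').2.trans hs.symm)
      have e2 : ∀ s ∈ univ.filter (fun s => u s = -w), n s = -n s₀ := fun s hs' =>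
        h2 s₀ s (by rw [(Finset.mem_filter.1 hs').2, hs])
      rw [Finset.sum_congr rfl e1, Finset.sum_congr rfl e2, Finset.sum_const, Finset.sum_const,
        hp, hp, ← hb, smul_neg]
  have h5 : ∑ w, ∑ s ∈ univ.filter (fun s => u s = -w), n s =
      ∑ w, ∑ s ∈ univ.filter (fun s => u s = w), n s :=
    Equiv.sum_comp (Equiv.neg (ZMod m)ˣ) fun w => ∑ s ∈ univ.filter (fun s => u s = w), n s
  rw [Finset.sum_congr rfl fun w _ => hneg w, Finset.sum_neg_distrib, ← hS] at h5
  omega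

theorem comb_big (p : (ZMod m)ˣ → ℕ) (u : Fin g → (ZMod m)ˣ) (n : Fin g → ℤ) (r d : ℕ)
    (hp : ∀ w, (univ.filter fun s => u s = w).card = p w)
    (hb : ∀ w, p w + p (-w) = r) (hd : d < r) (hn : ∑ s, |n s| ≤ d)
    (h1 : ∀ s t, u s = u t → n s = n t) (h2 : ∀ s t, u t = -u s → n t = -n s) :
    ∑ s, n s = 0 := by
  classical
  refine Finset.sum_eq_zero fun s _ => ?_
  by_contra h0
  have hne : u s ≠ -u s := by
    intro h
    have h3 := h2 s s h
    omega
  have hdis : Disjoint (univ.filter fun t => u t = u s) (univ.filter fun t => u t = -u s) := by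
    rw [Finset.disjoint_filter]
    intro t _ h3 h4
    exact hne (h3.symm.trans h4)
  have h3 : ∀ t ∈ (univ.filter fun t => u t = u s) ∪ (univ.filter fun t => u t = -u s),
      1 ≤ |n t| := by
    intro t ht
    have h5 : n t ≠ 0 := by
      rcases Finset.mem_union.1 ht with h4 | h4
      · rw [h1 t s (Finset.mem_filter.1 h4).2]
        exact h0
      · rw [h2 s t (Finset.mem_filter.1 h4).2]
        omega
    exact Int.one_le_abs h5
  have h4 := Finset.card_nsmul_le_sum _ _ _ h3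
  rw [Finset.card_union_of_disjoint hdis, hp, hp, hb] at h4
  have h5 : ∑ t ∈ (univ.filter fun t => u t = u s) ∪ (univ.filter fun t => u t = -u s), |n t| ≤
      ∑ t, |n t| :=
    Finset.sum_le_sum_of_subset_of_nonneg (Finset.subset_univ _) fun t _ _ => abs_nonneg _
  have h6 := h4.trans (h5.trans hn)
  rw [nsmul_eq_mul, mul_one] at h6
  have h7 : r ≤ d := by exact_mod_cast h6
  omega

end comb

/-! ### A derivation on a tuple of eigenforms -/

theorem der_eig {W : Type} [NormedAddCommGroup W] [NormedSpace ℂ W] {d : ℕ} (X : W →ₗ[ℝ] W)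
    (c : Cl W d) (a : Fin d → (W →ₗ[ℝ] ℂ)) (l : Fin d → ℂ) (h : ∀ k, a k ∘ₗ X = l k • a k) :
    der X c a = (∑ k, l k) * c a := by
  unfold der
  rw [Finset.sum_mul]
  refine Finset.sum_congr rfl fun k _ => ?_
  rw [h, c.map_update_smul, Function.update_eq_self, smul_eq_mul]

/-! ### The forms on the product -/

section prod

variable {N : ℕ} {K : Fin N → Type} [∀ n, NormedAddCommGroup (K n)] [∀ n, NormedSpace ℂ (K n)]
  {g : Fin N → ℕ} (b : ∀ n, Module.Basis (Fin (g n)) ℂ (K n))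

/-- The identity or the conjugation. -/
def sg (e : Bool) : ℂ →ₗ[ℝ] ℂ := if e then LinearMap.id else Complex.conjAe.toLinearMap

/-- The signs. -/
def sn (e : Bool) : ℤ := if e then 1 else -1

theorem sg_mul (e : Bool) (x : ℝ) (z : ℂ) :
    sg e (Complex.I * x * z) = Complex.I * (sn e * x : ℝ) * sg e z := by
  cases e
  · change (starRingEnd ℂ) (Complex.I * x * z) = Complex.I * (((-1 : ℤ) : ℝ) * x : ℝ) *
      (starRingEnd ℂ) z
    rw [map_mul, map_mul, Complex.conj_I, Complex.conj_ofReal]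
    push_cast
    ring
  · change Complex.I * x * z = Complex.I * (((1 : ℤ) : ℝ) * x : ℝ) * z
    push_cast
    ring

/-- The coordinate forms and their conjugates. -/
def cf (x : (Σ n, Fin (g n)) × Bool) : (∀ n, K n) →ₗ[ℝ] ℂ :=
  sg x.2 ∘ₗ (((b x.1.1).coord x.1.2) ∘ₗ
    (LinearMap.proj x.1.1 : (∀ n, K n) →ₗ[ℂ] K x.1.1)).restrictScalars ℝ

theorem cf_apply (x : (Σ n, Fin (g n)) × Bool) (w : ∀ n, K n) :
    cf b x w = sg x.2 ((b x.1.1).repr (w x.1.1) x.1.2) := rfl

theorem rform {V : Type} [NormedAddCommGroup V] [NormedSpace ℂ V] {g : ℕ}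
    (b : Module.Basis (Fin g) ℂ V) (a : V →ₗ[ℝ] ℂ) (x : V) :
    a x = ∑ s, ((a (b s) - Complex.I * a (Complex.I • b s)) / 2 * b.repr x s +
      (a (b s) + Complex.I * a (Complex.I • b s)) / 2 * (starRingEnd ℂ) (b.repr x s)) := by
  conv_lhs => rw [← b.sum_repr x, map_sum]
  refine Finset.sum_congr rfl fun s _ => ?_
  generalize b.repr x s = z
  have hx : z • b s = z.re • b s + z.im • (Complex.I • b s) := by
    conv_lhs => rw [← Complex.re_add_im z]
    rw [add_smul, mul_smul, ← Complex.coe_smul, ← Complex.coe_smul]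
  have hz : (starRingEnd ℂ) z = z.re - z.im * Complex.I := by
    apply Complex.ext <;> simp
  rw [hx, map_add, map_smul, map_smul, Complex.real_smul, Complex.real_smul, hz]
  linear_combination ((a (b s) - Complex.I * a (Complex.I • b s)) / 2) * Complex.re_add_im z +
    (z.im * a (Complex.I • b s) : ℂ) * Complex.I_sq

theorem cf_span : ⊤ ≤ Submodule.span ℂ (Set.range (cf b)) := by
  classical
  intro a _
  have h : a = ∑ n, ∑ s, (((a (Pi.single n (b n s)) -
      Complex.I * a (Pi.single n (Complex.I • b n s))) / 2) • cf b (⟨n, s⟩, true) +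
      ((a (Pi.single n (b n s)) +
      Complex.I * a (Pi.single n (Complex.I • b n s))) / 2) • cf b (⟨n, s⟩, false)) := by
    refine LinearMap.ext fun w => ?_
    simp only [LinearMap.sum_apply, LinearMap.add_apply, LinearMap.smul_apply, cf_apply,
      smul_eq_mul]
    conv_lhs => rw [← Finset.univ_sum_single w, map_sum]
    exact Finset.sum_congr rfl fun n _ => rform (b n) (a ∘ₗ LinearMap.single ℝ K n) (w n)
  rw [h]
  refine Submodule.sum_mem _ fun n _ => Submodule.sum_mem _ fun s _ => Submodule.add_mem _ ?_ ?_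
  · exact Submodule.smul_mem _ _ (Submodule.subset_span ⟨_, rfl⟩)
  · exact Submodule.smul_mem _ _ (Submodule.subset_span ⟨_, rfl⟩)

/-- A class which vanishes on the coordinate forms is zero. -/
theorem cf_ext {d : ℕ} (c : Cl (∀ n, K n) d)
    (h : ∀ σ : Fin d → (Σ n, Fin (g n)) × Bool, c (fun k => cf b (σ k)) = 0) : c = 0 := by
  classical
  refine (Module.Basis.ofSpan (cf_span b)).ext_alternating fun v _ => ?_
  have hv : ∀ k, ∃ x, cf b x = Module.Basis.ofSpan (cf_span b) (v k) := fun k =>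
    Module.Basis.ofSpan_subset (cf_span b) ⟨v k, rfl⟩
  choose σ hσ using hv
  rw [← funext hσ, h]
  rfl

end prod

section main

variable {q : ℕ} {g : Fin q → ℕ}

theorem sum_ind (z : (Σ i, Fin (g i)) → ℝ) (y : Σ i, Fin (g i)) (i : Fin q) :
    ∑ s, (if (⟨i, s⟩ : Σ i, Fin (g i)) = y then 1 else 0) * z ⟨i, s⟩ =
      if i = y.1 then z y else 0 := by
  classical
  obtain ⟨i', s'⟩ := y
  rcases eq_or_ne i i' with h | h
  · subst h
    rw [if_pos rfl, Finset.sum_eq_single s']
    · rw [if_pos rfl, one_mul]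
    · intro s _ hs
      rw [if_neg, zero_mul]
      intro h
      exact hs (eq_of_heq (Sigma.mk.inj h).2)
    · intro h
      exact absurd (Finset.mem_univ _) h
  · rw [if_neg h]
    refine Finset.sum_eq_zero fun s _ => ?_
    rw [if_neg, zero_mul]
    intro h2
    exact h (Sigma.mk.inj h2).1

end main

end Jc_aux

open Finset Jc_aux in
theorem tJc : S_Jc := by
  classical
  intro N K _ _ _ q R m r E j θ A hA hm hr d hd c hc
  have hdim := tDim tPj tTw (tBas tPj)
  choose g v u hZ hψ using fun i => cycb (E i) (hm i)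
  have hcard := fun i => card_p (E i) (hm i) (v i) (u i) (hZ i)
  let b : ∀ n, Module.Basis (Fin (g (j n))) ℂ (K n) := fun n => (v (j n)).map (θ n).symm
  have hb : ∀ n x s, (b n).repr x s = (v (j n)).repr (θ n x) s := fun n x s => by
    rw [Module.Basis.map_repr]
    rfl
  obtain ⟨c', hc'⟩ := (tDr (∀ n, K n) d).1 (jm (∀ n, K n)) c
  suffices h0 : c' = 0 by
    intro a
    rw [← hc' a, h0]
    rfl
  refine cf_ext b c' fun σ => ?_
  rw [hc']
  -- the signs and the places
  let τ : Fin d → (Σ i, Fin (g i)) := fun k => ⟨j (σ k).1.1, (σ k).1.2⟩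
  let e : Fin d → ℤ := fun k => sn (σ k).2
  have hjm : ∀ k, cf b (σ k) ∘ₗ jm (∀ n, K n) = (Complex.I * (e k : ℝ) : ℂ) • cf b (σ k) := by
    intro k
    refine LinearMap.ext fun w => ?_
    have h1 : (b (σ k).1.1).repr ((jm (∀ n, K n) w) (σ k).1.1) (σ k).1.2 =
        Complex.I * (1 : ℝ) * (b (σ k).1.1).repr (w (σ k).1.1) (σ k).1.2 := by
      change (b (σ k).1.1).repr (Complex.I • w (σ k).1.1) (σ k).1.2 = _
      rw [map_smul, Finsupp.smul_apply, smul_eq_mul, Complex.ofReal_one, mul_one]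
    rw [LinearMap.comp_apply, LinearMap.smul_apply, cf_apply, cf_apply, h1, sg_mul, mul_one,
      smul_eq_mul]
  rw [der_eig _ _ _ _ hjm]
  by_cases hc0 : c (fun k => cf b (σ k)) = 0
  · rw [hc0, mul_zero]
  -- the operators
  let X : ((Σ i, Fin (g i)) → ℝ) → Tup R := fun x i => xy (v i) fun s => x ⟨i, s⟩
  have hX : ∀ x k, cf b (σ k) ∘ₗ A (X x) =
      (Complex.I * (e k * x (τ k) : ℝ) : ℂ) • cf b (σ k) := by
    intro x k
    refine LinearMap.ext fun w => ?_
    have h1 : (b (σ k).1.1).repr ((A (X x) w) (σ k).1.1) (σ k).1.2 =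
        Complex.I * (x (τ k)) * (b (σ k).1.1).repr (w (σ k).1.1) (σ k).1.2 := by
      rw [hb, hb, hA]
      exact xy_repr _ _ _ _
    rw [LinearMap.comp_apply, LinearMap.smul_apply, cf_apply, cf_apply, h1, sg_mul, smul_eq_mul]
  have hx : ∀ x : (Σ i, Fin (g i)) → ℝ,
      (∀ (i : Fin q) (k : ℕ), ∑ s, x ⟨i, s⟩ * (zet (m i) (u i s) ^ k).im = 0) →
      ∑ k, (e k : ℝ) * x (τ k) = 0 := by
    intro x hx
    have h1 := hc (X x) (fun i => xy_su (E i) (v i) (u i) (hZ i) (hψ i) _ (hx i))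
      fun k => cf b (σ k)
    rw [der_eig _ _ _ _ (hX x)] at h1
    have h2 := (mul_eq_zero.1 h1).resolve_right hc0
    rw [← Finset.mul_sum, ← Complex.ofReal_sum] at h2
    have h3 := (mul_eq_zero.1 h2).resolve_left Complex.I_ne_zero
    exact_mod_cast h3
  -- the weights
  let nn : (Σ i, Fin (g i)) → ℤ := fun y => ∑ k ∈ univ.filter fun k => τ k = y, e k
  have hnn : ∀ y, ∑ k, (e k : ℝ) * (if τ k = y then 1 else 0) = nn y := by
    intro y
    rw [Int.cast_sum, Finset.sum_filter]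
    exact Finset.sum_congr rfl fun k _ => by
      by_cases h : τ k = y
      · rw [if_pos h, if_pos h, mul_one]
      · rw [if_neg h, if_neg h, mul_zero]
  have h1 : ∀ i s t, u i s = u i t → nn ⟨i, s⟩ = nn ⟨i, t⟩ := by
    intro i s t hst
    have h2 := hx (fun y => (if y = ⟨i, s⟩ then 1 else 0) - (if y = ⟨i, t⟩ then 1 else 0)) ?_
    · simp only [mul_sub, Finset.sum_sub_distrib, hnn] at h2
      exact_mod_cast sub_eq_zero.1 h2
    · intro i' k
      simp only [sub_mul, Finset.sum_sub_distrib]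
      rw [sum_ind (fun y => (zet (m y.1) (u y.1 y.2) ^ k).im) ⟨i, s⟩ i',
        sum_ind (fun y => (zet (m y.1) (u y.1 y.2) ^ k).im) ⟨i, t⟩ i']
      simp only [hst, sub_self]
  have h2 : ∀ i s t, u i t = -u i s → nn ⟨i, t⟩ = -nn ⟨i, s⟩ := by
    intro i s t hst
    have h2 := hx (fun y => (if y = ⟨i, s⟩ then 1 else 0) + (if y = ⟨i, t⟩ then 1 else 0)) ?_
    · simp only [mul_add, Finset.sum_add_distrib, hnn] at h2
      have h3 : ((nn ⟨i, s⟩ + nn ⟨i, t⟩ : ℤ) : ℝ) = 0 := by
        push_cast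
        exact h2
      have h4 : nn ⟨i, s⟩ + nn ⟨i, t⟩ = 0 := by exact_mod_cast h3
      omega
    · intro i' k
      simp only [add_mul, Finset.sum_add_distrib]
      rw [sum_ind (fun y => (zet (m y.1) (u y.1 y.2) ^ k).im) ⟨i, s⟩ i',
        sum_ind (fun y => (zet (m y.1) (u y.1 y.2) ^ k).im) ⟨i, t⟩ i']
      simp only [hst, SEB.Bas_aux.zet_conj (hm i), ← map_pow, Complex.conj_im]
      by_cases h : i' = i
      · rw [if_pos h, if_pos h, add_neg_cancel]
      · rw [if_neg h, if_neg h, add_zero]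
  have hab : ∀ i, ∑ s, |nn ⟨i, s⟩| ≤ d := by
    intro i
    have h3 : ∑ s, |nn ⟨i, s⟩| ≤ ∑ i, ∑ s, |nn ⟨i, s⟩| :=
      Finset.single_le_sum (f := fun i => ∑ s, |nn ⟨i, s⟩|)
        (fun i _ => Finset.sum_nonneg fun s _ => abs_nonneg _) (Finset.mem_univ i)
    have h4 : ∑ i, ∑ s, |nn ⟨i, s⟩| = ∑ y, |nn y| :=
      (Fintype.sum_sigma fun y => |nn y|).symm
    have h5 : ∀ y, |nn y| ≤ ((univ.filter fun k => τ k = y).card : ℤ) := by
      intro y
      refine (Finset.abs_sum_le_sum_abs _ _).trans ?_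
      rw [Finset.card_eq_sum_ones, Nat.cast_sum]
      refine Finset.sum_le_sum fun k _ => ?_
      change |sn (σ k).2| ≤ _
      cases (σ k).2 <;> decide
    have h6 : ∑ y, ((univ.filter fun k => τ k = y).card : ℤ) = d := by
      rw [← Nat.cast_sum, ← Finset.card_eq_sum_card_fiberwise (fun k _ => Finset.mem_univ (τ k)),
        Finset.card_univ, Fintype.card_fin]
    rw [h4] at h3
    exact h3.trans ((Finset.sum_le_sum fun y _ => h5 y).trans h6.le)
  have hz : ∀ i, ∑ s, nn ⟨i, s⟩ = 0 := by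
    intro i
    have : NeZero (m i) := ⟨by have := hm i; omega⟩
    rcases hd i with h3 | h3
    · exact comb_bal (E i).p (u i) _ (hcard i) h3 (h1 i) (h2 i)
    · exact comb_big (E i).p (u i) _ (r i) d (hcard i)
        (fun w => (hdim (R i) (m i) (r i) (E i) (hm i) (hr i) w).2) h3 (hab i) (h1 i) (h2 i)
  have hs : ∑ k, e k = 0 := by
    have h3 : ∑ k, e k = ∑ y, nn y := (Finset.sum_fiberwise univ τ e).symm
    rw [h3, Fintype.sum_sigma]
    exact Finset.sum_eq_zero fun i _ => hz i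
  have hs2 : ∑ k, (Complex.I * (e k : ℝ) : ℂ) = Complex.I * ((∑ k, e k : ℤ) : ℂ) := by
    rw [Int.cast_sum, Finset.mul_sum]
    refine Finset.sum_congr rfl fun k _ => ?_
    push_cast
    rfl
  rw [hs2, hs, Int.cast_zero, mul_zero, zero_mul]

end TATE
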