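import Pool.Agent.Lib.TATE.Asm.Spec
import Pool.Agent.Lib.SE.R.Hr
import Pool.Agent.Lib.SE.N.n0

/-!
# PROJECT TATE, assembly: `i` is a real combination of rational skew endomorphisms
-/

set_option autoImplicit false

open Topology Metric

noncomputable section

namespace TATE

open HC HC.CC SEJ SEB SEQ

namespace Jrt_aux

theorem rat_zero (T : AV) : RatEnd T 0 := fun v _ => ⟨1, one_ne_zero, by simp⟩

theorem rat_add {T : AV} {X Y : Module.End ℝ T.V} (hX : RatEnd T X) (hY : RatEnd T Y) :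
    RatEnd T (X + Y) := by
  intro v hv
  obtain ⟨N, hN, h1⟩ := hX v hv
  obtain ⟨M, hM, h2⟩ := hY v hv
  refine ⟨M * N, Nat.mul_ne_zero hM hN, ?_⟩
  have h3 : (M * N) • (X + Y) v = M • (N • X v) + N • (M • Y v) := by
    rw [LinearMap.add_apply, smul_add, mul_smul, mul_comm M N, mul_smul]
  rw [h3]
  exact T.L.add_mem (T.L.smul_of_tower_mem M h1) (T.L.smul_of_tower_mem N h2)

theorem rat_smul {T : AV} {X : Module.End ℝ T.V} (hX : RatEnd T X) (t : ℚ) :
    RatEnd T ((t : ℝ) • X) := by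
  intro v hv
  obtain ⟨N, hN, h1⟩ := hX v hv
  refine ⟨t.den * N, Nat.mul_ne_zero t.den_nz hN, ?_⟩
  have h3 : (t.den * N) • ((t : ℝ) • X) v = t.num • (N • X v) := by
    have h4 : (t.den : ℝ) * (t : ℝ) = (t.num : ℝ) := by
      have h5 := Rat.den_mul_eq_num t
      exact_mod_cast congrArg (fun x : ℚ => (x : ℝ)) h5
    rw [LinearMap.smul_apply, mul_comm t.den N, mul_smul, ← Nat.cast_smul_eq_nsmul ℝ t.den,
      smul_smul, h4, Int.cast_smul_eq_zsmul, smul_comm]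
  rw [h3]
  exact T.L.smul_of_tower_mem t.num h1

/-- The rational tuples in `∏ u`. -/
def Rs {q : ℕ} {R : Fin q → AV} {m : Fin q → ℕ} (E : ∀ n, Cyc (R n) (m n)) : Set (Tup R) :=
  {X | (∀ n, RatEnd (R n) (X n)) ∧ ∀ n, IsU (E n) (X n)}

variable {q : ℕ} {R : Fin q → AV} {m : Fin q → ℕ} (E : ∀ n, Cyc (R n) (m n))

theorem Rs_zero : (0 : Tup R) ∈ Rs E :=
  ⟨fun n => rat_zero (R n), fun n => Hl_aux.isU_zero (E n)⟩

theorem Rs_add {X Y : Tup R} (hX : X ∈ Rs E) (hY : Y ∈ Rs E) : X + Y ∈ Rs E :=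
  ⟨fun n => rat_add (hX.1 n) (hY.1 n), fun n => Hl_aux.isU_add (hX.2 n) (hY.2 n)⟩

theorem Rs_smul {X : Tup R} (hX : X ∈ Rs E) (t : ℚ) : (t : ℝ) • X ∈ Rs E :=
  ⟨fun n => rat_smul (hX.1 n) t, fun n => Hl_aux.isU_smul (hX.2 n) (t : ℝ)⟩

/-- One tuple. -/
theorem tup : (JT R : Tup R) ∈ Submodule.span ℝ (Rs E) := by
  classical
  have h1 : (JT R : Tup R) = ∑ n, Pi.single n (mulI (R n)) :=
    (Finset.univ_sum_single (JT R)).symm
  rw [h1]
  refine Submodule.sum_mem _ fun n _ => ?_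
  have h2 := SER.tHr (R n) (m n) (E n)
  have h3 := Submodule.mem_map_of_mem
    (f := LinearMap.single ℝ (fun n => Module.End ℝ (R n).V) n) h2
  rw [Submodule.map_span] at h3
  refine Submodule.span_mono ?_ h3
  rintro _ ⟨X, ⟨hX1, hX2⟩, rfl⟩
  constructor
  · intro k
    by_cases hk : k = n
    · subst hk
      simpa using hX1
    · simpa [LinearMap.coe_single, Pi.single_eq_of_ne hk] using rat_zero (R k)
  · intro k
    by_cases hk : k = n
    · subst hk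
      simpa using hX2
    · simpa [LinearMap.coe_single, Pi.single_eq_of_ne hk] using Hl_aux.isU_zero (E k)

end Jrt_aux

open Jrt_aux in
theorem tJrt : S_Jrt := by
  intro q q' R R' m m' E E'
  obtain ⟨n, x, Y, hx, hY, hJ⟩ := SEN.tn0 (Tup R × Tup R') (Rs E ×ˢ Rs E')
    ⟨Rs_zero E, Rs_zero E'⟩ (fun X hX Y hY => ⟨Rs_add E hX.1 hY.1, Rs_add E' hX.2 hY.2⟩)
    (fun t X hX => ⟨Rs_smul E hX.1 t, Rs_smul E' hX.2 t⟩) ((JT R, JT R') : Tup R × Tup R')
    (by
      have h1 := Submodule.mem_map_of_mem (f := LinearMap.inl ℝ (Tup R) (Tup R')) (tup E)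
      have h2 := Submodule.mem_map_of_mem (f := LinearMap.inr ℝ (Tup R) (Tup R')) (tup E')
      rw [Submodule.map_span] at h1 h2
      have h3 : ((JT R, JT R') : Tup R × Tup R') =
          LinearMap.inl ℝ (Tup R) (Tup R') (JT R) + LinearMap.inr ℝ (Tup R) (Tup R') (JT R') := by
        simp
      rw [h3]
      refine Submodule.add_mem _ (Submodule.span_mono ?_ h1) (Submodule.span_mono ?_ h2)
      · rintro _ ⟨X, hX, rfl⟩
        exact ⟨hX, Rs_zero E'⟩
      · rintro _ ⟨X, hX, rfl⟩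
        exact ⟨Rs_zero E, hX⟩)
  refine ⟨n, x, Y, hx, fun k => ?_, hJ⟩
  obtain ⟨⟨h1, h2⟩, h3, h4⟩ := hY k
  exact ⟨⟨h1, h3⟩, h2, h4⟩

end TATE
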