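import Pool.Agent.Lib.TATE.Asm.Spec

/-!
# PROJECT TATE, assembly: the theorem of Kuratowski and Ulam for meagre sets
-/

set_option autoImplicit false

open Topology Metric

noncomputable section

namespace TATE

open HC HC.CC SEJ SEB SEQ

namespace Ku_aux

variable {X Y : Type} [TopologicalSpace X] [TopologicalSpace Y]

/-- The set of the points over which the closed set `K` contains `B`. -/
def A (K : Set (X × Y)) (B : Set Y) : Set X := {x | ∀ y ∈ B, (x, y) ∈ K}

theorem closedA (K : Set (X × Y)) (hK : IsClosed K) (B : Set Y) : IsClosed (A K B) := by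
  have h : A K B = ⋂ y ∈ B, (fun x : X => (x, y)) ⁻¹' K := by
    ext x
    simp [A]
  rw [h]
  refine isClosed_biInter fun y _ => ?_
  exact hK.preimage (by fun_prop)

theorem nwdA (K : Set (X × Y)) (hK : IsClosed K) (hi : interior K = ∅) (B : Set Y)
    (hB : IsOpen B) (hne : B.Nonempty) : IsNowhereDense (A K B) := by
  rw [(closedA K hK B).isNowhereDense_iff]
  by_contra hcon
  obtain ⟨x, hx⟩ := Set.nonempty_iff_ne_empty.2 hcon
  obtain ⟨y, hy⟩ := hne
  have hopen : IsOpen (interior (A K B) ×ˢ B) := isOpen_interior.prod hB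
  have hsub : interior (A K B) ×ˢ B ⊆ K := by
    rintro ⟨a, b⟩ ⟨ha, hb⟩
    exact interior_subset ha b hb
  have hmem : (x, y) ∈ interior K := interior_maximal hsub hopen ⟨hx, hy⟩
  rw [hi] at hmem
  exact hmem

theorem ku [SecondCountableTopology Y] (S : Set (X × Y)) (hS : IsMeagre S) :
    IsMeagre {x : X | ¬ IsMeagre {y | (x, y) ∈ S}} := by
  rw [isMeagre_iff_countable_union_isNowhereDense] at hS
  obtain ⟨T, hT, hTc, hST⟩ := hS
  have hmain : IsMeagre (⋃ N ∈ T, ⋃ B ∈ TopologicalSpace.countableBasis Y,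
      A (closure N) B) := by
    refine isMeagre_biUnion hTc fun N hN => ?_
    refine isMeagre_biUnion (TopologicalSpace.countable_countableBasis Y) fun B hB => ?_
    exact (nwdA (closure N) isClosed_closure (hT N hN) B
      (TopologicalSpace.isOpen_of_mem_countableBasis hB)
      (TopologicalSpace.nonempty_of_mem_countableBasis hB)).isMeagre
  refine hmain.mono ?_
  intro x hx
  by_contra hcon
  apply hx
  have hnot : ∀ N ∈ T, ∀ B ∈ TopologicalSpace.countableBasis Y, x ∉ A (closure N) B := by
    intro N hN B hB hxA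
    exact hcon (Set.mem_iUnion₂.2 ⟨N, hN, Set.mem_iUnion₂.2 ⟨B, hB, hxA⟩⟩)
  have hsec : IsMeagre (⋃ N ∈ T, {y : Y | (x, y) ∈ closure N}) := by
    refine isMeagre_biUnion hTc fun N hN => ?_
    apply IsNowhereDense.isMeagre
    have hcl : IsClosed {y : Y | (x, y) ∈ closure N} :=
      isClosed_closure.preimage (by fun_prop : Continuous fun y : Y => (x, y))
    rw [hcl.isNowhereDense_iff]
    by_contra hne
    obtain ⟨y, hy⟩ := Set.nonempty_iff_ne_empty.2 hne
    obtain ⟨B, hB, hyB, hBs⟩ := (TopologicalSpace.isBasis_countableBasis Y).exists_subset_of_mem_open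
      hy isOpen_interior
    refine hnot N hN B hB fun b hb => ?_
    have h1 : b ∈ {y : Y | (x, y) ∈ closure N} := interior_subset (hBs hb)
    exact h1
  refine hsec.mono ?_
  intro y hy
  obtain ⟨N, hN, hyN⟩ := hST hy
  exact Set.mem_iUnion₂.2 ⟨N, hN, subset_closure hyN⟩

end Ku_aux

theorem tKu : S_Ku := by
  intro p X hX
  exact Ku_aux.ku X hX

end TATE
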