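import Pool.Agent.Lib.TATE.Asm.Spec

/-!
# PROJECT TATE, assembly, statement Ls: `i` kills the classes with finite flat families
-/

set_option autoImplicit false

open Topology Metric

noncomputable section

namespace TATE

open HC HC.CC SEJ SEB SEQ

namespace Ls_aux

/-- As `SEL.meagre_ninj` (SE/L/Smp.lean). -/
theorem meagre_ninj (p : ℕ) : IsMeagre {s : Fin p → ℂ | ¬ Function.Injective s} := by
  have h1 : {s : Fin p → ℂ | ¬ Function.Injective s} ⊆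
      ⋃ (i : Fin p) (j : Fin p), {s | i ≠ j ∧ s i = s j} := by
    intro s hs
    simp only [Set.mem_ofPred_eq, Function.Injective, not_forall] at hs
    obtain ⟨i, j, h2, h3⟩ := hs
    exact Set.mem_iUnion.2 ⟨i, Set.mem_iUnion.2 ⟨j, h3, h2⟩⟩
  refine IsMeagre.mono h1 (isMeagre_iUnion fun i => isMeagre_iUnion fun j => ?_)
  by_cases hij : i = j
  · have : {s : Fin p → ℂ | i ≠ j ∧ s i = s j} = ∅ :=
      Set.eq_empty_of_forall_notMem fun s hs => hs.1 hij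
    rw [this]
    exact IsMeagre.empty
  let W : Submodule ℂ (Fin p → ℂ) := LinearMap.ker
    (LinearMap.proj (R := ℂ) (φ := fun _ : Fin p => ℂ) i - LinearMap.proj j)
  have hW : {s : Fin p → ℂ | i ≠ j ∧ s i = s j} ⊆ (W : Set (Fin p → ℂ)) := by
    rintro s ⟨-, hs⟩
    change s ∈ LinearMap.ker _
    rw [LinearMap.mem_ker, LinearMap.sub_apply, LinearMap.proj_apply, LinearMap.proj_apply, hs,
      sub_self]
  refine IsMeagre.mono hW (IsNowhereDense.isMeagre ?_)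
  have hc : IsClosed (W : Set (Fin p → ℂ)) := W.closed_of_finiteDimensional
  rw [hc.isNowhereDense_iff]
  by_contra hne
  have h2 := W.eq_top_of_nonempty_interior' (Set.nonempty_iff_ne_empty.2 hne)
  have h3 : Pi.single i (1 : ℂ) ∈ W := h2 ▸ Submodule.mem_top
  have h4 : Pi.single (M := fun _ : Fin p => ℂ) i (1 : ℂ) i -
      Pi.single (M := fun _ : Fin p => ℂ) i (1 : ℂ) j = 0 := LinearMap.mem_ker.1 h3
  rw [Pi.single_eq_same, Pi.single_eq_of_ne (Ne.symm hij), sub_zero] at h4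
  exact one_ne_zero h4

theorem meagre_union {X : Type} [TopologicalSpace X] {A B : Set X} (hA : IsMeagre A)
    (hB : IsMeagre B) : IsMeagre (A ∪ B) := by
  rw [IsMeagre, Set.compl_union]
  exact Filter.inter_mem hA hB

/-- The data of the factors `ρ a`. -/
def sub {p N q : ℕ} (D : Dt p N) (ρ : Fin q → Fin N) : Dt p q where
  m a := D.m (ρ a)
  r a := D.r (ρ a)
  i a := D.i (ρ a)
  k a := D.k (ρ a)
  b a := D.b (ρ a)

theorem sub_ok {p N q : ℕ} {D : Dt p N} (h : D.ok) (ρ : Fin q → Fin N) : (sub D ρ).ok where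
  inj a := h.inj (ρ a)
  lt a := h.lt (ρ a)
  cv a := h.cv (ρ a)
  r3 a := h.r3 (ρ a)
  ndf a := h.ndf (ρ a)

end Ls_aux

open Ls_aux in
/-- **Ls**. -/
theorem tLs : S_Lsa → S_Rep → S_Rp → S_Ht2 → S_Ni → S_Ku → S_Av → S_Gc1 → S_Gc2 → S_Gc3 →
    S_Jc → S_Ls := by
  intro hLsa hRep hRp hHt hNi hKu hAv hG1 hG2 hG3 hJc Φ
  choose X1 hX1 H1 using hHt
  choose X2 hX2 H2 using hNi
  refine ⟨fun p => {s | ¬ IsMeagre {s' | (s, s') ∈ X1 p ∪ X2 p}} ∪ {s | ¬ Function.Injective s},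
    fun p => meagre_union (hKu p _ (meagre_union (hX1 p) (hX2 p))) (meagre_ninj p), ?_⟩
  intro p s hs
  have hinj : Function.Injective s := by
    by_contra hn
    exact hs (Or.inr hn)
  have hmg : IsMeagre {s' | (s, s') ∈ X1 p ∪ X2 p} := by
    by_contra hn
    exact hs (Or.inl hn)
  refine ⟨hinj, ?_⟩
  intro N D h d hd c hc
  obtain ⟨ε, hε, hball⟩ := hG3 Φ p N D h s hinj
  have hdense : Dense {s' | (s, s') ∈ X1 p ∪ X2 p}ᶜ := dense_of_mem_residual hmg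
  obtain ⟨s', hs'1, hs'2⟩ := hdense.exists_mem_open isOpen_ball ⟨s, mem_ball_self hε⟩
  obtain ⟨hinj', φ, hφ, hJC⟩ := hball s' hs'2
  have hx1 : (s, s') ∉ X1 p := fun hx => hs'1 (Or.inl hx)
  have hx2 : (s, s') ∉ X2 p := fun hx => hs'1 (Or.inr hx)
  obtain ⟨-, hQ, J, Z, κ, hnew, hκ⟩ := hAv p N D s h hinj
  obtain ⟨-, hQ', J', Z', κ', hnew', hκ'⟩ := hAv p N D s' h hinj'
  obtain ⟨q, ρ, j, hj, hρ⟩ := hRep N J
  obtain ⟨q', ρ', j', hj', hρ'⟩ := hRep N J'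
  obtain ⟨E, E', hEp, hh⟩ := H1 p (s, s') hx1 q q' (sub D ρ) (sub D ρ') (sub_ok h ρ)
    (sub_ok h ρ') (fun a => J (ρ a)) (fun a => J' (ρ' a)) (fun a => Z (ρ a))
    (fun a => Z' (ρ' a)) (fun a => hnew (ρ a)) (fun a => hnew' (ρ' a)) hρ hρ'
    (fun a b => H2 p (s, s') hx2 N N D D h h (ρ a) (ρ' b) (J (ρ a)) (J' (ρ' b)) (Z (ρ a))
      (Z' (ρ' b)) (hnew (ρ a)) (hnew' (ρ' b)))
  obtain ⟨θ, A, hθ, hA⟩ := hRp p N D s J κ hκ q (fun a => J (ρ a)) j hj
  obtain ⟨-, A', -, hA'⟩ := hRp p N D s' J' κ' hκ' q' (fun a => J' (ρ' a)) j' hj'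
  have hG := hG1 Φ p N D h s hinj d
  have key : ∀ X : Tup (fun a => J (ρ a)), (∀ n, IsSU (E n) (X n)) → ∀ a, der (A X) c a = 0 := by
    refine hLsa D.V (D.L s) (D.L s') hQ hQ' φ hφ d {c | GC Φ D h s c} (fun c hc => hc.1) hG.1 ?_ ?_
      (fun c hc => hJC d c hc) ?_ q q' (fun a => J (ρ a)) (fun a => J' (ρ' a)) _ _ E E' hh A A'
      hA hA' c hc
    · intro c hc c' hc'
      have := hG.2 c c' 1 1 hc hc'
      simpa using this
    · intro x c hc
      have := hG.2 c c x 0 hc hc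
      simpa using this
    · intro c hc c' hc' n x e hx he hce k
      exact hG2 Φ p N D h s hinj d c c' hc hc' n x e hx he hce k
  have hm : ∀ a, 3 ≤ D.m (ρ a) := fun a => (h.cv (ρ a)).1
  refine hJc N (fun n => Ix (D.m n) (D.b n) → ℂ) q (fun a => J (ρ a)) (fun a => D.m (ρ a))
    (fun a => D.r (ρ a)) E j θ A hθ hm (fun a => (hnew (ρ a)).dim) d (fun a => ?_) c key
  rcases hd (ρ a) with hb | hb
  · left
    intro u
    have : NeZero (D.m (ρ a)) := ⟨by have := hm a; omega⟩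
    have h1 := hb (u : ZMod (D.m (ρ a))).val (ZMod.val_lt _) (ZMod.val_coe_unit_coprime u)
    have h2 := hb ((-u : (ZMod (D.m (ρ a)))ˣ) : ZMod (D.m (ρ a))).val (ZMod.val_lt _)
      (ZMod.val_coe_unit_coprime (-u))
    have e1 := hEp a u
    have e2 := hEp a (-u)
    change (E a).p u = sg (D.m (ρ a)) (D.r (ρ a)) (D.b (ρ a)) (u : ZMod (D.m (ρ a))).val at e1
    change (E a).p (-u) = sg (D.m (ρ a)) (D.r (ρ a)) (D.b (ρ a))
      ((-u : (ZMod (D.m (ρ a)))ˣ) : ZMod (D.m (ρ a))).val at e2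
    change 2 * sg (D.m (ρ a)) (D.r (ρ a)) (D.b (ρ a)) (u : ZMod (D.m (ρ a))).val = _ at h1
    change 2 * sg (D.m (ρ a)) (D.r (ρ a)) (D.b (ρ a))
      ((-u : (ZMod (D.m (ρ a)))ˣ) : ZMod (D.m (ρ a))).val = _ at h2
    refine e1.trans (Eq.trans ?_ e2.symm)
    omega
  · exact Or.inr hb

end TATE
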