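import Pool.Agent.Lib.TATE.Asm.Spec

/-!
# PROJECT TATE: the Lie algebra step (module Lsa)
-/

set_option autoImplicit false

open Topology Metric

noncomputable section

namespace TATE

open HC HC.CC SEJ SEB SEQ

namespace Lsa_aux

section u

variable {T : AV} {m : ℕ} (D : Cyc T m)

theorem u_zero : IsU D 0 := by
  refine ⟨fun v => ?_, fun u v => ?_⟩
  · rw [LinearMap.zero_apply, LinearMap.zero_apply, map_zero]
  · rw [LinearMap.zero_apply, LinearMap.zero_apply, map_zero, map_zero, LinearMap.zero_apply,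
      add_zero]

theorem u_add {X Y : Module.End ℝ T.V} (hX : IsU D X) (hY : IsU D Y) : IsU D (X + Y) := by
  refine ⟨fun v => ?_, fun u v => ?_⟩
  · rw [LinearMap.add_apply, LinearMap.add_apply, hX.1, hY.1, map_add]
  · have h1 := hX.2 u v
    have h2 := hY.2 u v
    rw [LinearMap.add_apply, LinearMap.add_apply, map_add, map_add, LinearMap.add_apply]
    linarith

theorem u_smul (x : ℝ) {X : Module.End ℝ T.V} (hX : IsU D X) : IsU D (x • X) := by
  refine ⟨fun v => ?_, fun u v => ?_⟩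
  · rw [LinearMap.smul_apply, LinearMap.smul_apply, hX.1]
    exact (LinearMap.map_smul_of_tower D.Z x (X v)).symm
  · have h1 := hX.2 u v
    rw [LinearMap.smul_apply, LinearMap.smul_apply, map_smul, map_smul, LinearMap.smul_apply,
      smul_eq_mul, smul_eq_mul, ← mul_add, h1, mul_zero]

theorem u_br {X Y : Module.End ℝ T.V} (hX : IsU D X) (hY : IsU D Y) :
    IsU D (X * Y - Y * X) := by
  refine ⟨fun v => ?_, fun u v => ?_⟩
  · rw [LinearMap.sub_apply, LinearMap.sub_apply, Module.End.mul_apply, Module.End.mul_apply,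
      Module.End.mul_apply, Module.End.mul_apply, hX.1, hY.1, hX.1, hY.1, map_sub]
  · have h1 := hX.2 (Y u) v
    have h2 := hY.2 u (X v)
    have h3 := hY.2 (X u) v
    have h4 := hX.2 u (Y v)
    rw [LinearMap.sub_apply, LinearMap.sub_apply, Module.End.mul_apply, Module.End.mul_apply,
      Module.End.mul_apply, Module.End.mul_apply, map_sub, map_sub, LinearMap.sub_apply]
    linarith

end u

section dr

variable {W W' : Type} [NormedAddCommGroup W] [NormedSpace ℂ W] [NormedAddCommGroup W']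
  [NormedSpace ℂ W'] {d : ℕ}

theorem dr_unique {X : W →ₗ[ℝ] W} {c a b : Cl W d} (h1 : IsDr X c a) (h2 : IsDr X c b) :
    a = b := AlternatingMap.ext fun v => by rw [h1 v, h2 v]

theorem psh_lin (φ : W →ₗ[ℝ] W') (a b : Cl W d) (x y : ℂ) :
    psh φ (x • a + y • b) = x • psh φ a + y • psh φ b := rfl

theorem psh_add (φ : W →ₗ[ℝ] W') (a b : Cl W d) : psh φ (a + b) = psh φ a + psh φ b := rfl

theorem psh_sub (φ : W →ₗ[ℝ] W') (a b : Cl W d) : psh φ (a - b) = psh φ a - psh φ b := rfl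

theorem psh_smul (φ : W →ₗ[ℝ] W') (a : Cl W d) (x : ℂ) : psh φ (x • a) = x • psh φ a := rfl

theorem psh_sum (φ : W →ₗ[ℝ] W') {n : ℕ} (x : Fin n → ℂ) (e : Fin n → Cl W d) :
    psh φ (∑ k, x k • e k) = ∑ k, x k • psh φ (e k) := by
  let L : Cl W d →ₗ[ℂ] Cl W' d :=
    { toFun := psh φ
      map_add' := fun a b => psh_add φ a b
      map_smul' := fun x a => psh_smul φ a x }
  have h := map_sum L (fun k => x k • e k) Finset.univ
  exact h

theorem psh_inj (φ : W ≃ₗ[ℝ] W') {c : Cl W d} (h : psh (φ : W →ₗ[ℝ] W') c = 0) : c = 0 := by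
  refine AlternatingMap.ext fun a => ?_
  have h1 := DFunLike.congr_fun h (fun i => a i ∘ₗ (φ.symm : W' →ₗ[ℝ] W))
  have h2 : psh (φ : W →ₗ[ℝ] W') c (fun i => a i ∘ₗ (φ.symm : W' →ₗ[ℝ] W)) = c a := by
    show c (fun i => (a i ∘ₗ (φ.symm : W' →ₗ[ℝ] W)) ∘ₗ (φ : W →ₗ[ℝ] W')) = c a
    congr 1
    funext i
    refine LinearMap.ext fun v => ?_
    show a i (φ.symm (φ v)) = a i v
    rw [LinearEquiv.symm_apply_apply]
  rw [← h2]
  exact h1

theorem dr_jm (φ : W →ₗ[ℝ] W') {c c₁ : Cl W d} (h : JC φ c) (h1 : IsDr (jm W) c c₁) :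
    IsDr (jm W') (psh φ c) (psh φ c₁) := by
  intro a
  rw [h a, ← h1]
  rfl

theorem dr_zero (hDr : S_Dr) (c : Cl W d) : IsDr (0 : W →ₗ[ℝ] W) c 0 := by
  obtain ⟨ex, -, lin, -, -⟩ := hDr W d
  obtain ⟨a, ha⟩ := ex 0 c
  have h := lin 0 0 c a a 0 0 ha ha
  rw [zero_smul, add_zero, Complex.ofReal_zero, zero_smul, add_zero] at h
  exact h

theorem dr_add (hDr : S_Dr) {X Y : W →ₗ[ℝ] W} {c a b : Cl W d} (ha : IsDr X c a)
    (hb : IsDr Y c b) : IsDr (X + Y) c (a + b) := by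
  have h := (hDr W d).2.2.1 X Y c a b 1 1 ha hb
  rw [one_smul, one_smul, Complex.ofReal_one, one_smul, one_smul] at h
  exact h

theorem dr_smul (hDr : S_Dr) {X : W →ₗ[ℝ] W} {c a : Cl W d} (x : ℝ) (ha : IsDr X c a) :
    IsDr (x • X) c ((x : ℂ) • a) := by
  have h := (hDr W d).2.2.1 X X c a a x 0 ha ha
  rw [zero_smul, add_zero, Complex.ofReal_zero, zero_smul, add_zero] at h
  exact h

theorem dr_sum (hDr : S_Dr) {n : ℕ} (x : Fin n → ℝ) (X : Fin n → (W →ₗ[ℝ] W)) (c : Cl W d)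
    (e : Fin n → Cl W d) (he : ∀ k, IsDr (X k) c (e k)) :
    IsDr (∑ k, x k • X k) c (∑ k, (x k : ℂ) • e k) := by
  classical
  have h : ∀ s : Finset (Fin n), IsDr (∑ k ∈ s, x k • X k) c (∑ k ∈ s, (x k : ℂ) • e k) := by
    intro s
    induction s using Finset.induction_on with
    | empty =>
      rw [Finset.sum_empty, Finset.sum_empty]
      exact dr_zero hDr c
    | insert i s hi ih =>
      rw [Finset.sum_insert hi, Finset.sum_insert hi]
      exact dr_add hDr (dr_smul hDr (x i) (he i)) ih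
  exact h Finset.univ

end dr

section rp

variable {q : ℕ} {R : Fin q → AV} {W : Type} [NormedAddCommGroup W] [NormedSpace ℂ W]
  {L : Set W} {A : Tup R → (W →ₗ[ℝ] W)}

theorem rp_zero (h : IsRp L A) : A 0 = 0 := by
  have := h.smul 0 0
  rwa [zero_smul, zero_smul] at this

theorem rp_sub (h : IsRp L A) (X Y : Tup R) : A (X - Y) = A X - A Y := by
  have h1 := h.add (X - Y) Y
  rw [sub_add_cancel] at h1
  rw [h1, add_sub_cancel_right]

theorem rp_sum (h : IsRp L A) {n : ℕ} (x : Fin n → ℝ) (X : Fin n → Tup R) :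
    A (∑ k, x k • X k) = ∑ k, x k • A (X k) := by
  let B : Tup R →ₗ[ℝ] (W →ₗ[ℝ] W) :=
    { toFun := A
      map_add' := h.add
      map_smul' := h.smul }
  have h1 := map_sum B (fun k => x k • X k) Finset.univ
  have h2 : ∀ k, B (x k • X k) = x k • A (X k) := fun k => h.smul (x k) (X k)
  rw [Finset.sum_congr rfl fun k _ => h2 k] at h1
  exact h1

end rp

end Lsa_aux

open Lsa_aux in
theorem tLsa : S_Dr → S_Rq → S_Jrt → S_Lsa := by
  intro hDr hRq hJrt W _ _ _ L L' hL hL' φ hφ d I hIR hI0 hIa hIs hJC hJ q q' R R' m m' E E' hH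
    A A' hA hA'
  obtain ⟨ex, br, -, -, -⟩ := hDr W d
  obtain ⟨-, -, rq3, -, rq5⟩ := hRq W L d hL
  obtain ⟨-, rq2', rq3', rq4', -⟩ := hRq W L' d hL'
  -- the Lie algebra
  let h : Set (Tup R × Tup R') := {X | ((∀ n, RatEnd (R n) (X.1 n)) ∧ ∀ n, RatEnd (R' n) (X.2 n)) ∧
    ((∀ n, IsU (E n) (X.1 n)) ∧ ∀ n, IsU (E' n) (X.2 n)) ∧
    ∀ c ∈ I, ∀ c₁, IsDr (A X.1) c c₁ →
      c₁ ∈ I ∧ IsDr (A' X.2) (psh (φ : W →ₗ[ℝ] W) c) (psh (φ : W →ₗ[ℝ] W) c₁)}
  have hh : HLP E E' h := by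
    refine ⟨fun X hX => hX.1, fun X hX => hX.2.1, ?_, ?_, ?_, ?_, ?_⟩
    · refine ⟨⟨fun n => RatEnd.zero, fun n => RatEnd.zero⟩,
        ⟨fun n => u_zero (E n), fun n => u_zero (E' n)⟩, fun c hc c₁ h1 => ?_⟩
      have h2 : c₁ = 0 := by
        have h3 : IsDr (A 0) c c₁ := h1
        rw [rp_zero hA] at h3
        exact dr_unique h3 (dr_zero hDr c)
      refine ⟨h2 ▸ hI0, ?_⟩
      show IsDr (A' 0) _ _
      rw [rp_zero hA', h2]
      exact dr_zero hDr _
    · intro X hX Y hY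
      refine ⟨⟨fun n => (hX.1.1 n).add (hY.1.1 n), fun n => (hX.1.2 n).add (hY.1.2 n)⟩,
        ⟨fun n => u_add (E n) (hX.2.1.1 n) (hY.2.1.1 n),
          fun n => u_add (E' n) (hX.2.1.2 n) (hY.2.1.2 n)⟩, fun c hc c₁ h1 => ?_⟩
      obtain ⟨a, ha⟩ := ex (A X.1) c
      obtain ⟨b, hb⟩ := ex (A Y.1) c
      obtain ⟨ha1, ha2⟩ := hX.2.2 c hc a ha
      obtain ⟨hb1, hb2⟩ := hY.2.2 c hc b hb
      have h2 : c₁ = a + b := by
        have h3 : IsDr (A (X.1 + Y.1)) c c₁ := h1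
        rw [hA.add] at h3
        exact dr_unique h3 (dr_add hDr ha hb)
      rw [h2]
      refine ⟨hIa a ha1 b hb1, ?_⟩
      show IsDr (A' (X.2 + Y.2)) _ _
      rw [hA'.add, psh_add]
      exact dr_add hDr ha2 hb2
    · intro x X hX
      refine ⟨⟨fun n => (hX.1.1 n).qsmul x, fun n => (hX.1.2 n).qsmul x⟩,
        ⟨fun n => u_smul (E n) x (hX.2.1.1 n), fun n => u_smul (E' n) x (hX.2.1.2 n)⟩,
        fun c hc c₁ h1 => ?_⟩
      obtain ⟨a, ha⟩ := ex (A X.1) c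
      obtain ⟨ha1, ha2⟩ := hX.2.2 c hc a ha
      have h2 : c₁ = (((x : ℝ)) : ℂ) • a := by
        have h3 : IsDr (A ((x : ℝ) • X.1)) c c₁ := h1
        rw [hA.smul] at h3
        exact dr_unique h3 (dr_smul hDr x ha)
      refine ⟨?_, ?_⟩
      · have h4 := hIs x a ha1
        rw [h2, Complex.ofReal_ratCast]
        exact h4
      · show IsDr (A' ((x : ℝ) • X.2)) _ _
        rw [hA'.smul, h2, psh_smul]
        exact dr_smul hDr x ha2
    · intro X hX Y hY
      refine ⟨⟨fun n => (hX.1.1 n).comm (hY.1.1 n), fun n => (hX.1.2 n).comm (hY.1.2 n)⟩,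
        ⟨fun n => u_br (E n) (hX.2.1.1 n) (hY.2.1.1 n),
          fun n => u_br (E' n) (hX.2.1.2 n) (hY.2.1.2 n)⟩, fun c hc c₁ h1 => ?_⟩
      obtain ⟨cY, hcY⟩ := ex (A Y.1) c
      obtain ⟨cX, hcX⟩ := ex (A X.1) c
      obtain ⟨hcY1, hcY2⟩ := hY.2.2 c hc cY hcY
      obtain ⟨hcX1, hcX2⟩ := hX.2.2 c hc cX hcX
      obtain ⟨cXY, hcXY⟩ := ex (A X.1) cY
      obtain ⟨cYX, hcYX⟩ := ex (A Y.1) cX
      obtain ⟨hcXY1, hcXY2⟩ := hX.2.2 cY hcY1 cXY hcXY
      obtain ⟨hcYX1, hcYX2⟩ := hY.2.2 cX hcX1 cYX hcYX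
      have h2 : c₁ = cXY - cYX := by
        have h3 : IsDr (A (X.1 * Y.1 - Y.1 * X.1)) c c₁ := h1
        rw [rp_sub hA, hA.mul, hA.mul] at h3
        exact dr_unique h3 (br (A X.1) (A Y.1) c cY cXY cX cYX hcY hcXY hcX hcYX)
      refine ⟨?_, ?_⟩
      · have h4 := hIs (-1) cYX hcYX1
        have h5 := hIa cXY hcXY1 _ h4
        rw [h2]
        rw [Rat.cast_neg, Rat.cast_one, neg_smul, one_smul, ← sub_eq_add_neg] at h5
        exact h5
      · show IsDr (A' (X.2 * Y.2 - Y.2 * X.2)) _ _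
        rw [rp_sub hA', hA'.mul, hA'.mul, h2, psh_sub]
        exact br (A' X.2) (A' Y.2) _ _ _ _ _ hcY2 hcXY2 hcX2 hcYX2
    · obtain ⟨n, x, Y, hx, hY, hJY⟩ := hJrt q q' R R' m m' E E'
      rw [hJY]
      refine Submodule.sum_mem _ fun k _ => Submodule.smul_mem _ _ (Submodule.subset_span ?_)
      refine ⟨(hY k).1, (hY k).2, fun c hc c₁ h1 => ?_⟩
      -- the components
      choose e he using fun k => ex (A (Y k).1) c
      choose f hf using fun k => ex (A' (Y k).2) (psh (φ : W →ₗ[ℝ] W) c)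
      have hJ1 : JT R = ∑ k, x k • (Y k).1 := by
        have h2 := congrArg Prod.fst hJY
        rw [Prod.fst_sum] at h2
        exact h2
      have hJ2 : JT R' = ∑ k, x k • (Y k).2 := by
        have h2 := congrArg Prod.snd hJY
        rw [Prod.snd_sum] at h2
        exact h2
      have hA1 : jm W = ∑ k, x k • A (Y k).1 := by
        rw [← hA.J, hJ1, rp_sum hA]
      have hA2 : jm W = ∑ k, x k • A' (Y k).2 := by
        rw [← hA'.J, hJ2, rp_sum hA']
      have hd : IsDr (jm W) c (∑ k, (x k : ℂ) • e k) := by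
        rw [hA1]
        exact dr_sum hDr x _ c e he
      have hcR := hIR c hc
      have heR : ∀ k, Rtc L (e k) := fun k =>
        rq3 (A (Y k).1) c (e k) (hA.rat (Y k).1 (hY k).1.1) hcR (he k)
      have heI : ∀ k, e k ∈ I := hJ c hc _ hd n x e hx heR rfl
      have hpR : Rtc L' (psh (φ : W →ₗ[ℝ] W) c) := rq5 W φ L' c hφ hcR
      have hfR : ∀ k, Rtc L' (f k) := fun k =>
        rq3' (A' (Y k).2) _ (f k) (hA'.rat (Y k).2 (hY k).1.2) hpR (hf k)
      have hpe : ∀ k, Rtc L' (psh (φ : W →ₗ[ℝ] W) (e k)) := fun k =>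
        rq5 W φ L' (e k) hφ (heR k)
      have hd' : IsDr (jm W) (psh (φ : W →ₗ[ℝ] W) c) (∑ k, (x k : ℂ) • f k) := by
        rw [hA2]
        exact dr_sum hDr x _ _ f hf
      have hd'' := dr_jm (φ : W →ₗ[ℝ] W) (hJC c hc) hd
      rw [psh_sum] at hd''
      have h3 := dr_unique hd' hd''
      have h4 : ∀ k, f k - psh (φ : W →ₗ[ℝ] W) (e k) = 0 := by
        refine rq2' n x (fun k => f k - psh (φ : W →ₗ[ℝ] W) (e k)) hx (fun k => ?_) ?_
        · have h5 := rq4' (f k) (psh (φ : W →ₗ[ℝ] W) (e k)) 1 (-1) (hfR k) (hpe k)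
          rw [Rat.cast_neg, Rat.cast_one, one_smul, neg_smul, one_smul,
            ← sub_eq_add_neg] at h5
          exact h5
        · rw [Finset.sum_congr rfl fun k _ => smul_sub ((x k : ℂ)) (f k)
            (psh (φ : W →ₗ[ℝ] W) (e k)), Finset.sum_sub_distrib, h3, sub_self]
      have h6 : c₁ = e k := dr_unique h1 (he k)
      rw [h6]
      refine ⟨heI k, ?_⟩
      rw [← sub_eq_zero.1 (h4 k)]
      exact hf k
  have hspan := hH h hh
  -- the real span
  let S : Submodule ℝ (Tup R × Tup R') :=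
    { carrier := {X | ∀ c ∈ I, ∀ c₁, IsDr (A X.1) c c₁ →
        IsDr (A' X.2) (psh (φ : W →ₗ[ℝ] W) c) (psh (φ : W →ₗ[ℝ] W) c₁)}
      zero_mem' := by
        intro c hc c₁ h1
        have h3 : IsDr (A 0) c c₁ := h1
        rw [rp_zero hA] at h3
        rw [dr_unique h3 (dr_zero hDr c)]
        show IsDr (A' 0) _ _
        rw [rp_zero hA']
        exact dr_zero hDr _
      add_mem' := by
        intro X Y hX hY c hc c₁ h1
        obtain ⟨a, ha⟩ := ex (A X.1) c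
        obtain ⟨b, hb⟩ := ex (A Y.1) c
        have h3 : IsDr (A (X.1 + Y.1)) c c₁ := h1
        rw [hA.add] at h3
        rw [dr_unique h3 (dr_add hDr ha hb)]
        show IsDr (A' (X.2 + Y.2)) _ _
        rw [hA'.add, psh_add]
        exact dr_add hDr (hX c hc a ha) (hY c hc b hb)
      smul_mem' := by
        intro x X hX c hc c₁ h1
        obtain ⟨a, ha⟩ := ex (A X.1) c
        have h3 : IsDr (A (x • X.1)) c c₁ := h1
        rw [hA.smul] at h3
        rw [dr_unique h3 (dr_smul hDr x ha)]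
        show IsDr (A' (x • X.2)) _ _
        rw [hA'.smul, psh_smul]
        exact dr_smul hDr x (hX c hc a ha) }
  have hS : Submodule.span ℝ h ≤ S :=
    Submodule.span_le.2 fun X hX c hc c₁ h1 => (hX.2.2 c hc c₁ h1).2
  intro c hc X hX a
  obtain ⟨c₁, hc₁⟩ := ex (A X) c
  have h2 : IsDr (A' 0) (psh (φ : W →ₗ[ℝ] W) c) (psh (φ : W →ₗ[ℝ] W) c₁) :=
    hS (hspan X hX) c hc c₁ hc₁
  rw [rp_zero hA'] at h2
  have h3 : psh (φ : W →ₗ[ℝ] W) c₁ = 0 := dr_unique h2 (dr_zero hDr _)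
  rw [← hc₁ a, psh_inj φ h3]
  rfl

end TATE
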