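import Pool.Agent.Lib.TATE.Asm.Spec

/-!
# PROJECT TATE: the theorem, from the modules (helper64)
-/

set_option autoImplicit false

open Topology Metric

noncomputable section

namespace TATE

open HC HC.CC SEJ SEB SEQ

namespace Main_aux

variable {V V' : Type} [NormedAddCommGroup V] [NormedSpace ℂ V] [NormedAddCommGroup V']
  [NormedSpace ℂ V']

/-- Rational values on `L` and on the rational lattice. -/
theorem rtc_rt {T : AV} {d : ℕ} {c : Hlg T d} (h : Rtc {v : T.V | In T v} c) :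
    Rtc {v : T.V | Rt T v} c := by
  intro a ha
  refine h a fun i v hv => ha i v ⟨1, one_ne_zero, ?_⟩
  rw [one_smul]
  exact hv

/-- The derivation of a push forward under a complex linear map. -/
theorem der_psh {d : ℕ} (G : V ≃ₗ[ℂ] V') (c : Cl V d)
    (h : ∀ a, der (jm V') (psh ((G : V →ₗ[ℂ] V').restrictScalars ℝ) c) a = 0) (a) :
    der (jm V) c a = 0 := by
  set b : Fin d → (V' →ₗ[ℝ] ℂ) := fun i => a i ∘ₗ ((G.symm : V' →ₗ[ℂ] V).restrictScalars ℝ) with hb
  rw [← h b]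
  unfold der
  refine Finset.sum_congr rfl fun i _ => ?_
  have h2 : Function.update a i (a i ∘ₗ jm V) = fun j => Function.update b i (b i ∘ₗ jm V') j ∘ₗ
      ((G : V →ₗ[ℂ] V').restrictScalars ℝ) := by
    funext j
    rcases eq_or_ne j i with hj | hj
    · subst hj
      rw [Function.update_self, Function.update_self]
      refine LinearMap.ext fun v => ?_
      change a j (Complex.I • v) = a j (G.symm (Complex.I • G v))
      have h3 : G.symm (Complex.I • G v) = Complex.I • v := by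
        rw [map_smul, LinearEquiv.symm_apply_apply]
      rw [h3]
    · rw [Function.update_of_ne hj, Function.update_of_ne hj]
      refine LinearMap.ext fun v => ?_
      change a j v = a j (G.symm (G v))
      rw [LinearEquiv.symm_apply_apply]
  rw [h2]
  rfl

end Main_aux

open Main_aux in
/-- **THE THEOREM**, from the modules. -/
theorem main_of (hΦ : StmtFA1) (hFL : StmtFL) (hPk : S_Pk) (hPg : S_Pg) (hRc : S_Rc)
    (hFo : S_Fo) (hLs : S_Ls) (hCc : S_Cc) (hAv : S_Av) (hM : HC.CC.Main) : Main := by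
  classical
  let Φ : FF := fun m r b h => (hΦ m r b h).some
  obtain ⟨X₁, hX₁, hFo⟩ := hFo hFL Φ
  obtain ⟨X₂, hX₂, hLs⟩ := hLs Φ
  obtain ⟨X₃, hX₃, hCc⟩ := hCc hM
  refine ⟨fun p => X₁ p ∪ X₂ p ∪ X₃ p, fun p => ((hX₁ p).union (hX₂ p)).union (hX₃ p), ?_⟩
  intro p s hs T N J γ g i hB hg ℓ _ c hc
  have hs₁ : s ∉ X₁ p := fun h => hs (Or.inl (Or.inl h))
  have hs₂ : s ∉ X₂ p := fun h => hs (Or.inl (Or.inr h))
  have hs₃ : s ∉ X₃ p := fun h => hs (Or.inr h)
  obtain ⟨hinj, hFo⟩ := hFo p s hs₁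
  obtain ⟨P, hP⟩ := hPk p N s J γ (2 * i) hinj hB
  obtain ⟨G, hG, hGL⟩ := hPg p N s J γ P T g hg
  obtain ⟨B, n, x, C, hBf, hBa, hCr, hcmp, hinv⟩ := hRc p N s J γ hinj P T g hg G hG hGL ℓ i c
    hc
  refine ⟨n, x, C, fun k => ?_, hcmp⟩
  refine hCc p s hs₃ T N J γ g (2 * i) hB hg _ (C k) (hCr k) ?_
  have hQ : IsQ P.D.V (P.D.L s) := (hAv p N P.D s P.ok hinj).2.1
  have h1 : Rtc (P.D.L s) (psh ((G : T.V →ₗ[ℂ] P.D.V).restrictScalars ℝ) (C k)) := by
    intro a ha
    refine rtc_rt (hCr k) (fun i => a i ∘ₗ ((G : T.V →ₗ[ℂ] P.D.V).restrictScalars ℝ)) ?_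
    intro i v hv
    exact ha i (G v) (hGL ▸ ⟨v, hv, rfl⟩)
  have h2 := hFo N J γ P ℓ B hBf hBa _ _ h1 fun η hη φ hφ => hinv η hη k φ hφ
  exact der_psh G (C k) ((hLs p s hs₂).2 N P.D P.ok _ hP _ h2)

end TATE
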