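import Pool.Agent.Lib.TATE.Asm.Spec

/-!
# PROJECT TATE: the loops which fix `B ∪ A` are Galois at every finite level (proof of `S_Mg`)
-/

set_option autoImplicit false

open Topology Metric

noncomputable section

namespace TATE

open HC HC.CC SEJ SEB SEQ

namespace Mg_aux

/-! ## Paths and continuations -/

/-- The bad points of a line are finitely many. -/
theorem bd_finite {p : ℕ} (s w : Fin p → ℂ) (hs : Function.Injective s) : (Bd s w).Finite := by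
  have h1 : Bd s w ⊆ ⋃ i : Fin p, ⋃ j : Fin p, {z : ℂ | i ≠ j ∧ ln s w z i = ln s w z j} := by
    intro z hz
    have hz' : ¬ Function.Injective (ln s w z) := hz
    simp only [Function.Injective] at hz'
    push Not at hz'
    obtain ⟨i, j, hij, hne⟩ := hz'
    exact Set.mem_iUnion.2 ⟨i, Set.mem_iUnion.2 ⟨j, hne, hij⟩⟩
  refine (Set.finite_iUnion fun i => Set.finite_iUnion fun j => ?_).subset h1
  apply Set.Subsingleton.finite
  rintro z ⟨hij, hz⟩ z' ⟨-, hz'⟩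
  have h2 : s i + z * w i = s j + z * w j := hz
  have h3 : s i + z' * w i = s j + z' * w j := hz'
  have h4 : (z - z') * (w i - w j) = 0 := by linear_combination h2 - h3
  rcases mul_eq_zero.1 h4 with h5 | h5
  · exact sub_eq_zero.1 h5
  · exfalso
    have h6 : s i = s j := by linear_combination h2 - z * h5
    exact hij (hs h6)

/-- Reindexing a specialisation. -/
theorem spc_comp {p k l : ℕ} {s s' : Fin p → ℂ} {y y' : Fin k → ℂ} (h : Spc s y s' y')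
    (j : Fin l → Fin k) : Spc s (fun i => y (j i)) s' (fun i => y' (j i)) := by
  intro f hf
  have h1 := h (MvPolynomial.rename (Sum.map id j) f)
  rw [MvPolynomial.aeval_rename, MvPolynomial.aeval_rename] at h1
  have e1 : (Sum.elim s y) ∘ (Sum.map id j) = Sum.elim s fun i => y (j i) := by
    funext x
    rcases x with x | x <;> rfl
  have e2 : (Sum.elim s' y') ∘ (Sum.map id j) = Sum.elim s' fun i => y' (j i) := by
    funext x
    rcases x with x | x <;> rfl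
  rw [e1, e2] at h1
  exact h1 hf

/-- Reindexing a continuation. -/
theorem ct_comp {p k l : ℕ} {s w : Fin p → ℂ} {γ : ℝ → ℂ} {y : ℝ → (Fin k → ℂ)}
    (h : IsCt s w γ y) (j : Fin l → Fin k) : IsCt s w γ fun t i => y t (j i) := by
  refine ⟨fun t ht => ?_⟩
  obtain ⟨ε, hε, δ, hδ, η, hη, hs, hl⟩ := h.loc t ht
  refine ⟨ε, hε, δ, hδ, fun z i => η z (j i), ?_, fun z hz => spc_comp (hs z hz) j, ?_⟩
  · rw [differentiableOn_pi] at hη ⊢
    intro i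
    exact hη (j i)
  · intro t' ht' htt
    refine ⟨(hl t' ht' htt).1, ?_⟩
    rw [(hl t' ht' htt).2]

theorem pth_mono {F F' : Set ℂ} (h : F ⊆ F') {γ : ℝ → ℂ} {z z' : ℂ} (hγ : IsPth F' γ z z') :
    IsPth F γ z z' :=
  ⟨hγ.cont, hγ.src, hγ.tgt, fun t ht hF => hγ.mem t ht (h hF)⟩

/-- Roots of unity are constant along a continuation. -/
theorem root_const {p k : ℕ} {s w : Fin p → ℂ} {γ : ℝ → ℂ} {y : ℝ → (Fin k → ℂ)}
    (h : IsCt s w γ y) (hγ : Continuous γ) (i : Fin k) (n : ℕ) (hn : 0 < n)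
    (hi : y 0 i ^ n = 1) : y 1 i = y 0 i := by
  classical
  have hval : ∀ t ∈ Set.Icc (0 : ℝ) 1, y t i ^ n = 1 := by
    intro t ht
    obtain ⟨ε, hε, δ, hδ, η, hη, hs, hloc⟩ := h.loc t ht
    obtain ⟨h1, h2⟩ := hloc t ht (by rw [sub_self, abs_zero]; exact hδ)
    have h3 := hs (γ t) h1 ((MvPolynomial.X (Sum.inr i)) ^ n - 1) (by
      rw [map_sub, map_pow, MvPolynomial.aeval_X, map_one]
      show y 0 i ^ n - 1 = 0
      rw [hi, sub_self])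
    rw [map_sub, map_pow, MvPolynomial.aeval_X, map_one] at h3
    rw [h2]
    exact sub_eq_zero.1 h3
  have hcont : ContinuousOn (fun t => y t i) (Set.Icc (0 : ℝ) 1) := by
    intro t ht
    obtain ⟨ε, hε, δ, hδ, η, hη, hs, hloc⟩ := h.loc t ht
    obtain ⟨h1, h2⟩ := hloc t ht (by rw [sub_self, abs_zero]; exact hδ)
    have h3 : ContinuousAt (fun z => η z i) (γ t) := by
      have h4 : DifferentiableOn ℂ (fun z => η z i) (ball (γ t) ε) :=
        (differentiableOn_pi.1 hη) i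
      exact h4.continuousOn.continuousAt (isOpen_ball.mem_nhds h1)
    have h5 : ContinuousAt (fun t' => η (γ t') i) t :=
      ContinuousAt.comp_of_eq h3 hγ.continuousAt rfl
    refine h5.continuousWithinAt.congr_of_eventuallyEq ?_ (by rw [h2])
    have h6 : ∀ᶠ t' in 𝓝[Set.Icc (0 : ℝ) 1] t, t' ∈ Set.Icc (0 : ℝ) 1 :=
      eventually_mem_nhdsWithin
    have h7 : ∀ᶠ t' in 𝓝[Set.Icc (0 : ℝ) 1] t, |t' - t| < δ := by
      apply eventually_nhdsWithin_of_eventually_nhds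
      filter_upwards [ball_mem_nhds t hδ] with t' ht'
      rwa [mem_ball, Real.dist_eq] at ht'
    filter_upwards [h6, h7] with t' h8 h9
    rw [(hloc t' h8 h9).2]
  have hfin : {ξ : ℂ | ξ ^ n = 1}.Finite := by
    have h2 : {ξ : ℂ | ξ ^ n = 1} ⊆ ((Polynomial.nthRoots n (1 : ℂ)).toFinset : Set ℂ) := by
      intro ξ hξ
      rw [Finset.mem_coe, Multiset.mem_toFinset, Polynomial.mem_nthRoots hn]
      exact hξ
    exact (Finset.finite_toSet _).subset h2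
  exact isPreconnected_Icc.constant_of_mapsTo hfin.isDiscrete hcont hval
    ⟨zero_le_one, le_rfl⟩ ⟨le_rfl, zero_le_one⟩

/-! ## Algebraic numbers -/

theorem fix_adjoin {p : ℕ} {s : Fin p → ℂ} {A : Set ℂ} {σ : ℂ ≃+* ℂ} (hσ : σ ∈ Fix s A) (x : ℂ)
    (hx : x ∈ IntermediateField.adjoin ℚ (Set.range s)) : σ x = x := by
  induction hx using IntermediateField.adjoin_induction with
  | mem x hx =>
    obtain ⟨i, rfl⟩ := hx
    exact hσ.1 i
  | algebraMap x =>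
    rw [eq_ratCast]
    exact map_ratCast σ x
  | add x y _ _ h1 h2 => rw [map_add, h1, h2]
  | inv x _ h1 => rw [map_inv₀, h1]
  | mul x y _ _ h1 h2 => rw [map_mul, h1, h2]

/-- The conjugates of algebraic numbers. -/
theorem conj_finite {p k : ℕ} (s : Fin p → ℂ) (y : Fin k → ℂ) (hy : ∀ i, AlgO s (y i)) :
    {z : Fin k → ℂ | ∃ σ ∈ Fix s ∅, ∀ i, z i = σ (y i)}.Finite := by
  have h1 : ∀ i, ∃ S : Set ℂ, S.Finite ∧ ∀ σ ∈ Fix s ∅, σ (y i) ∈ S := by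
    intro i
    obtain ⟨P, hP, hP0⟩ := hy i
    refine ⟨P.rootSet ℂ, P.rootSet_finite ℂ, fun σ hσ => ?_⟩
    let τ : ℂ →ₐ[IntermediateField.adjoin ℚ (Set.range s)] ℂ :=
      { (σ : ℂ →+* ℂ) with commutes' := fun x => fix_adjoin hσ x x.2 }
    rw [Polynomial.mem_rootSet]
    refine ⟨hP, ?_⟩
    have h2 : Polynomial.aeval (τ (y i)) P = τ (Polynomial.aeval (y i) P) :=
      Polynomial.aeval_algHom_apply τ (y i) P
    rw [hP0, map_zero] at h2
    exact h2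
  choose S hS hS' using h1
  refine (Set.Finite.pi' hS).subset ?_
  rintro z ⟨σ, hσ, hz⟩ i
  rw [hz i]
  exact hS' i σ hσ

/-! ## Divisors -/

theorem gr_zero {T : AV} (γ : Cur T) (σ : ℂ ≃+* ℂ) : GR γ σ 0 0 := by
  refine ⟨0, Fin.elim0, Fin.elim0, Fin.elim0, by simp, fun k => k.elim0, ?_, ?_⟩
  · show (0 : T.V) - ∑ k : Fin 0, _ ∈ T.L
    rw [Finset.univ_eq_empty, Finset.sum_empty, sub_zero]
    exact T.L.zero_mem
  · show (0 : T.V) - ∑ k : Fin 0, _ ∈ T.L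
    rw [Finset.univ_eq_empty, Finset.sum_empty, sub_zero]
    exact T.L.zero_mem

theorem gr_add {T : AV} {γ : Cur T} {σ : ℂ ≃+* ℂ} {u u' v v' : T.V} (h : GR γ σ u u')
    (h' : GR γ σ v v') : GR γ σ (u + v) (u' + v') := by
  obtain ⟨n, e, x, y, he, hp, h1, h2⟩ := h
  obtain ⟨n', e', x', y', he', hp', h1', h2'⟩ := h'
  refine ⟨n + n', Fin.append e e', Fin.append x x', Fin.append y y', ?_, ?_, ?_, ?_⟩
  · rw [Fin.sum_univ_add]
    simp only [Fin.append_left, Fin.append_right]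
    rw [he, he', add_zero]
  · intro k
    refine Fin.addCases (fun a => ?_) (fun a => ?_) k
    · rw [Fin.append_left, Fin.append_left]
      exact hp a
    · rw [Fin.append_right, Fin.append_right]
      exact hp' a
  · show u + v - ∑ k, _ ∈ T.L
    rw [Fin.sum_univ_add]
    simp only [Fin.append_left, Fin.append_right]
    have h3 := T.L.add_mem h1 h1'
    have e1 : u - ∑ k, e k • γ.α (x k) (y k) + (v - ∑ k, e' k • γ.α (x' k) (y' k)) =
        u + v - (∑ k, e k • γ.α (x k) (y k) + ∑ k, e' k • γ.α (x' k) (y' k)) := by abel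
    rw [e1] at h3
    exact h3
  · show u' + v' - ∑ k, _ ∈ T.L
    rw [Fin.sum_univ_add]
    simp only [Fin.append_left, Fin.append_right]
    have h3 := T.L.add_mem h2 h2'
    have e1 : u' - ∑ k, e k • γ.α (σ (x k)) (σ (y k)) +
        (v' - ∑ k, e' k • γ.α (σ (x' k)) (σ (y' k))) =
        u' + v' - (∑ k, e k • γ.α (σ (x k)) (σ (y k)) +
          ∑ k, e' k • γ.α (σ (x' k)) (σ (y' k))) := by abel
    rw [e1] at h3
    exact h3

theorem gr_neg {T : AV} {γ : Cur T} {σ : ℂ ≃+* ℂ} {u u' : T.V} (h : GR γ σ u u') :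
    GR γ σ (-u) (-u') := by
  obtain ⟨n, e, x, y, he, hp, h1, h2⟩ := h
  refine ⟨n, fun k => -e k, x, y, ?_, hp, ?_, ?_⟩
  · rw [Finset.sum_neg_distrib, he, neg_zero]
  · show -u - ∑ k, _ ∈ T.L
    have h3 := T.L.neg_mem h1
    have e1 : -(u - ∑ k, e k • γ.α (x k) (y k)) = -u - ∑ k, (-e k) • γ.α (x k) (y k) := by
      rw [neg_sub]
      simp only [neg_smul, Finset.sum_neg_distrib]
      abel
    rw [e1] at h3
    exact h3
  · show -u' - ∑ k, _ ∈ T.L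
    have h3 := T.L.neg_mem h2
    have e1 : -(u' - ∑ k, e k • γ.α (σ (x k)) (σ (y k))) =
        -u' - ∑ k, (-e k) • γ.α (σ (x k)) (σ (y k)) := by
      rw [neg_sub]
      simp only [neg_smul, Finset.sum_neg_distrib]
      abel
    rw [e1] at h3
    exact h3

theorem seg_pts {m r : ℕ} {b : Fin (r + 1) → ℕ} {t : Fin (r + 1) → ℂ} {P Q : ℂ × ℂ}
    {v : Ix m b → ℂ} (h : Seg m b t P Q v) : Q ∈ Pts m b t := by
  obtain ⟨y, -, h0, h1, hp, -⟩ := h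
  have h2 := hp 1 ⟨zero_le_one, le_rfl⟩
  rw [h1] at h2
  have e1 : P.1 + ((1 : ℝ) : ℂ) * (Q.1 - P.1) = Q.1 := by
    push_cast
    ring
  rw [e1] at h2
  exact h2

theorem itg_pts {m r : ℕ} {b : Fin (r + 1) → ℕ} {t : Fin (r + 1) → ℂ} {P Q : ℂ × ℂ}
    {v : Ix m b → ℂ} (h : Itg m b t P Q v) : P ∈ Pts m b t ∧ Q ∈ Pts m b t := by
  induction h with
  | refl hP => exact ⟨hP, hP⟩
  | step _ h' ih => exact ⟨ih.1, seg_pts h'⟩

/-- A vector and its transport as images of conjugate divisors. -/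
theorem gr_itg {T : AV} {m r : ℕ} {Z : T.V → T.V} {t : Fin (r + 1) → ℂ} {b : Fin (r + 1) → ℕ}
    {γ : Cur T} (hmp : IsMp T m Z t b γ) (κ : T.V ≃ₗ[ℂ] (Ix m b → ℂ))
    (hal : ∀ P Q v, Itg m b t P Q v → ∃ l, In T l ∧ κ (γ.α Q.1 Q.2 - γ.α P.1 P.2) - v = κ l)
    (σ : ℂ ≃+* ℂ) (N : ℕ) (Q' Q : Fin N → ℂ × ℂ) (u u' : Fin N → (Ix m b → ℂ)) (v v' : T.V)
    (h : ∀ a, Itg m b t (Q' a) (Q a) (u a))
    (h' : ∀ a, Itg m b t (σ (Q' a).1, σ (Q' a).2) (σ (Q a).1, σ (Q a).2) (u' a))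
    (hv : ∑ a, u a = κ v) (hv' : ∑ a, u' a = κ v') : GR γ σ v v' := by
  have hpt : ∀ P ∈ Pts m b t, P.1 ∉ γ.S ∧ γ.P (P.1, P.2) = 0 := by
    intro P hP
    refine ⟨by rw [hmp.S]; exact hP.1, ?_⟩
    rw [hmp.P, hP.2, sub_self]
  have key : ∀ (R' R : Fin N → ℂ × ℂ) (u : Fin N → (Ix m b → ℂ)) (v : T.V),
      (∀ a, Itg m b t (R' a) (R a) (u a)) → ∑ a, u a = κ v →
      v - (∑ a, (1 : ℤ) • γ.α (R a).1 (R a).2 + ∑ a, (-1 : ℤ) • γ.α (R' a).1 (R' a).2) ∈ T.L := by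
    intro R' R u v hI hs
    choose l hl hl' using fun a => hal (R' a) (R a) (u a) (hI a)
    have e1 : v - (∑ a, (1 : ℤ) • γ.α (R a).1 (R a).2 + ∑ a, (-1 : ℤ) • γ.α (R' a).1 (R' a).2) =
        -∑ a, l a := by
      apply κ.injective
      rw [map_neg, map_sub, ← hs, map_sum κ l]
      have e2 : ∀ a, κ (l a) = κ (γ.α (R a).1 (R a).2 - γ.α (R' a).1 (R' a).2) - u a :=
        fun a => (hl' a).symm
      rw [Finset.sum_congr rfl fun a _ => e2 a, Finset.sum_sub_distrib, ← map_sum]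
      have e3 : ∑ a, (1 : ℤ) • γ.α (R a).1 (R a).2 + ∑ a, (-1 : ℤ) • γ.α (R' a).1 (R' a).2 =
          ∑ a, (γ.α (R a).1 (R a).2 - γ.α (R' a).1 (R' a).2) := by
        rw [← Finset.sum_add_distrib]
        refine Finset.sum_congr rfl fun a _ => ?_
        rw [one_smul, neg_smul, one_smul, sub_eq_add_neg]
      rw [e3]
      abel
    rw [e1]
    exact T.L.neg_mem (T.L.sum_mem fun a _ => hl a)
  refine ⟨N + N, Fin.append (fun _ => 1) fun _ => -1,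
    Fin.append (fun a => (Q a).1) fun a => (Q' a).1,
    Fin.append (fun a => (Q a).2) fun a => (Q' a).2, ?_, ?_, ?_, ?_⟩
  · rw [Fin.sum_univ_add]
    simp only [Fin.append_left, Fin.append_right]
    rw [← Finset.sum_add_distrib]
    simp
  · intro k
    refine Fin.addCases (fun a => ?_) (fun a => ?_) k
    · rw [Fin.append_left, Fin.append_left]
      obtain ⟨h1, h2⟩ := hpt _ (itg_pts (h a)).2
      obtain ⟨h3, h4⟩ := hpt _ (itg_pts (h' a)).2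
      exact ⟨h1, h2, h3, h4⟩
    · rw [Fin.append_right, Fin.append_right]
      obtain ⟨h1, h2⟩ := hpt _ (itg_pts (h a)).1
      obtain ⟨h3, h4⟩ := hpt _ (itg_pts (h' a)).1
      exact ⟨h1, h2, h3, h4⟩
  · show v - ∑ k, _ ∈ T.L
    rw [Fin.sum_univ_add]
    simp only [Fin.append_left, Fin.append_right]
    exact key Q' Q u v h hv
  · show v' - ∑ k, _ ∈ T.L
    rw [Fin.sum_univ_add]
    simp only [Fin.append_left, Fin.append_right]
    exact key (fun a => (σ (Q' a).1, σ (Q' a).2)) (fun a => (σ (Q a).1, σ (Q a).2)) u' v' h' hv'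

/-- Generators of the lattice. -/
theorem gens (T : AV) : ∃ (K : ℕ) (g : Fin K → T.V), (∀ i, In T (g i)) ∧
    ∀ R : T.V → Prop, R 0 → (∀ u v, R u → R v → R (u + v)) → (∀ u, R u → R (-u)) →
      (∀ i, R (g i)) → ∀ v, In T v → R v := by
  have hfin : Module.Finite ℤ T.L := ZLattice.module_finite ℝ T.L
  have hfg : T.L.FG := Module.Finite.iff_fg.1 hfin
  obtain ⟨S, hS⟩ := hfg
  obtain ⟨K, g, hg⟩ := (Finset.finite_toSet S).fin_embedding
  refine ⟨K, g, ?_, ?_⟩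
  · intro i
    show g i ∈ T.L
    rw [← hS]
    apply Submodule.subset_span
    rw [← hg]
    exact ⟨i, rfl⟩
  · intro R h0 ha hn hgR v hv
    have hv' : v ∈ T.L := hv
    rw [← hS, ← hg] at hv'
    let A : AddSubgroup T.V :=
      { carrier := {v | R v}
        add_mem' := fun {a b} h1 h2 => ha a b h1 h2
        zero_mem' := h0
        neg_mem' := fun {a} h1 => hn a h1 }
    have h1 : Submodule.span ℤ (Set.range g) ≤ AddSubgroup.toIntSubmodule A := by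
      rw [Submodule.span_le]
      rintro _ ⟨i, rfl⟩
      exact hgR i
    exact h1 hv'

/-! ## The data -/

theorem dt_countable (p N : ℕ) : Countable (Dt p N) := by
  let f : Dt p N → (Fin N → ℕ) × (Σ r : Fin N → ℕ, (∀ n, Fin (r n + 1) → Fin p) ×
      (∀ n, Fin (r n + 1) → ℕ)) × (Fin N → Option (Fin p)) :=
    fun D => (D.m, ⟨D.r, (D.i, D.b)⟩, D.k)
  have hf : Function.Injective f := by
    rintro ⟨m, r, i, k, b⟩ ⟨m', r', i', k', b'⟩ h
    simp only [f, Prod.mk.injEq, Sigma.mk.injEq] at h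
    obtain ⟨rfl, ⟨rfl, h1⟩, rfl⟩ := h
    rw [heq_iff_eq, Prod.mk.injEq] at h1
    obtain ⟨rfl, rfl⟩ := h1
    rfl
  exact hf.countable

theorem pt_inj {p r : ℕ} (s : Fin p → ℂ) (hs : Function.Injective s) (i : Fin (r + 1) → Fin p)
    (hi : Function.Injective i) (k : Option (Fin p)) (hk : ∀ l, k = some l → ∀ j, i j < l) :
    Function.Injective (pt s i k) := by
  intro a b hab
  rcases k with _ | l
  · exact hi (hs hab)
  · have h1 : ∀ j, s (i j) - s l ≠ 0 := by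
      intro j hj
      have h2 := hk l rfl j
      rw [hs (sub_eq_zero.1 hj)] at h2
      exact lt_irrefl _ h2
    have h3 : (s (i a) - s l)⁻¹ = (s (i b) - s l)⁻¹ := hab
    have h4 := inv_injective h3
    exact hi (hs (sub_left_injective h4))

theorem pt_mem {p r : ℕ} (s : Fin p → ℂ) (i : Fin (r + 1) → Fin p) (k : Option (Fin p))
    (j : Fin (r + 1)) : pt s i k j ∈ IntermediateField.adjoin ℚ (Set.range s) := by
  have h : ∀ a, s a ∈ IntermediateField.adjoin ℚ (Set.range s) := fun a =>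
    IntermediateField.subset_adjoin ℚ _ ⟨a, rfl⟩
  rcases k with _ | l
  · exact h (i j)
  · exact inv_mem (sub_mem (h (i j)) (h l))

/-- `κ v` is a sum of integrals between points with coordinates in `S`. -/
def CL {m r : ℕ} (b : Fin (r + 1) → ℕ) (t : Fin (r + 1) → ℂ) (S : Set ℂ)
    (x : Ix m b → ℂ) : Prop :=
  ∃ (N : ℕ) (Q' Q : Fin N → ℂ × ℂ) (u : Fin N → (Ix m b → ℂ)),
    (∀ a, ((Q' a).1 ∈ S ∧ (Q' a).2 ∈ S) ∧ (Q a).1 ∈ S ∧ (Q a).2 ∈ S) ∧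
    (∀ a, Itg m b t (Q' a) (Q a) (u a)) ∧ ∑ a, u a = x

theorem cl_mono {m r : ℕ} {b : Fin (r + 1) → ℕ} {t : Fin (r + 1) → ℂ} {S S' : Set ℂ}
    (h : S ⊆ S') {x : Ix m b → ℂ} (hx : CL b t S x) : CL b t S' x := by
  obtain ⟨N, Q', Q, u, h1, h2, h3⟩ := hx
  exact ⟨N, Q', Q, u, fun a => ⟨⟨h (h1 a).1.1, h (h1 a).1.2⟩, h (h1 a).2.1, h (h1 a).2.2⟩,
    h2, h3⟩

section pk

variable {p N : ℕ} {s : Fin p → ℂ} {J : Fin N → AV} {γ : ∀ n, Cur (J n)}

/-- Torsion points, from `StmtTO`. -/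
theorem cl_ex (hTO : StmtTO) (hs : Function.Injective s) (P : Pk s γ) (n : Fin N)
    (v : (J n).V) (hv : Rt (J n) v) : ∃ S : Set ℂ, S.Finite ∧ (∀ a ∈ S, AlgO s a) ∧
      CL (P.D.b n) (P.D.t s n) S (P.κ n v) := by
  obtain ⟨M, Q', Q, w, h1, h2, h3⟩ := hTO (J n) (P.D.m n) (P.D.r n) (P.Z n) (P.D.t s n)
    (P.D.b n) (γ n) (P.ok.cv n) (pt_inj s hs _ (P.ok.inj n) _ (P.ok.lt n)) (P.cy n) (P.dim n)
    (P.mp n) (P.κ n) (P.om n) (P.rt n) (P.al n) p s P.A P.fin P.alg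
    (fun j => pt_mem s _ _ j) (P.mod n) v hv
  refine ⟨⋃ a, {(Q' a).1, (Q' a).2, (Q a).1, (Q a).2}, ?_, ?_, M, Q', Q, w, ?_, h2, h3⟩
  · exact Set.finite_iUnion fun a => by simp
  · intro x hx
    obtain ⟨a, ha⟩ := Set.mem_iUnion.1 hx
    obtain ⟨g1, g2, g3, g4⟩ := h1 a
    rcases ha with rfl | rfl | rfl | rfl
    · exact g1
    · exact g2
    · exact g3
    · exact g4
  · intro a
    have hsub : ({(Q' a).1, (Q' a).2, (Q a).1, (Q a).2} : Set ℂ) ⊆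
        ⋃ a, {(Q' a).1, (Q' a).2, (Q a).1, (Q a).2} := Set.subset_iUnion
          (fun a => ({(Q' a).1, (Q' a).2, (Q a).1, (Q a).2} : Set ℂ)) a
    exact ⟨⟨hsub (by simp), hsub (by simp)⟩, hsub (by simp), hsub (by simp)⟩

theorem rt_of_in {T : AV} {v : T.V} (h : In T v) : Rt T v :=
  ⟨1, one_ne_zero, by rw [one_smul]; exact h⟩

theorem rt_div {T : AV} {v : T.V} (h : In T v) (ℓ k : ℕ) (hℓ : ℓ ≠ 0) :
    Rt T (HC.CC.mu ((ℓ : ℂ) ^ k)⁻¹ v) := by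
  refine ⟨ℓ ^ k, pow_ne_zero _ hℓ, ?_⟩
  have h1 : (ℓ ^ k) • (HC.CC.mu ((ℓ : ℂ) ^ k)⁻¹ v) = v := by
    unfold HC.CC.mu
    rw [← Nat.cast_smul_eq_nsmul ℂ, smul_smul]
    have h2 : ((ℓ : ℂ) ^ k) ≠ 0 := pow_ne_zero _ (Nat.cast_ne_zero.2 hℓ)
    push_cast
    rw [mul_inv_cancel₀ h2, one_smul]
  rw [h1]
  exact h

/-- The finite set of coordinates at the level `k`. -/
theorem lev (hTO : StmtTO) (hs : Function.Injective s) (P : Pk s γ) (ℓ k : ℕ) (hℓ : ℓ ≠ 0)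
    (K : Fin N → ℕ) (g : ∀ n, Fin (K n) → (J n).V) (hg : ∀ n i, In (J n) (g n i)) :
    ∃ S : Set ℂ, S.Finite ∧ (∀ a ∈ S, AlgO s a) ∧ ∀ n i,
      CL (P.D.b n) (P.D.t s n) S (P.κ n (g n i)) ∧
      CL (P.D.b n) (P.D.t s n) S (P.κ n (HC.CC.mu ((ℓ : ℂ) ^ k)⁻¹ (g n i))) := by
  choose S₁ f1 a1 c1 using fun (x : Σ n, Fin (K n)) =>
    cl_ex hTO hs P x.1 (g x.1 x.2) (rt_of_in (hg x.1 x.2))
  choose S₂ f2 a2 c2 using fun (x : Σ n, Fin (K n)) =>
    cl_ex hTO hs P x.1 (HC.CC.mu ((ℓ : ℂ) ^ k)⁻¹ (g x.1 x.2)) (rt_div (hg x.1 x.2) ℓ k hℓ)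
  refine ⟨(⋃ x, S₁ x) ∪ ⋃ x, S₂ x, (Set.finite_iUnion f1).union (Set.finite_iUnion f2), ?_, ?_⟩
  · rintro a (ha | ha)
    · obtain ⟨x, hx⟩ := Set.mem_iUnion.1 ha
      exact a1 x a hx
    · obtain ⟨x, hx⟩ := Set.mem_iUnion.1 ha
      exact a2 x a hx
  · intro n i
    exact ⟨cl_mono ((Set.subset_iUnion S₁ ⟨n, i⟩).trans Set.subset_union_left) (c1 ⟨n, i⟩),
      cl_mono ((Set.subset_iUnion S₂ ⟨n, i⟩).trans Set.subset_union_right) (c2 ⟨n, i⟩)⟩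

/-- The vector `x` in the component `n`. -/
theorem single_mem (P : Pk s γ) (n : Fin N) (v : (J n).V) (hv : Rt (J n) v) :
    (Pi.single n (P.κ n v) : P.D.V) ∈ P.D.L s := by
  intro n'
  by_cases h : n' = n
  · subst h
    rw [Pi.single_eq_same, ← P.rt n']
    exact ⟨v, hv, rfl⟩
  · rw [Pi.single_eq_of_ne h, ← P.rt n']
    exact ⟨0, ⟨1, one_ne_zero, by rw [smul_zero]; exact (J n').L.zero_mem⟩, map_zero _⟩

/-- The action on one vector at the level `k`. -/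
theorem act (P : Pk s γ) (K : ℕ) (y : Fin K → ℂ)
    (φ : ℝ → (P.D.V ≃ₗ[ℝ] P.D.V)) (σ : ℂ ≃+* ℂ)
    (hMG : ∀ (n : Fin N) (k : ℕ) (Q' Q : Fin k → Fin K × Fin K)
        (u : Fin k → (Ix (P.D.m n) (P.D.b n) → ℂ)) (v : P.D.V),
        (∀ a, Itg (P.D.m n) (P.D.b n) (P.D.t s n) (y (Q' a).1, y (Q' a).2)
          (y (Q a).1, y (Q a).2) (u a)) → v ∈ P.D.L s → ∑ a, u a = v n →
        ∃ u' : Fin k → (Ix (P.D.m n) (P.D.b n) → ℂ),
          (∀ a, Itg (P.D.m n) (P.D.b n) (P.D.t s n) (σ (y (Q' a).1), σ (y (Q' a).2))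
            (σ (y (Q a).1), σ (y (Q a).2)) (u' a)) ∧ ∑ a, u' a = φ 1 v n)
    (η : ∀ n, (Ix (P.D.m n) (P.D.b n) → ℂ) ≃ₗ[ℝ] (Ix (P.D.m n) (P.D.b n) → ℂ))
    (hη : ∀ v n, φ 1 v n = η n (v n)) (n : Fin N) (v : (J n).V) (hv : Rt (J n) v)
    (hc : CL (P.D.b n) (P.D.t s n) (Set.range y) (P.κ n v)) :
    GR (γ n) σ v ((P.κ n).symm (η n (P.κ n v))) := by
  obtain ⟨k, Q', Q, u, h1, h2, h3⟩ := hc
  choose a1 ha1 using fun a => (h1 a).1.1
  choose a2 ha2 using fun a => (h1 a).1.2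
  choose a3 ha3 using fun a => (h1 a).2.1
  choose a4 ha4 using fun a => (h1 a).2.2
  have e' : ∀ a, Q' a = (y (a1 a), y (a2 a)) := fun a => Prod.ext (ha1 a).symm (ha2 a).symm
  have e : ∀ a, Q a = (y (a3 a), y (a4 a)) := fun a => Prod.ext (ha3 a).symm (ha4 a).symm
  obtain ⟨u', h4, h5⟩ := hMG n k (fun a => (a1 a, a2 a)) (fun a => (a3 a, a4 a)) u
    (Pi.single n (P.κ n v)) (fun a => by
      have h6 := h2 a
      rw [e' a, e a] at h6
      exact h6) (single_mem P n v hv) (by rw [h3, Pi.single_eq_same])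
  refine gr_itg (P.mp n) (P.κ n) (P.al n) σ k Q' Q u u' v _ h2 (fun a => ?_) h3 ?_
  · rw [e' a, e a]
    exact h4 a
  · rw [h5, hη, Pi.single_eq_same, LinearEquiv.apply_symm_apply]

/-- The level `k`. -/
theorem level (P : Pk s γ) (K : ℕ) (y : Fin K → ℂ)
    (φ : ℝ → (P.D.V ≃ₗ[ℝ] P.D.V)) (σ : ℂ ≃+* ℂ) (hσ : σ ∈ Fix s P.A)
    (hMG : ∀ (n : Fin N) (k : ℕ) (Q' Q : Fin k → Fin K × Fin K)
        (u : Fin k → (Ix (P.D.m n) (P.D.b n) → ℂ)) (v : P.D.V),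
        (∀ a, Itg (P.D.m n) (P.D.b n) (P.D.t s n) (y (Q' a).1, y (Q' a).2)
          (y (Q a).1, y (Q a).2) (u a)) → v ∈ P.D.L s → ∑ a, u a = v n →
        ∃ u' : Fin k → (Ix (P.D.m n) (P.D.b n) → ℂ),
          (∀ a, Itg (P.D.m n) (P.D.b n) (P.D.t s n) (σ (y (Q' a).1), σ (y (Q' a).2))
            (σ (y (Q a).1), σ (y (Q a).2)) (u' a)) ∧ ∑ a, u' a = φ 1 v n)
    (η : ∀ n, (Ix (P.D.m n) (P.D.b n) → ℂ) ≃ₗ[ℝ] (Ix (P.D.m n) (P.D.b n) → ℂ))
    (hη : ∀ v n, φ 1 v n = η n (v n)) (ℓ k : ℕ) (hℓ : ℓ ≠ 0) (n : Fin N)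
    (L : ℕ) (g : Fin L → (J n).V) (hg : ∀ i, In (J n) (g i))
    (hgen : ∀ R : (J n).V → Prop, R 0 → (∀ u v, R u → R v → R (u + v)) → (∀ u, R u → R (-u)) →
      (∀ i, R (g i)) → ∀ v, In (J n) v → R v)
    (hc : ∀ i, CL (P.D.b n) (P.D.t s n) (Set.range y) (P.κ n (g i)) ∧
      CL (P.D.b n) (P.D.t s n) (Set.range y) (P.κ n (HC.CC.mu ((ℓ : ℂ) ^ k)⁻¹ (g i))))
    (v : (J n).V) (hv : In (J n) v) :
    In (J n) ((P.κ n).symm (η n (P.κ n v))) ∧
      GR (γ n) σ (HC.CC.mu ((ℓ : ℂ) ^ k)⁻¹ v)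
        (HC.CC.mu ((ℓ : ℂ) ^ k)⁻¹ ((P.κ n).symm (η n (P.κ n v)))) := by
  have hdiv : ∀ x : (J n).V, (P.κ n).symm (η n (P.κ n (HC.CC.mu ((ℓ : ℂ) ^ k)⁻¹ x))) =
      HC.CC.mu ((ℓ : ℂ) ^ k)⁻¹ ((P.κ n).symm (η n (P.κ n x))) := by
    intro x
    have e0 : ((ℓ : ℂ) ^ k)⁻¹ = (((((ℓ : ℝ) ^ k)⁻¹ : ℝ)) : ℂ) := by push_cast; rfl
    unfold HC.CC.mu
    rw [map_smul, e0, Complex.coe_smul, map_smul, ← Complex.coe_smul, map_smul]
  have h1 : ∀ v, In (J n) v → GR (γ n) σ v ((P.κ n).symm (η n (P.κ n v))) := by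
    apply hgen
    · rw [map_zero, map_zero, map_zero]
      exact gr_zero _ _
    · intro u v hu hv
      rw [map_add, map_add, map_add]
      exact gr_add hu hv
    · intro u hu
      rw [map_neg, map_neg, map_neg]
      exact gr_neg hu
    · intro i
      exact act P K y φ σ hMG η hη n (g i) (rt_of_in (hg i)) (hc i).1
  refine ⟨P.mod n σ hσ v _ (h1 v hv) hv, ?_⟩
  have h2 : ∀ v, In (J n) v → GR (γ n) σ (HC.CC.mu ((ℓ : ℂ) ^ k)⁻¹ v)
      ((P.κ n).symm (η n (P.κ n (HC.CC.mu ((ℓ : ℂ) ^ k)⁻¹ v)))) := by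
    apply hgen
    · have e0 : (HC.CC.mu ((ℓ : ℂ) ^ k)⁻¹ (0 : (J n).V)) = 0 := smul_zero _
      rw [e0, map_zero, map_zero, map_zero]
      exact gr_zero _ _
    · intro u v hu hv
      have e0 : (HC.CC.mu ((ℓ : ℂ) ^ k)⁻¹ (u + v : (J n).V)) =
        HC.CC.mu ((ℓ : ℂ) ^ k)⁻¹ u + HC.CC.mu ((ℓ : ℂ) ^ k)⁻¹ v := smul_add _ _ _
      rw [e0, map_add, map_add, map_add]
      exact gr_add hu hv
    · intro u hu
      have e0 : (HC.CC.mu ((ℓ : ℂ) ^ k)⁻¹ (-u : (J n).V)) =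
        -HC.CC.mu ((ℓ : ℂ) ^ k)⁻¹ u := smul_neg _ _
      rw [e0, map_neg, map_neg, map_neg]
      exact gr_neg hu
    · intro i
      exact act P K y φ σ hMG η hη n _ (rt_div (hg i) ℓ k hℓ) (hc i).2
  have h3 := h2 v hv
  rw [hdiv v] at h3
  exact h3

end pk

end Mg_aux

open Mg_aux in
/-- **Mg**. -/
theorem tMg : StmtMG → StmtTO → StmtGA5 → StmtPA1 → S_Cmp → S_Mg := by
  intro hMG hTO hGA5 hPA1 _ Φ
  classical
  choose X hX hXs using fun (p N : ℕ) (D : Dt p N) (h : D.ok) => hMG Φ p N D h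
  refine ⟨fun p => ⋃ (N : ℕ), ⋃ (D : Dt p N), ⋃ (h : D.ok), X p N D h, fun p => ?_, ?_⟩
  · refine isMeagre_iUnion fun N => ?_
    have := dt_countable p N
    exact isMeagre_iUnion fun D => isMeagre_iUnion fun h => hX p N D h
  intro p s hs
  have hnot : ∀ N (D : Dt p N) (h : D.ok), s ∉ X p N D h := fun N D h hx =>
    hs (Set.mem_iUnion.2 ⟨N, Set.mem_iUnion.2 ⟨D, Set.mem_iUnion.2 ⟨h, hx⟩⟩⟩)
  let D0 : Dt p 0 := ⟨Fin.elim0, Fin.elim0, fun n => n.elim0, Fin.elim0, fun n => n.elim0⟩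
  have ok0 : D0.ok := ⟨fun n => n.elim0, fun n => n.elim0, fun n => n.elim0, fun n => n.elim0,
    fun n => n.elim0⟩
  obtain ⟨hinj, halg, -⟩ := hXs p 0 D0 ok0 s (hnot 0 D0 ok0)
  refine ⟨hinj, ?_⟩
  intro N J γ P ℓ hℓ B hBf hBa w M hM
  have hℓ0 : ℓ ≠ 0 := hℓ.out.ne_zero
  obtain ⟨-, -, hMGs⟩ := hXs p N P.D P.ok s (hnot N P.D P.ok)
  obtain ⟨KA, yA, hyA⟩ := (hBf.union P.fin).fin_embedding
  have hyalg : ∀ i, AlgO s (yA i) := by
    intro i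
    have h1 : yA i ∈ B ∪ P.A := by
      rw [← hyA]
      exact ⟨i, rfl⟩
    rcases h1 with h1 | h1
    · exact hBa _ h1
    · exact P.alg _ h1
  obtain ⟨D5, hD5c, hD50, e, he1, he2⟩ := hGA5 p KA s halg yA hyalg w
  obtain ⟨DA, hDAc, hDA0, hDA⟩ := hMGs KA yA hyalg w M hM
  choose Kg g hg hgen using fun n => gens (J n)
  choose Sk hSf hSa hSc using fun k => lev hTO hinj P ℓ k hℓ0 Kg g hg
  have hpow : ∀ k, ℓ ^ k ≠ 0 := fun k => pow_ne_zero _ hℓ0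
  have hζ : ∀ k, ∃ ζ : ℂ, IsPrimitiveRoot ζ (ℓ ^ k) := fun k =>
    ⟨_, Complex.isPrimitiveRoot_exp (ℓ ^ k) (hpow k)⟩
  choose ζ hζ using hζ
  have hζa : ∀ k, AlgO s (ζ k) := by
    intro k
    refine ⟨Polynomial.X ^ (ℓ ^ k) - Polynomial.C 1,
      Polynomial.X_pow_sub_C_ne_zero (Nat.pos_of_ne_zero (hpow k)) 1, ?_⟩
    rw [map_sub, map_pow, Polynomial.aeval_X, Polynomial.aeval_C, (hζ k).pow_eq_one, map_one,
      sub_self]
  have hTf : ∀ k, (B ∪ P.A ∪ {ζ k} ∪ Sk k).Finite := fun k =>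
    ((hBf.union P.fin).union (Set.finite_singleton _)).union (hSf k)
  choose Kk yk hyk using fun k => (hTf k).fin_embedding
  have hykalg : ∀ k i, AlgO s (yk k i) := by
    intro k i
    have h1 : yk k i ∈ B ∪ P.A ∪ {ζ k} ∪ Sk k := by
      rw [← hyk k]
      exact ⟨i, rfl⟩
    rcases h1 with ((h1 | h1) | h1) | h1
    · exact hBa _ h1
    · exact P.alg _ h1
    · rw [h1]
      exact hζa k
    · exact hSa k _ h1
  choose Dk hDkc hDk0 hDk using fun k => hMGs (Kk k) (yk k) (hykalg k) w M hM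
  have hBd : (Bd s w).Finite := bd_finite s w hinj
  set D₀ : Set ℂ := (D5 ∪ DA) ∪ ⋃ k, Dk k with hD₀
  have h5 : D5 ⊆ D₀ := fun x hx => Or.inl (Or.inl hx)
  have hA : DA ⊆ D₀ := fun x hx => Or.inl (Or.inr hx)
  have hk : ∀ k, Dk k ⊆ D₀ := fun k x hx => Or.inr (Set.mem_iUnion.2 ⟨k, hx⟩)
  have htr : ∀ δ, IsPth (Bd s w ∪ D₀) δ 0 0 → ∃ φ, IsTr M δ φ := fun δ hδ =>
    (hPA1 P.D.V (Bd s w) hBd M δ 0 0 (pth_mono Set.subset_union_left hδ)).1
  have hex : ∀ δ, IsPth (Bd s w ∪ D₀) δ 0 0 → ∃ y' : ℝ → (Fin KA → ℂ), y' 0 = yA ∧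
      IsCt s w δ y' ∧ ∃ σ ∈ Fix s ∅, ∀ i, y' 1 i = σ (yA i) := by
    intro δ hδ
    obtain ⟨φ, hφ⟩ := htr δ hδ
    obtain ⟨y', σ, h1, h2, h3, h4, -⟩ :=
      hDA δ (pth_mono (Set.union_subset_union_right _ hA) hδ) φ hφ
    exact ⟨y', h1, h2, σ, h3, h4⟩
  have hm5 : ∀ δ, IsPth (Bd s w ∪ D₀) δ 0 0 → IsPth D5 δ 0 0 := fun δ hδ =>
    pth_mono (h5.trans Set.subset_union_right) hδ
  refine ⟨D₀, KA, yA, e, ?_, ?_, ?_, ?_, ?_⟩
  · exact (hD5c.union hDAc).union (Set.countable_iUnion hDkc)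
  · rintro ((h | h) | h)
    · exact hD50 h
    · exact hDA0 h
    · obtain ⟨k, hk'⟩ := Set.mem_iUnion.1 h
      exact hDk0 k hk'
  · intro δ hδ heδ φ hφ η hη k
    obtain ⟨y', σ, b1, b2, b3, b4, b5⟩ :=
      hDk k δ (pth_mono (Set.union_subset_union_right _ (hk k)) hδ) φ hφ
    have hmem : ∀ a ∈ B ∪ P.A ∪ {ζ k} ∪ Sk k, ∃ i, yk k i = a := by
      intro a ha
      rw [← hyk k] at ha
      exact ha
    choose j hj using fun i : Fin KA => hmem (yA i) (by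
      left; left
      rw [← hyA]
      exact ⟨i, rfl⟩)
    have hc := ct_comp b2 j
    have hend := he1 δ (hm5 δ hδ) (fun t i => y' t (j i)) hc (by
      funext i
      show y' 0 (j i) = yA i
      rw [b1, hj])
    rw [heδ] at hend
    have hfix : ∀ a ∈ B ∪ P.A, σ a = a := by
      intro a ha
      rw [← hyA] at ha
      obtain ⟨i, rfl⟩ := ha
      have h1 := congrFun hend i
      have h2 : y' 1 (j i) = yA i := h1
      rw [b4, hj] at h2
      exact h2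
    refine ⟨σ, ⟨b3.1, hfix⟩, ?_, ?_⟩
    · obtain ⟨z, hz⟩ := hmem (ζ k) (by left; right; rfl)
      have h1 := root_const b2 hδ.cont z (ℓ ^ k) (Nat.pos_of_ne_zero (hpow k)) (by
        rw [b1, hz, (hζ k).pow_eq_one])
      rw [b4, b1, hz] at h1
      intro ξ hξ
      have : NeZero (ℓ ^ k) := ⟨hpow k⟩
      obtain ⟨i, -, hi⟩ := (hζ k).eq_pow_of_pow_eq_one hξ
      rw [← hi, map_pow, h1]
    · intro n v hv
      have hsub : Sk k ⊆ Set.range (yk k) := by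
        rw [hyk k]
        exact Set.subset_union_right
      exact level P (Kk k) (yk k) φ σ ⟨b3.1, fun a ha => hfix a (Or.inr ha)⟩ b5 η hη ℓ k hℓ0 n
        (Kg n) (g n) (hg n) (hgen n)
        (fun i => ⟨cl_mono hsub (hSc k n i).1, cl_mono hsub (hSc k n i).2⟩) v hv
  · intro δ δ' hδ hδ' hee
    exact he2 δ δ' (hm5 δ hδ) (hm5 δ' hδ') hee
  · refine (conj_finite s yA hyalg).subset ?_
    rintro _ ⟨δ, hδ, rfl⟩
    obtain ⟨y₁, a1, a2, σ, hσ, hσ'⟩ := hex δ hδ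
    refine ⟨σ, hσ, fun i => ?_⟩
    rw [← he1 δ (hm5 δ hδ) y₁ a2 a1]
    exact hσ' i

end TATE
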