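import Pool.Agent.Lib.TATE.Asm.Spec
import Pool.Agent.Lib.TATE.NI.All
import Pool.Agent.Lib.HC.L.E.IsoInv

/-!
# PROJECT TATE: assembly, module Ni: no isogenies between the new parts at two very general points
-/

set_option autoImplicit false

open Topology Metric

noncomputable section

namespace TATE

open HC HC.CC SEJ SEB SEQ

namespace Ni_aux

theorem coc (h : S_Coc) : NI.Coc := by
  intro m r b Φ hb t ht t₁ ht₁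
  have h₁ : Function.Injective t₁ := Φ.dom t ht t₁ ht₁
  have hd : 0 < Φ.ρ t - dist t₁ t := sub_pos.2 (Metric.mem_ball.1 ht₁)
  refine ⟨min (Φ.ρ t - dist t₁ t) (Φ.ρ t₁), lt_min hd (Φ.rpos t₁ h₁), fun t₂ h2 => ?_⟩
  have h3 : dist t₂ t₁ < Φ.ρ t - dist t₁ t := lt_of_lt_of_le (Metric.mem_ball.1 h2) (min_le_left _ _)
  have h4 : t₂ ∈ ball t₁ (Φ.ρ t₁) := ball_subset_ball (min_le_right _ _) h2
  have h5 : t₂ ∈ ball t (Φ.ρ t) := by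
    rw [Metric.mem_ball]
    have := dist_triangle t₂ t₁ t
    linarith
  exact ⟨h5, h4, fun v => (h m r b Φ t t₁ t₂ ht ht₁ h5 h4 v).symm⟩

theorem mp {T : AV} {m r : ℕ} {Z : T.V → T.V} {t : Fin (r + 1) → ℂ} {b : Fin (r + 1) → ℕ}
    (h : IsNew T m Z t b) : ∃ γ : Cur T, IsMp T m Z t b γ := by
  obtain ⟨γ, h1, h2, h3, h4⟩ := h.map
  exact ⟨γ, h1, h2, h3, h4⟩

theorem rt_iso {T T' : AV} (ψ : T.V ≃ₗ[ℂ] T'.V)
    (h : ∀ v ∈ T.L, ∃ N : ℕ, N ≠ 0 ∧ N • ψ v ∈ T'.L) (v : T.V) (hv : Rt T v) : Rt T' (ψ v) := by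
  obtain ⟨k, hk, hv⟩ := hv
  obtain ⟨N, hN, h1⟩ := h _ hv
  refine ⟨N * k, mul_ne_zero hN hk, ?_⟩
  rwa [mul_smul, ← map_nsmul]

theorem rt_img {T T' : AV} (h : Isg T T') : ∃ ψ : T.V ≃ₗ[ℂ] T'.V,
    ψ '' {v | Rt T v} = {v | Rt T' v} := by
  obtain ⟨ψ, hψ⟩ := h
  refine ⟨ψ, Set.Subset.antisymm ?_ ?_⟩
  · rintro _ ⟨v, hv, rfl⟩
    exact rt_iso ψ hψ v hv
  · intro v hv
    have h1 := HC.E.tIsoInv T T' ψ hψ
    exact ⟨ψ.symm v, rt_iso ψ.symm h1 v hv, ψ.apply_symm_apply v⟩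

/-- The data of a factor. -/
abbrev Da (p : ℕ) : Type :=
  ℕ × (Σ r : ℕ, (Fin (r + 1) → ℕ) × (Fin (r + 1) → Fin p) × Option (Fin p))

/-- The set of the bad pairs for given data. -/
def Bp {p : ℕ} (a a' : Da p) : Set ((Fin p → ℂ) × (Fin p → ℂ)) :=
  {x | (Cvb a.1 a.2.2.1 ∧ Cvb a'.1 a'.2.2.1 ∧ NI.Ncs a.1 a.2.2.1 ∧ NI.Ok a.2.2.2.1 a.2.2.2.2 ∧
      NI.Ok a'.2.2.2.1 a'.2.2.2.2) ∧ Function.Injective x.1 ∧ Function.Injective x.2 ∧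
    ∃ φ : (Ix a.1 a.2.2.1 → ℂ) ≃ₗ[ℂ] (Ix a'.1 a'.2.2.1 → ℂ),
      φ '' LQ a.1 a.2.2.1 (pt x.1 a.2.2.2.1 a.2.2.2.2) =
        LQ a'.1 a'.2.2.1 (pt x.2 a'.2.2.2.1 a'.2.2.2.2)}

theorem bp_meagre (h1 : StmtFA1) (h5 : StmtFA5) (hC : S_Coc) {p : ℕ} (a a' : Da p) :
    IsMeagre (Bp a a') := by
  by_cases h : Cvb a.1 a.2.2.1 ∧ Cvb a'.1 a'.2.2.1 ∧ NI.Ncs a.1 a.2.2.1 ∧
      NI.Ok a.2.2.2.1 a.2.2.2.2 ∧ NI.Ok a'.2.2.2.1 a'.2.2.2.2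
  · refine (NI.ni h1 h5 (coc hC) a.1 a.2.1 a'.1 a'.2.1 a.2.2.1 a'.2.2.1 h.1 h.2.1 h.2.2.1 p
      a.2.2.2.1 a.2.2.2.2 a'.2.2.2.1 a'.2.2.2.2 h.2.2.2.1 h.2.2.2.2).mono ?_
    exact fun x hx => hx.2
  · have : Bp a a' = ∅ := by
      rw [Set.eq_empty_iff_forall_notMem]
      exact fun x hx => h hx.1
    rw [this]
    exact IsMeagre.empty

theorem ninj (p : ℕ) : IsMeagre {x : (Fin p → ℂ) × (Fin p → ℂ) |
    ¬ (Function.Injective x.1 ∧ Function.Injective x.2)} := by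
  have h1 : IsMeagre {x : (Fin p → ℂ) × (Fin p → ℂ) | ¬ Function.Injective x.1} :=
    (SEZ.tzP.2.2 p).preimage_of_isOpenMap continuous_fst isOpenMap_fst
  have h2 : IsMeagre {x : (Fin p → ℂ) × (Fin p → ℂ) | ¬ Function.Injective x.2} :=
    (SEZ.tzP.2.2 p).preimage_of_isOpenMap continuous_snd isOpenMap_snd
  refine (SEB.isMeagre_union h1 h2).mono ?_
  intro x hx
  by_cases h : Function.Injective x.1
  · exact Or.inr fun h' => hx ⟨h, h'⟩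
  · exact Or.inl h

end Ni_aux

open Ni_aux in
theorem tNi : StmtFA1 → StmtFA3 → StmtFA5 → S_Coc → S_Ni := by
  intro h1 h3 h5 hC p
  refine ⟨(⋃ a : Da p, ⋃ a' : Da p, Bp a a') ∪ {x : (Fin p → ℂ) × (Fin p → ℂ) |
    ¬ (Function.Injective x.1 ∧ Function.Injective x.2)}, SEB.isMeagre_union
    (isMeagre_iUnion fun a => isMeagre_iUnion fun a' => bp_meagre h1 h5 hC a a') (ninj p), ?_⟩
  intro x hx N N' D D' hD hD' n n' R R' Z Z' hR hR' hI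
  have hinj : Function.Injective x.1 ∧ Function.Injective x.2 := by
    by_contra h
    exact hx (Or.inr h)
  apply hx
  left
  have ok : NI.Ok (D.i n) (D.k n) := ⟨hD.inj n, hD.lt n⟩
  have ok' : NI.Ok (D'.i n') (D'.k n') := ⟨hD'.inj n', hD'.lt n'⟩
  obtain ⟨γ, hγ⟩ := mp hR
  obtain ⟨γ', hγ'⟩ := mp hR'
  obtain ⟨κ, -, -, hκ, -⟩ := h3 R (D.m n) (D.r n) Z (D.t x.1 n) (D.b n) γ (hD.cv n)
    (NI.Ni_aux.pt_inj ok hinj.1) hR.cyc hR.dim hγ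
  obtain ⟨κ', -, -, hκ', -⟩ := h3 R' (D'.m n') (D'.r n') Z' (D'.t x.2 n') (D'.b n') γ'
    (hD'.cv n') (NI.Ni_aux.pt_inj ok' hinj.2) hR'.cyc hR'.dim hγ'
  obtain ⟨ψ, hψ⟩ := rt_img hI
  refine Set.mem_iUnion.2 ⟨⟨D.m n, D.r n, D.b n, D.i n, D.k n⟩, Set.mem_iUnion.2
    ⟨⟨D'.m n', D'.r n', D'.b n', D'.i n', D'.k n'⟩, ⟨hD.cv n, hD'.cv n',
      hD.ndf n, ok, ok'⟩, hinj.1, hinj.2,
      κ.symm.trans (ψ.trans κ'), ?_⟩⟩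
  change (fun v => κ' (ψ (κ.symm v))) '' LQ (D.m n) (D.b n) (D.t x.1 n) =
    LQ (D'.m n') (D'.b n') (D'.t x.2 n')
  rw [← hκ, ← hκ', ← hψ, Set.image_image, Set.image_image]
  simp only [LinearEquiv.symm_apply_apply]

end TATE
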