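import Pool.Agent.Lib.TATE.Asm.Spec
import Pool.Agent.Lib.TATE.RC.Main
import Pool.Agent.Lib.TATE.RC.Act
import Pool.Agent.Lib.TATE.RC.Cmp

/-!
# PROJECT TATE: the rational components of a Tate class (helper4)
-/

set_option autoImplicit false

open Topology Metric

noncomputable section

namespace TATE

open HC HC.CC SEJ SEB SEQ

namespace Rc_aux

lemma pts_of_itg {m r : ℕ} {b : Fin (r + 1) → ℕ} {t : Fin (r + 1) → ℂ} {P Q : ℂ × ℂ}
    {v : Ix m b → ℂ} (h : Itg m b t P Q v) : P ∈ Pts m b t ∧ Q ∈ Pts m b t := by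
  induction h with
  | refl h => exact ⟨h, h⟩
  | @step Q R v w h h' ih =>
    refine ⟨ih.1, ?_⟩
    obtain ⟨y, -, -, hy1, hy, -⟩ := h'
    have h1 := hy 1 ⟨zero_le_one, le_refl 1⟩
    rw [hy1] at h1
    have h2 : ((Q.1 + ((1 : ℝ) : ℂ) * (R.1 - Q.1), R.2) : ℂ × ℂ) = R := by
      apply Prod.ext
      · change Q.1 + ((1 : ℝ) : ℂ) * (R.1 - Q.1) = R.1
        rw [Complex.ofReal_one]
        ring
      · rfl
    rwa [h2] at h1

lemma fix_mem {p : ℕ} {s : Fin p → ℂ} {A : Set ℂ} {σ : ℂ ≃+* ℂ} (hσ : σ ∈ Fix s A) {z : ℂ}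
    (hz : z ∈ IntermediateField.adjoin ℚ (Set.range s)) : σ z = z := by
  induction hz using IntermediateField.adjoin_induction with
  | mem x hx =>
    obtain ⟨i, rfl⟩ := hx
    exact hσ.1 i
  | algebraMap x =>
    change σ ((x : ℚ) : ℂ) = ((x : ℚ) : ℂ)
    exact map_ratCast σ x
  | add x y _ _ hx hy => rw [map_add, hx, hy]
  | inv x _ hx => rw [map_inv₀, hx]
  | mul x y _ _ hx hy => rw [map_mul, hx, hy]

lemma pt_mem {p r : ℕ} (s : Fin p → ℂ) (i : Fin (r + 1) → Fin p) (k : Option (Fin p))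
    (j : Fin (r + 1)) : pt s i k j ∈ IntermediateField.adjoin ℚ (Set.range s) := by
  have h : ∀ l, s l ∈ IntermediateField.adjoin ℚ (Set.range s) := fun l =>
    IntermediateField.subset_adjoin _ _ ⟨l, rfl⟩
  cases k with
  | none => exact h _
  | some k => exact inv_mem (sub_mem (h _) (h _))

lemma pt_inj {p r : ℕ} {s : Fin p → ℂ} (hs : Function.Injective s) {i : Fin (r + 1) → Fin p}
    (hi : Function.Injective i) (k : Option (Fin p)) : Function.Injective (pt s i k) := by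
  cases k with
  | none => exact hs.comp hi
  | some k =>
    intro a b hab
    change (s (i a) - s k)⁻¹ = (s (i b) - s k)⁻¹ at hab
    exact hi (hs (sub_left_inj.mp (inv_injective hab)))

/-- Torsion points have conjugates. -/
lemma conj {T : AV} {m r : ℕ} {Z : T.V → T.V} {t : Fin (r + 1) → ℂ} {b : Fin (r + 1) → ℕ}
    {γ : Cur T} (hγ : IsMp T m Z t b γ) (κ : T.V ≃ₗ[ℂ] (Ix m b → ℂ))
    (hκ : ∀ P Q v, Itg m b t P Q v → ∃ l, In T l ∧ κ (γ.α Q.1 Q.2 - γ.α P.1 P.2) - v = κ l)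
    (σ : ℂ ≃+* ℂ) (ht : ∀ j, σ (t j) = t j) (v : T.V) {N : ℕ} (Q' Q : Fin N → ℂ × ℂ)
    (w : Fin N → (Ix m b → ℂ)) (hw : ∀ a, Itg m b t (Q' a) (Q a) (w a)) (hv : ∑ a, w a = κ v) :
    ∃ v', GR γ σ v v' := by
  have key : ∀ R ∈ Pts m b t, R.1 ∉ γ.S ∧ γ.P (R.1, R.2) = 0 ∧ σ R.1 ∉ γ.S ∧
      γ.P (σ R.1, σ R.2) = 0 := by
    intro R hR
    refine ⟨?_, ?_, ?_, ?_⟩
    · rw [hγ.S]
      exact hR.1
    · rw [hγ.P, hR.2, sub_self]
    · rw [hγ.S]
      rintro ⟨j, hj⟩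
      exact hR.1 ⟨j, σ.injective ((ht j).trans hj)⟩
    · have h1 := congrArg σ hR.2
      rw [map_pow, map_prod] at h1
      rw [hγ.P, h1, sub_eq_zero]
      refine Finset.prod_congr rfl fun j _ => ?_
      rw [map_pow, map_sub, ht]
  choose l hl hκl using fun a => hκ (Q' a) (Q a) (w a) (hw a)
  refine ⟨∑ a, (γ.α (σ (Q a).1) (σ (Q a).2) - γ.α (σ (Q' a).1) (σ (Q' a).2)), N + N,
    Fin.append (fun _ => 1) (fun _ => -1),
    Fin.append (fun a => (Q a).1) (fun a => (Q' a).1),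
    Fin.append (fun a => (Q a).2) (fun a => (Q' a).2), ?_, ?_, ?_, ?_⟩
  · rw [Fin.sum_univ_add]
    simp only [Fin.append_left, Fin.append_right, Finset.sum_const, smul_neg, add_neg_cancel]
  · intro i
    refine Fin.addCases (fun a => ?_) (fun a => ?_) i
    · simp only [Fin.append_left]
      exact key _ (pts_of_itg (hw a)).2
    · simp only [Fin.append_right]
      exact key _ (pts_of_itg (hw a)).1
  · have h0 : v - ∑ i, (Fin.append (fun _ : Fin N => (1 : ℤ)) (fun _ : Fin N => -1) i) •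
          γ.α (Fin.append (fun a => (Q a).1) (fun a => (Q' a).1) i)
            (Fin.append (fun a => (Q a).2) (fun a => (Q' a).2) i) = -∑ a, l a := by
      apply κ.injective
      rw [Fin.sum_univ_add]
      simp only [Fin.append_left, Fin.append_right, one_smul, neg_smul, Finset.sum_neg_distrib]
      rw [map_sub, map_neg, ← hv, ← sub_eq_add_neg, ← Finset.sum_sub_distrib, map_sum, map_sum,
        ← Finset.sum_sub_distrib, ← Finset.sum_neg_distrib]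
      refine Finset.sum_congr rfl fun a _ => ?_
      rw [← hκl a]
      abel
    rw [h0]
    exact T.L.neg_mem (T.L.sum_mem fun a _ => hl a)
  · have h0 : ∑ a, (γ.α (σ (Q a).1) (σ (Q a).2) - γ.α (σ (Q' a).1) (σ (Q' a).2)) -
        ∑ i, (Fin.append (fun _ : Fin N => (1 : ℤ)) (fun _ : Fin N => -1) i) •
          γ.α (σ (Fin.append (fun a => (Q a).1) (fun a => (Q' a).1) i))
            (σ (Fin.append (fun a => (Q a).2) (fun a => (Q' a).2) i)) = 0 := by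
      rw [Fin.sum_univ_add]
      simp only [Fin.append_left, Fin.append_right, one_smul, neg_smul, Finset.sum_neg_distrib,
        Finset.sum_sub_distrib]
      abel
    rw [h0]
    exact T.L.zero_mem

end Rc_aux

open Rc_aux in
theorem tRc : StmtTO → S_Rc := by
  intro hTO p N s J γ hs P T g hg G hG hGr ℓ hℓ i c hc
  obtain ⟨A, hA, hAalg, hA'⟩ := hc
  have hLf : LfR g := by
    intro v hv
    have h1 : (fun n => P.κ n (v n)) ∈ P.D.L s := by
      intro n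
      rw [← P.rt n]
      exact ⟨v n, hv n, rfl⟩
    rw [← hGr] at h1
    obtain ⟨u, hu, huv⟩ := h1
    refine ⟨u, hu, fun n => ?_⟩
    apply (P.κ n).injective
    rw [← hG u n, huv]
  have hmod : ∀ n, IsMod s (γ n) (A ∪ P.A) := by
    intro n σ hσ
    exact P.mod n σ ⟨hσ.1, fun a ha => hσ.2 a (Or.inr ha)⟩
  have hBfin : (A ∪ P.A).Finite := hA.union P.fin
  have hBalg : ∀ a ∈ A ∪ P.A, AlgO s a := by
    rintro a (ha | ha)
    · exact hAalg a ha
    · exact P.alg a ha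
  have hconj : ∀ n, ∀ σ ∈ Fix s (A ∪ P.A), ∀ v, Rt (J n) v → ∃ v', GR (γ n) σ v v' := by
    intro n σ hσ v hv
    obtain ⟨M, Q', Q, w, -, hw, hsum⟩ := hTO (J n) (P.D.m n) (P.D.r n) (P.Z n) (P.D.t s n)
      (P.D.b n) (γ n) (P.ok.cv n) (pt_inj hs (P.ok.inj n) _) (P.cy n) (P.dim n) (P.mp n)
      (P.κ n) (P.om n) (P.rt n) (P.al n) p s (A ∪ P.A) hBfin hBalg (fun j => pt_mem s _ _ j)
      (hmod n) v hv
    exact conj (P.mp n) (P.κ n) (P.al n) σ (fun j => fix_mem hσ (pt_mem s _ _ j)) v Q' Q w hw hsum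
  obtain ⟨K, x, C, hC, hrat, hinv⟩ := RC.rMain RC.rCh RC.rAct RC.rCmp p s T N J γ g (A ∪ P.A)
    hg hLf hmod hconj ℓ i c fun σ hσ => hA' σ ⟨hσ.1, fun a ha => hσ.2 a (Or.inl ha)⟩
  refine ⟨A, K, x, C, hA, hAalg, fun k a ha => hrat k a fun i v hv => ha i v hv, hC, ?_⟩
  intro η hη k φ hφ
  set G' : T.V →ₗ[ℝ] P.D.V := (G : T.V →ₗ[ℂ] P.D.V).restrictScalars ℝ with hG'
  set Gi : P.D.V →ₗ[ℝ] T.V := (G.symm : P.D.V →ₗ[ℂ] T.V).restrictScalars ℝ with hGi
  have hGG : ∀ v, G' (Gi v) = v := fun v => G.apply_symm_apply v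
  have h1 := hinv (Gi ∘ₗ (φ : P.D.V →ₗ[ℝ] P.D.V) ∘ₗ G')
    (fun n => (((P.κ n).symm : (Ix (P.D.m n) (P.D.b n) → ℂ) →ₗ[ℂ] (J n).V).restrictScalars ℝ) ∘ₗ
      (η n : (Ix (P.D.m n) (P.D.b n) → ℂ) →ₗ[ℝ] (Ix (P.D.m n) (P.D.b n) → ℂ)) ∘ₗ
      ((P.κ n : (J n).V →ₗ[ℂ] (Ix (P.D.m n) (P.D.b n) → ℂ)).restrictScalars ℝ)) (by
      intro n v
      apply (P.κ n).injective
      rw [← hG]
      change G (G.symm (φ (G v))) n = P.κ n ((P.κ n).symm (η n (P.κ n (g n v))))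
      rw [G.apply_symm_apply, (P.κ n).apply_symm_apply, hφ, hG]) (by
      intro j
      obtain ⟨σ, hσ, hroot, h⟩ := hη j
      exact ⟨σ, hσ, hroot, fun n v => (h n v v.2).2⟩) k
  have h2 : psh (φ : P.D.V →ₗ[ℝ] P.D.V) (psh G' (C k)) =
      psh G' (psh (Gi ∘ₗ (φ : P.D.V →ₗ[ℝ] P.D.V) ∘ₗ G') (C k)) := by
    ext a
    change C k (fun i => (a i ∘ₗ (φ : P.D.V →ₗ[ℝ] P.D.V)) ∘ₗ G') =
      C k (fun i => (a i ∘ₗ G') ∘ₗ (Gi ∘ₗ (φ : P.D.V →ₗ[ℝ] P.D.V) ∘ₗ G'))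
    congr 1
    funext i
    refine LinearMap.ext fun v => ?_
    change a i (φ (G' v)) = a i (G' (Gi (φ (G' v))))
    rw [hGG]
  rw [h2, h1]

end TATE
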