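import Pool.Agent.Lib.TATE.Asm.Spec

/-!
# PROJECT TATE, assembly: the representation of tuples
-/

set_option autoImplicit false

open Topology Metric

noncomputable section

namespace TATE

open HC HC.CC SEJ SEB SEQ

namespace Rp_aux

lemma rt_map {T T' : AV} (g : T.V →ₗ[ℝ] T'.V)
    (hg : ∀ v ∈ T.L, ∃ N : ℕ, N ≠ 0 ∧ N • g v ∈ T'.L) (v : T.V) (hv : Rt T v) : Rt T' (g v) := by
  obtain ⟨k, hk, hkv⟩ := hv
  obtain ⟨N, hN, hNv⟩ := hg _ hkv
  refine ⟨N * k, Nat.mul_ne_zero hN hk, ?_⟩
  rw [mul_smul, ← map_nsmul]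
  exact hNv

/-- the action of a tuple, componentwise -/
def act {p N q : ℕ} (D : Dt p N) {R : Fin q → AV} (j : Fin N → Fin q)
    (e : ∀ n, (R (j n)).V ≃ₗ[ℂ] (Ix (D.m n) (D.b n) → ℂ)) (X : Tup R) : D.V →ₗ[ℝ] D.V where
  toFun v n := e n (X (j n) ((e n).symm (v n)))
  map_add' u v := by
    funext n
    simp only [Pi.add_apply, map_add]
  map_smul' c v := by
    funext n
    have h1 : (e n).symm ((c • v) n) = c • (e n).symm (v n) := by
      have h2 : (c • v) n = (c : ℂ) • v n := by
        rw [Pi.smul_apply, Complex.coe_smul]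
      rw [h2, map_smul, Complex.coe_smul]
    have h3 : ∀ w : (R (j n)).V, e n (c • w) = c • e n w := by
      intro w
      rw [← Complex.coe_smul, map_smul, Complex.coe_smul]
    rw [h1, map_smul, h3]
    rfl

end Rp_aux

open Rp_aux

theorem tRp : S_Rp := by
  intro p N D s J κ hκ q R j hj
  choose ψ hψ using hj
  obtain ⟨e, he⟩ : ∃ e : ∀ n, (R (j n)).V ≃ₗ[ℂ] (Ix (D.m n) (D.b n) → ℂ),
      e = fun n => (ψ n).symm.trans (κ n) := ⟨_, rfl⟩
  refine ⟨fun n => (e n).symm, act D j e, fun X v n => ?_, ?_, ?_, ?_, ?_, ?_⟩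
  · change (e n).symm (e n (X (j n) ((e n).symm (v n)))) = X (j n) ((e n).symm (v n))
    rw [LinearEquiv.symm_apply_apply]
  · intro X Y
    refine LinearMap.ext fun v => funext fun n => ?_
    change e n ((X (j n) + Y (j n)) ((e n).symm (v n))) =
      e n (X (j n) ((e n).symm (v n))) + e n (Y (j n) ((e n).symm (v n)))
    rw [LinearMap.add_apply, map_add]
  · intro x X
    refine LinearMap.ext fun v => funext fun n => ?_
    change e n ((x • X (j n)) ((e n).symm (v n))) = x • e n (X (j n) ((e n).symm (v n)))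
    rw [LinearMap.smul_apply, ← Complex.coe_smul, map_smul, Complex.coe_smul]
  · intro X Y
    refine LinearMap.ext fun v => funext fun n => ?_
    change e n ((X (j n) * Y (j n)) ((e n).symm (v n))) =
      e n (X (j n) ((e n).symm (e n (Y (j n) ((e n).symm (v n))))))
    rw [LinearEquiv.symm_apply_apply]
    rfl
  · refine LinearMap.ext fun v => funext fun n => ?_
    have h1 : mulI (R (j n)) ((e n).symm (v n)) = Complex.I • (e n).symm (v n) := rfl
    change e n (mulI (R (j n)) ((e n).symm (v n))) = (Complex.I • v) n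
    rw [h1, map_smul, LinearEquiv.apply_symm_apply]
    rfl
  · intro X hX v hv n
    have h0 : v n ∈ κ n '' {v | Rt (J n) v} := by
      rw [hκ n]
      exact hv n
    obtain ⟨w, hw, hwv⟩ := h0
    have hw' : Rt (J n) w := hw
    have h1 : (e n).symm (v n) = ψ n w := by
      rw [← hwv, he]
      simp
    have h2 : Rt (R (j n)) (ψ n w) :=
      rt_map (((ψ n).toLinearMap).restrictScalars ℝ) (hψ n) w hw'
    have h3 : Rt (R (j n)) (X (j n) (ψ n w)) := rt_map (X (j n)) (hX (j n)) _ h2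
    have h4 : Rt (J n) ((ψ n).symm (X (j n) (ψ n w))) :=
      rt_map ((((ψ n).symm).toLinearMap).restrictScalars ℝ)
        (HC.E.tIsoInv (J n) (R (j n)) (ψ n) (hψ n)) _ h3
    change e n (X (j n) ((e n).symm (v n))) ∈ LQ (D.m n) (D.b n) (D.t s n)
    rw [h1, ← hκ n]
    refine ⟨(ψ n).symm (X (j n) (ψ n w)), h4, ?_⟩
    rw [he]
    rfl

end TATE
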