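import Pool.Agent.Lib.TATE.Asm.Spec

/-!
# PROJECT TATE, assembly, module Rq: rational classes for a rational structure
-/

set_option autoImplicit false

open Topology Metric

noncomputable section

namespace TATE

open HC HC.CC SEJ SEB SEQ

namespace Rq_aux

variable {V : Type} [NormedAddCommGroup V] [NormedSpace ℂ V] {L : Set V}

lemma sum_mem (hL : IsQ V L) {ι : Type} (s : Finset ι) (q : ι → ℚ) (v : ι → V) (hv : ∀ i, v i ∈ L) :
    ∑ i ∈ s, ((q i : ℚ) : ℝ) • v i ∈ L := by
  classical
  induction s using Finset.induction_on with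
  | empty => simpa using hL.zero
  | insert a s ha ih =>
    rw [Finset.sum_insert ha]
    exact hL.add _ (hL.smul _ _ (hv a)) _ ih

/-- real coordinates with respect to vectors of `L` are rational on `L` -/
lemma coord {ι : Type} [Fintype ι] (hL : IsQ V L) (b : Module.Basis ι ℝ V) (hb : ∀ i, b i ∈ L) {v : V}
    (hv : v ∈ L) (i₀ : ι) : ∃ q : ℚ, b.repr v i₀ = (q : ℝ) := by
  classical
  set x : Option ι → ℝ := fun o => o.elim 1 fun i => b.repr v i with hx
  set W : Submodule ℚ ℝ := Submodule.span ℚ (Set.range x) with hW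
  have : FiniteDimensional ℚ W := FiniteDimensional.span_of_finite ℚ (Set.finite_range x)
  set e := Module.finBasis ℚ W with he
  have hxW : ∀ o, x o ∈ W := fun o => Submodule.subset_span ⟨o, rfl⟩
  set y : Fin (Module.finrank ℚ W) → ℝ := fun k => (e k : ℝ) with hy
  have hyi : LinearIndependent ℚ y := e.linearIndependent.map' W.subtype W.ker_subtype
  set q : Option ι → Fin (Module.finrank ℚ W) → ℚ := fun o k => e.repr ⟨x o, hxW o⟩ k with hq
  have hxq : ∀ o, x o = ∑ k, ((q o k : ℚ) : ℝ) * y k := by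
    intro o
    have h1 := e.sum_repr ⟨x o, hxW o⟩
    have h2 := congrArg (fun w : W => (w : ℝ)) h1
    simp only [AddSubmonoidClass.coe_finset_sum, Submodule.coe_smul] at h2
    rw [← h2]
    refine Finset.sum_congr rfl fun k _ => ?_
    rw [Rat.smul_def]
  set w : Fin (Module.finrank ℚ W) → V := fun k =>
    ((q none k : ℚ) : ℝ) • v + ∑ i, (((-q (some i) k : ℚ)) : ℝ) • b i with hw
  have hwL : ∀ k, w k ∈ L := fun k =>
    hL.add _ (hL.smul _ _ hv) _ (sum_mem hL _ (fun i => -q (some i) k) b hb)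
  have hsum : ∑ k, y k • w k = 0 := by
    have h1 : ∑ k, y k • w k = (∑ k, ((q none k : ℚ) : ℝ) * y k) • v -
        ∑ i, (∑ k, ((q (some i) k : ℚ) : ℝ) * y k) • b i := by
      rw [hw]
      simp only [smul_add, Finset.sum_add_distrib, Finset.smul_sum, smul_smul, Finset.sum_smul]
      rw [Finset.sum_comm, sub_eq_add_neg, ← Finset.sum_neg_distrib]
      congr 1
      · exact Finset.sum_congr rfl fun k _ => by rw [mul_comm]
      · refine Finset.sum_congr rfl fun i _ => ?_
        rw [← Finset.sum_neg_distrib]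
        refine Finset.sum_congr rfl fun k _ => ?_
        rw [← neg_smul]
        congr 1
        push_cast
        ring
    have h2 : ∑ i, x (some i) • b i = v := b.sum_repr v
    rw [h1, ← hxq none]
    simp only [← hxq (some _)]
    rw [h2]
    have h3 : x none = 1 := rfl
    rw [h3, one_smul, sub_self]
  have hw0 := hL.ind _ y w hyi hwL hsum
  have hne : ∃ k, q none k ≠ 0 := by
    by_contra hcon
    push Not at hcon
    have h1 := hxq none
    have h2 : x none = 1 := rfl
    rw [h2] at h1
    simp only [hcon, Rat.cast_zero, zero_mul, Finset.sum_const_zero] at h1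
    exact one_ne_zero h1
  obtain ⟨k, hk⟩ := hne
  refine ⟨q (some i₀) k / q none k, ?_⟩
  have h1 := congrArg (fun u => b.repr u i₀) (hw0 k)
  rw [hw] at h1
  simp only [map_add, map_smul, map_sum, Finsupp.add_apply, Finsupp.smul_apply, map_zero,
    Finsupp.zero_apply, Finsupp.finset_sum_apply, Module.Basis.repr_self, smul_eq_mul] at h1
  have h2 : ∑ i, (((-q (some i) k : ℚ)) : ℝ) * (Finsupp.single i (1 : ℝ)) i₀ =
      (((-q (some i₀) k : ℚ)) : ℝ) := by
    rw [Finset.sum_eq_single i₀]
    · rw [Finsupp.single_eq_same, mul_one]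
    · intro i _ hi
      rw [Finsupp.single_apply, if_neg hi, mul_zero]
    · intro h
      exact absurd (Finset.mem_univ _) h
  rw [h2] at h1
  have hk' : ((q none k : ℚ) : ℝ) ≠ 0 := by exact_mod_cast hk
  push_cast at h1 ⊢
  rw [eq_div_iff hk']
  linarith

/-- a complex basis of the forms which is rational on `L` -/
lemma exB [FiniteDimensional ℂ V] (hL : IsQ V L) :
    ∃ (ι : Type) (_ : Fintype ι) (e : Module.Basis ι ℂ (V →ₗ[ℝ] ℂ)),
      ∀ i, ∀ v ∈ L, ∃ x : ℚ, e i v = x := by
  classical
  have : FiniteDimensional ℝ V := FiniteDimensional.complexToReal V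
  have hs : (⊤ : Submodule ℝ V) ≤ Submodule.span ℝ L := hL.spn.ge
  set b := Module.Basis.ofSpan hs with hb
  have hbL : ∀ i, b i ∈ L := fun i => Module.Basis.ofSpan_subset hs ⟨i, rfl⟩
  haveI : Fintype _ := FiniteDimensional.fintypeBasisIndex b
  refine ⟨_, inferInstance, (Pi.basisFun ℂ _).map (b.constr ℂ), fun i v hv => ?_⟩
  obtain ⟨q, hq⟩ := coord hL b hbL hv i
  refine ⟨q, ?_⟩
  rw [Module.Basis.map_apply, Pi.basisFun_apply, Module.Basis.constr_apply_fintype,
    Finset.sum_eq_single i]
  · rw [Pi.single_eq_same, Module.Basis.equivFun_apply, hq, Complex.real_smul, mul_one]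
    push_cast
    rfl
  · intro j _ hj
    rw [Pi.single_eq_of_ne hj, smul_zero]
  · intro h
    exact absurd (Finset.mem_univ _) h

lemma rat_sum {ι : Type} (s : Finset ι) (f : ι → ℂ) (h : ∀ i ∈ s, ∃ x : ℚ, f i = x) :
    ∃ x : ℚ, ∑ i ∈ s, f i = x := by
  choose! g hg using h
  refine ⟨∑ i ∈ s, g i, ?_⟩
  push_cast
  exact Finset.sum_congr rfl fun i hi => hg i hi

lemma alt_sum {d : ℕ} {ι : Type} (s : Finset ι) (f : ι → Cl V d) (a : Fin d → (V →ₗ[ℝ] ℂ)) :
    (∑ k ∈ s, f k) a = ∑ k ∈ s, f k a := by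
  classical
  induction s using Finset.induction_on with
  | empty => simp
  | insert k s hk ih => rw [Finset.sum_insert hk, Finset.sum_insert hk, AlternatingMap.add_apply, ih]

end Rq_aux

theorem tRq : S_Rq := by
  intro V _ _ _ L d hL
  have h1 : ∀ c c' : Cl V d, (∀ a : Fin d → (V →ₗ[ℝ] ℂ), (∀ i, ∀ v ∈ L, ∃ x : ℚ, a i v = x) →
      c a = c' a) → c = c' := by
    intro c c' h
    obtain ⟨ι, _, e, he⟩ := Rq_aux.exB hL
    exact Module.Basis.ext_alternating e fun v _ => h _ fun i => he (v i)
  refine ⟨h1, ?_, ?_, ?_, ?_⟩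
  · intro n x c hx hc hsum k
    refine h1 _ _ fun a ha => ?_
    choose q hq using fun k => hc k a ha
    have h2 : ∑ k, (x k : ℂ) * ((q k : ℚ) : ℂ) = 0 := by
      have h3 := congrArg (fun c : Cl V d => c a) hsum
      simp only [Rq_aux.alt_sum, AlternatingMap.smul_apply, AlternatingMap.zero_apply,
        smul_eq_mul] at h3
      rw [← h3]
      exact Finset.sum_congr rfl fun k _ => by rw [hq k]
    have h4 : ∑ k, q k • x k = 0 := by
      have h5 : ((∑ k, q k • x k : ℝ) : ℂ) = 0 := by
        rw [← h2]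
        push_cast
        refine Finset.sum_congr rfl fun k _ => ?_
        rw [Rat.smul_def]
        ring
      exact_mod_cast h5
    have h6 := (Fintype.linearIndependent_iff.1 hx) q h4 k
    rw [hq k, h6]
    simp
  · intro X c c' hX hc hD a ha
    rw [hD a]
    unfold der
    refine Rq_aux.rat_sum _ _ fun i _ => hc _ fun j v hv => ?_
    by_cases hj : j = i
    · subst hj
      rw [Function.update_self]
      exact ha j (X v) (hX v hv)
    · rw [Function.update_of_ne hj]
      exact ha j v hv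
  · intro c c' x y hc hc' a ha
    obtain ⟨p, hp⟩ := hc a ha
    obtain ⟨q, hq⟩ := hc' a ha
    refine ⟨x * p + y * q, ?_⟩
    rw [AlternatingMap.add_apply, AlternatingMap.smul_apply, AlternatingMap.smul_apply, hp, hq,
      smul_eq_mul, smul_eq_mul]
    push_cast
    ring
  · intro V' _ _ φ L' c hφ hc a ha
    have h2 : psh (φ : V →ₗ[ℝ] V') c a = c fun i => a i ∘ₗ (φ : V →ₗ[ℝ] V') := rfl
    rw [h2]
    refine hc _ fun i v hv => ?_
    refine ha i (φ v) ?_
    rw [← hφ]
    exact ⟨v, hv, rfl⟩

end TATE
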