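import Pool.Agent.Lib.TATE.Asm.Spec
import Pool.Agent.Lib.TATE.FL.FL

/-!
# PROJECT TATE, assembly: `tFl : StmtFL` (the proof is `TATE/FL/FL.lean`, helper45)
-/

set_option autoImplicit false

namespace TATE

theorem tFl : StmtFL := tFL

end TATE
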