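import Pool.Agent.Lib.TATE.Asm.Ht

/-!
# TATE, assembly: the Hodge Lie algebra of very general new parts, not of CM type (general form of `tHt`)
-/

set_option autoImplicit false

open Topology Metric

noncomputable section

namespace TATE

open HC HC.CC SEJ SEB SEQ

open Ht_aux in
/-- **HtG**: VERY GENERAL NEW PARTS, one signature not definite (`HypW`): every tuple in `∏ su` is a real combination of
commutators. -/
theorem htG : ∃ X : (p : ℕ) → Set (Fin p → ℂ), (∀ p, IsMeagre (X p)) ∧ ∀ (p : ℕ) (s : Fin p → ℂ),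
    s ∉ X p → Function.Injective s ∧ ∀ (q : ℕ) (D : Dt p q), (∀ n, Function.Injective (D.i n)) →
    (∀ n l, D.k n = some l → ∀ j, D.i n j < l) → (∀ n, Cvb (D.m n) (D.b n)) → (∀ n, 3 ≤ D.r n) →
    (∀ n, HypW (D.m n) (D.r n) (D.b n)) →
    ∀ (R : Fin q → AV) (Z : ∀ n, (R n).V → (R n).V),
    (∀ n, IsNew (R n) (D.m n) (Z n) (D.t s n) (D.b n)) →
    (∀ n n', n ≠ n' → ¬ Isg (R n) (R n')) →
    ∃ E : ∀ n, Cyc (R n) (D.m n), (∀ n v, (E n).Z v = Z n v) ∧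
      (∀ n, SEG.GFw (E n) (D.r n)) ∧
      (∀ n (u : (ZMod (D.m n))ˣ), (E n).p u = sg (D.m n) (D.r n) (D.b n) (u : ZMod (D.m n)).val) ∧
      ∀ h, HLieT E h → ∀ X : Tup R, (∀ n, IsSU (E n) (X n)) →
        X ∈ Submodule.span ℝ (ComT h) := by
  obtain ⟨X, hX, hJ⟩ := SET.tJng MMx SEB.tMx
  refine ⟨X, hX, ?_⟩
  intro p s hs
  obtain ⟨hinj, hMM, -, hI⟩ := hJ p s hs
  refine ⟨hinj, ?_⟩
  intro q D hDi hDk hDc hD3 hW R Z hN hne
  have hN' : ∀ n, ∃ N : HC.SE.New (R n) (D.m n) (D.t s n) (D.b n), ∀ v, N.Z v = Z n v :=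
    fun n => HC.CC.tNew tCy tCur (R n) (D.m n) (Z n) (D.r n) (D.t s n) (D.b n) (hN n)
  choose N hNZ using hN'
  have hkk : ∀ n, SEZ.Okk (D.i n) (D.k n) := fun n => ⟨hDi n, hDk n⟩
  have hcov : ∀ n, HC.SE.IsCov (D.m n) (D.t s n) (D.b n) := fun n => by
    obtain ⟨h1, h2, h3, h4⟩ := hDc n
    exact ⟨h1, pt_inj hinj (hDi n) (D.k n), h2, h3, h4⟩
  have hm : ∀ n, 3 ≤ D.m n := fun n => (hDc n).1
  have hE : ∀ n, ∃ E : Cyc (R n) (D.m n), E.Z = (N n).Z := fun n =>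
    tAvg (R n) (D.m n) (by have := hm n; omega) (N n).Z (N n).lat (N n).cyc
  choose E hEZ using hE
  have hg : ∀ n, SEG.GFw (E n) (D.r n) ∧
      ∀ u : (ZMod (D.m n))ˣ, (E n).p u = sg (D.m n) (D.r n) (D.b n) (u : ZMod (D.m n)).val :=
    fun n => by
      have h1 := hMM (D.m n) (D.r n) (D.b n) (D.i n) (D.k n) (hkk n)
      rw [← pt_eq] at h1
      obtain ⟨h2, -, h3, -⟩ := gfw_of_MMx (hD3 n) (hW n) (hcov n) h1 (N n) (E n) (hEZ n)
      exact ⟨h2, h3⟩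
  refine ⟨E, fun n v => ?_, fun n => (hg n).1, fun n => (hg n).2, fun h hh X hX => ?_⟩
  · rw [hEZ]
    exact hNZ n v
  have hHT : SEN.HTN (fun n => SEN.triv (E n) (hm n)) := by
    refine SEN.tn8 SEN.tn7 q R D.m E _ hm (fun n => ?_) (fun i j hij h hh s' t' => ?_)
    · intro k hk _ F hF
      refine (hg n).1.hit k hk F fun s' hs' hn => ?_
      have h1 := (hF s' hs' 1 (Subgroup.one_mem _)).2
      rw [one_mul] at h1
      exact h1 hn
    · have c1 := hcov i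
      have c2 := hcov j
      have h1 := hI (D.m i) (D.r i) (D.b i) (D.m j) (D.r j) (D.b j) (D.i i) (D.k i) (D.i j)
        (D.k j) (hkk i) (hkk j) (by have := hD3 i; omega) (by have := hD3 j; omega)
        (hW i) (hW j)
      rw [← pt_eq, ← pt_eq] at h1
      exact ((h1 c1 c2 (R i) (R j) (N i) (N j) (E i) (E j) (hEZ i) (hEZ j)).resolve_left
        (hne i j hij)) h hh s' t'
  exact SEN.tn9 (SEN.tn2 SEN.tn0 SEN.tn1) SEN.tn4 SEN.tn5 SEN.tn6 q R D.m E _ hm hHT h hh X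
    hX (fun n g hg v => rfl)

end TATE
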