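import Pool.Agent.Lib.TATE.Asm.Spec
import Pool.Agent.Lib.SE.Big.Bas
import Pool.Agent.Lib.SE.Big.Pj

/-!
# PROJECT TATE, assembly: unitary eigenbases and the diagonal operators (for `S_Jc`)
-/

set_option autoImplicit false

open Topology Metric

noncomputable section

namespace TATE

open HC HC.CC SEJ SEB SEQ

namespace Jc_aux

open Finset

/-- A unitary operator whose eigenspaces generate has an orthonormal eigenbasis. -/
theorem eigb (V : Type) [AddCommGroup V] [Module ℂ V] [FiniteDimensional ℂ V]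
    (H : V → V → ℂ) (hadd : ∀ a b c, H (a + b) c = H a c + H b c)
    (hsm : ∀ (x : ℂ) a b, H (x • a) b = x * H a b)
    (hc : ∀ a b, H b a = (starRingEnd ℂ) (H a b)) (hpos : ∀ a, a ≠ 0 → 0 < (H a a).re)
    (Z : V →ₗ[ℂ] V) (hZ : ∀ a b, H (Z a) (Z b) = H a b) (ι : Type) [Fintype ι] [DecidableEq ι]
    (z : ι → ℂ) (hz : Function.Injective z) (hz1 : ∀ w, z w * (starRingEnd ℂ) (z w) = 1)
    (htop : ⨆ w, Module.End.eigenspace Z (z w) = ⊤) :
    ∃ (g : ℕ) (v : Module.Basis (Fin g) ℂ V) (u : Fin g → ι), (∀ s, Z (v s) = z (u s) • v s) ∧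
      ∀ a b, H a b = ∑ s, v.repr a s * (starRingEnd ℂ) (v.repr b s) := by
  let core : InnerProductSpace.Core ℂ V :=
    { inner := fun a b => H b a
      conj_inner_symm := fun a b => by
        change (starRingEnd ℂ) (H a b) = H b a
        rw [hc a b]
      re_inner_nonneg := fun a => by
        by_cases h : a = 0
        · rw [h]
          have h0 := hsm 0 (0 : V) (0 : V)
          rw [zero_smul, zero_mul] at h0
          change 0 ≤ (H 0 0).re
          rw [h0]
          simp
        · exact (hpos a h).le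
      add_left := fun a b c => by
        change H c (a + b) = H c a + H c b
        rw [hc (a + b) c, hadd, map_add, ← hc, ← hc]
      smul_left := fun a b r => by
        change H b (r • a) = (starRingEnd ℂ) r * H b a
        rw [hc (r • a) b, hsm, map_mul, ← hc]
      definite := fun a h => by
        by_contra h0
        have h1 := hpos a h0
        rw [h] at h1
        simp at h1 }
  let _ : NormedAddCommGroup V := core.toNormedAddCommGroup
  let _ : InnerProductSpace ℂ V := InnerProductSpace.ofCore core.toCore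
  have hin : ∀ a b : V, inner ℂ a b = H b a := fun a b => rfl
  have hof : OrthogonalFamily ℂ (fun w => Module.End.eigenspace Z (z w))
      fun w => (Module.End.eigenspace Z (z w)).subtypeₗᵢ := by
    intro w w' hww a b
    have ha : Z a = z w • (a : V) := Module.End.mem_eigenspace_iff.1 a.2
    have hb : Z b = z w' • (b : V) := Module.End.mem_eigenspace_iff.1 b.2
    have h1 := hZ (b : V) (a : V)
    rw [ha, hb, hsm, hc (z w • (a : V)) (b : V), hsm, map_mul, ← hc] at h1
    change H (b : V) (a : V) = 0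
    by_contra h0
    have h2 : z w' * (starRingEnd ℂ) (z w) = 1 := by
      rw [← mul_assoc] at h1
      exact mul_right_cancel₀ h0 (h1.trans (one_mul _).symm)
    have h3 : (starRingEnd ℂ) (z w) ≠ 0 := by
      intro h4
      rw [h4, mul_zero] at h2
      exact zero_ne_one h2
    exact hww (hz (mul_right_cancel₀ h3 ((hz1 w).trans h2.symm)))
  have hint : DirectSum.IsInternal fun w => Module.End.eigenspace Z (z w) := by
    rw [hof.isInternal_iff, htop, Submodule.top_orthogonal_eq_bot]
  refine ⟨Module.finrank ℂ V, (hint.subordinateOrthonormalBasis rfl hof).toBasis,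
    fun s => hint.subordinateOrthonormalBasisIndex rfl s hof, ?_, ?_⟩
  · intro s
    rw [OrthonormalBasis.coe_toBasis]
    exact Module.End.mem_eigenspace_iff.1 (hint.subordinateOrthonormalBasis_subordinate rfl s hof)
  · intro a b
    rw [← hin b a, ← (hint.subordinateOrthonormalBasis rfl hof).sum_inner_mul_inner]
    refine Finset.sum_congr rfl fun s _ => ?_
    rw [OrthonormalBasis.coe_toBasis_repr_apply, OrthonormalBasis.coe_toBasis_repr_apply,
      OrthonormalBasis.repr_apply_apply, OrthonormalBasis.repr_apply_apply, mul_comm]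
    congr 1
    rw [hin, hin, hc]

section cyc

variable {T : AV} {m : ℕ}

theorem topZ (D : Cyc T m) (hm : 3 ≤ m) :
    ⨆ w : (ZMod m)ˣ, Module.End.eigenspace D.Z (zet m w) = ⊤ := by
  have hm0 : m ≠ 0 := by omega
  have : NeZero m := ⟨hm0⟩
  have : NeZero (m : ℂ) := ⟨by exact_mod_cast hm0⟩
  have hae : Polynomial.aeval D.Z (Polynomial.cyclotomic m ℂ) = 0 := by
    rw [← Polynomial.map_cyclotomic_int, ← algebraMap_int_eq, Polynomial.aeval_map_algebraMap]
    exact D.cyc
  have hss : Module.End.IsSemisimple D.Z :=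
    Module.End.isSemisimple_of_squarefree_aeval_eq_zero
      (Polynomial.squarefree_cyclotomic m ℂ) hae
  have htop := Module.End.iSup_maxGenEigenspace_eq_top D.Z
  rw [eq_top_iff, ← htop]
  refine iSup_le fun μ => ?_
  rw [hss.isFinitelySemisimple.maxGenEigenspace_eq_eigenspace]
  intro a ha
  by_cases ha0 : a = 0
  · rw [ha0]
    exact zero_mem _
  have hev : Module.End.HasEigenvector D.Z μ a := ⟨ha, ha0⟩
  have h1 := Module.End.aeval_apply_of_hasEigenvector (p := Polynomial.cyclotomic m ℂ) hev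
  rw [hae, LinearMap.zero_apply] at h1
  have h2 : (Polynomial.cyclotomic m ℂ).IsRoot μ :=
    (smul_eq_zero.1 h1.symm).resolve_right ha0
  rw [Polynomial.isRoot_cyclotomic_iff] at h2
  obtain ⟨i, hi, hic, hiμ⟩ :=
    (IsPrimitiveRoot.isPrimitiveRoot_iff (Complex.isPrimitiveRoot_exp m hm0)).1 h2
  refine Submodule.mem_iSup_of_mem (ZMod.unitOfCoprime i hic) ?_
  have h3 : zet m (ZMod.unitOfCoprime i hic) = μ := by
    rw [zet, ZMod.coe_unitOfCoprime, ZMod.val_natCast_of_lt hi]
    exact hiμ
  rw [h3]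
  exact ha

theorem zinj (hm : 3 ≤ m) : Function.Injective (zet m) := by
  intro s t h
  have hm0 : m ≠ 0 := by omega
  have : NeZero m := ⟨hm0⟩
  have h1 := (Complex.isPrimitiveRoot_exp m hm0).pow_inj (ZMod.val_lt (s : ZMod m))
    (ZMod.val_lt (t : ZMod m)) h
  exact Units.ext (ZMod.val_injective m h1)

theorem znrm (hm : 3 ≤ m) (s : (ZMod m)ˣ) : zet m s * (starRingEnd ℂ) (zet m s) = 1 := by
  have hm0 : m ≠ 0 := by omega
  rw [Complex.mul_conj, Complex.normSq_eq_norm_sq, zet, norm_pow,
    IsPrimitiveRoot.norm'_eq_one (Complex.isPrimitiveRoot_exp m hm0) hm0]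
  simp

/-- The hermitian form. -/
def hf (D : Cyc T m) (a b : T.V) : ℂ := ⟨D.ψ (Complex.I • a) b, D.ψ a b⟩

theorem psi_I (D : Cyc T m) (a b : T.V) : D.ψ a (Complex.I • b) = -D.ψ (Complex.I • a) b := by
  rw [← D.cpx a (Complex.I • b), smul_smul, Complex.I_mul_I, neg_smul, one_smul, map_neg]

theorem psi_re (D : Cyc T m) (x : ℝ) (a b : T.V) : D.ψ (x • a) b = x * D.ψ a b := by
  rw [map_smul, LinearMap.smul_apply, smul_eq_mul]

theorem hf_smul (D : Cyc T m) (x : ℂ) (a b : T.V) : hf D (x • a) b = x * hf D a b := by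
  have hx : x • a = x.re • a + x.im • (Complex.I • a) := by
    conv_lhs => rw [← Complex.re_add_im x]
    rw [add_smul, mul_smul, ← Complex.coe_smul, ← Complex.coe_smul]
  have hIx : Complex.I • (x • a) = x.re • (Complex.I • a) - x.im • a := by
    rw [hx, smul_add, smul_comm Complex.I x.re, smul_comm Complex.I x.im, smul_smul Complex.I,
      Complex.I_mul_I, neg_smul, one_smul, smul_neg, sub_eq_add_neg]
  refine Complex.ext ?_ ?_
  · change D.ψ (Complex.I • (x • a)) b = (x * hf D a b).re
    rw [hIx, map_sub, LinearMap.sub_apply, psi_re, psi_re, Complex.mul_re]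
    rfl
  · change D.ψ (x • a) b = (x * hf D a b).im
    rw [hx, map_add, LinearMap.add_apply, psi_re, psi_re, Complex.mul_im]
    rfl

theorem cycb (D : Cyc T m) (hm : 3 ≤ m) :
    ∃ (g : ℕ) (v : Module.Basis (Fin g) ℂ T.V) (u : Fin g → (ZMod m)ˣ),
      (∀ s, D.Z (v s) = zet m (u s) • v s) ∧
      ∀ a b, D.ψ a b = (∑ s, v.repr a s * (starRingEnd ℂ) (v.repr b s)).im := by
  have hm0 : m ≠ 0 := by omega
  have : NeZero m := ⟨hm0⟩
  have e1 : ∀ a b c, hf D (a + b) c = hf D a c + hf D b c := by
    intro a b c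
    refine Complex.ext ?_ ?_
    · change D.ψ (Complex.I • (a + b)) c = D.ψ (Complex.I • a) c + D.ψ (Complex.I • b) c
      rw [smul_add, map_add, LinearMap.add_apply]
    · change D.ψ (a + b) c = D.ψ a c + D.ψ b c
      rw [map_add, LinearMap.add_apply]
  have e2 : ∀ a b, hf D b a = (starRingEnd ℂ) (hf D a b) := by
    intro a b
    refine Complex.ext ?_ ?_
    · change D.ψ (Complex.I • b) a = D.ψ (Complex.I • a) b
      rw [D.alt, psi_I, neg_neg]
    · change D.ψ b a = -D.ψ a b
      rw [D.alt]
  have e3 : ∀ a b, hf D (D.Z a) (D.Z b) = hf D a b := by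
    intro a b
    refine Complex.ext ?_ ?_
    · change D.ψ (Complex.I • D.Z a) (D.Z b) = D.ψ (Complex.I • a) b
      rw [← map_smul, D.inv]
    · exact D.inv a b
  obtain ⟨g, v, u, h1, h2⟩ := eigb T.V (hf D) e1 (hf_smul D) e2 (fun a ha => D.pos a ha) D.Z e3
    (ZMod m)ˣ (zet m) (zinj hm) (znrm hm) (topZ D hm)
  exact ⟨g, v, u, h1, fun a b => by rw [← h2]; rfl⟩

end cyc

/-! ### Diagonal operators -/

section dg

variable {V : Type} [NormedAddCommGroup V] [NormedSpace ℂ V] {g : ℕ}

/-- The operator `v_s ↦ y_s v_s`. -/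
def dg (v : Module.Basis (Fin g) ℂ V) (y : Fin g → ℂ) : V →ₗ[ℂ] V :=
  v.constr ℂ fun s => y s • v s

theorem dg_self (v : Module.Basis (Fin g) ℂ V) (y : Fin g → ℂ) (s : Fin g) :
    dg v y (v s) = y s • v s := v.constr_basis ℂ _ s

theorem dg_repr (v : Module.Basis (Fin g) ℂ V) (y : Fin g → ℂ) (a : V) (s : Fin g) :
    v.repr (dg v y a) s = y s * v.repr a s := by
  have h : (v.coord s) ∘ₗ dg v y = y s • v.coord s := by
    refine v.ext fun t => ?_
    rw [LinearMap.comp_apply, dg_self, map_smul, LinearMap.smul_apply, v.coord_apply,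
      v.repr_self, smul_eq_mul, smul_eq_mul]
    rcases eq_or_ne t s with h | h
    · rw [h]
    · rw [Finsupp.single_eq_of_ne h.symm, mul_zero, mul_zero]
  exact LinearMap.congr_fun h a

theorem eq_dg (v : Module.Basis (Fin g) ℂ V) (y : Fin g → ℂ) (Z : V →ₗ[ℂ] V)
    (h : ∀ s, Z (v s) = y s • v s) : Z = dg v y :=
  v.ext fun s => by rw [h, dg_self]

theorem tr_dg (v : Module.Basis (Fin g) ℂ V) (y : Fin g → ℂ) :
    LinearMap.trace ℝ V ((dg v y).restrictScalars ℝ) = ∑ s, 2 * (y s).re := by
  rw [LinearMap.trace_eq_matrix_trace ℝ (Complex.basisOneI.smulTower v), Matrix.trace,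
    Fintype.sum_prod_type_right]
  refine Finset.sum_congr rfl fun s _ => ?_
  rw [Fin.sum_univ_two]
  simp only [Matrix.diag_apply, LinearMap.toMatrix_apply, Module.Basis.smulTower_repr,
    Module.Basis.smulTower_apply, LinearMap.restrictScalars_apply, map_smul, dg_self,
    Complex.coe_basisOneI, Complex.coe_basisOneI_repr, Finsupp.smul_apply, v.repr_self,
    Finsupp.single_eq_same, smul_eq_mul, mul_one]
  simp
  ring

end dg

/-- A real linear form which commutes with `i` is complex linear. -/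
theorem clin {V : Type} [NormedAddCommGroup V] [NormedSpace ℂ V] (a : V →ₗ[ℝ] ℂ)
    (h : ∀ x, a (Complex.I • x) = Complex.I * a x) (z : ℂ) (x : V) : a (z • x) = z * a x := by
  have hx : z • x = z.re • x + z.im • (Complex.I • x) := by
    conv_lhs => rw [← Complex.re_add_im z]
    rw [add_smul, mul_smul, ← Complex.coe_smul, ← Complex.coe_smul]
  rw [hx, map_add, map_smul, map_smul, h, Complex.real_smul, Complex.real_smul]
  conv_rhs => rw [← Complex.re_add_im z]
  ring

section cyc2

variable {T : AV} {m g : ℕ}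

theorem ZR_repr (D : Cyc T m) (v : Module.Basis (Fin g) ℂ T.V) (u : Fin g → (ZMod m)ˣ)
    (hZ : ∀ s, D.Z (v s) = zet m (u s) • v s) (k : ℕ) (a : T.V) (s : Fin g) :
    v.repr ((D.ZR ^ k) a) s = zet m (u s) ^ k * v.repr a s := by
  induction k with
  | zero => rw [pow_zero, pow_zero, one_mul, Module.End.one_apply]
  | succ k ih =>
    rw [pow_succ', Module.End.mul_apply]
    have h : D.ZR ((D.ZR ^ k) a) = dg v (fun s => zet m (u s)) ((D.ZR ^ k) a) := by
      rw [← eq_dg v (fun s => zet m (u s)) D.Z hZ]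
      rfl
    rw [h, dg_repr, ih, pow_succ']
    ring

/-- The operator `v_s ↦ i y_s v_s`. -/
def xy (v : Module.Basis (Fin g) ℂ T.V) (y : Fin g → ℝ) : Module.End ℝ T.V :=
  (dg v fun s => Complex.I * y s).restrictScalars ℝ

theorem xy_repr (v : Module.Basis (Fin g) ℂ T.V) (y : Fin g → ℝ) (a : T.V) (s : Fin g) :
    v.repr (xy v y a) s = Complex.I * y s * v.repr a s := dg_repr v _ a s

theorem xy_su (D : Cyc T m) (v : Module.Basis (Fin g) ℂ T.V) (u : Fin g → (ZMod m)ˣ)
    (hZ : ∀ s, D.Z (v s) = zet m (u s) • v s)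
    (hψ : ∀ a b, D.ψ a b = (∑ s, v.repr a s * (starRingEnd ℂ) (v.repr b s)).im)
    (y : Fin g → ℝ) (hy : ∀ k : ℕ, ∑ s, y s * (zet m (u s) ^ k).im = 0) : IsSU D (xy v y) := by
  refine ⟨⟨?_, ?_⟩, ?_⟩
  · intro a
    refine v.repr.injective (Finsupp.ext fun s => ?_)
    have h : ∀ b, v.repr (D.Z b) s = zet m (u s) * v.repr b s := by
      intro b
      rw [eq_dg v (fun s => zet m (u s)) D.Z hZ, dg_repr]
    rw [xy_repr, h, h, xy_repr]
    ring
  · intro a b
    rw [hψ, hψ, ← Complex.add_im, ← Finset.sum_add_distrib]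
    have h : ∀ s, v.repr (xy v y a) s * (starRingEnd ℂ) (v.repr b s) +
        v.repr a s * (starRingEnd ℂ) (v.repr (xy v y b) s) = 0 := by
      intro s
      rw [xy_repr, xy_repr, map_mul, map_mul, Complex.conj_I, Complex.conj_ofReal]
      ring
    rw [Finset.sum_congr rfl fun s _ => h s, Finset.sum_const_zero, Complex.zero_im]
  · intro k
    have h : xy v y * D.ZR ^ k =
        (dg v fun s => Complex.I * y s * zet m (u s) ^ k).restrictScalars ℝ := by
      refine LinearMap.ext fun a => v.repr.injective (Finsupp.ext fun s => ?_)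
      rw [Module.End.mul_apply, xy_repr, ZR_repr D v u hZ, LinearMap.restrictScalars_apply,
        dg_repr]
      ring
    rw [h, tr_dg]
    have h2 : ∀ s, 2 * (Complex.I * y s * zet m (u s) ^ k).re =
        -2 * (y s * (zet m (u s) ^ k).im) := by
      intro s
      rw [mul_assoc, Complex.I_mul_re, Complex.im_ofReal_mul]
      ring
    rw [Finset.sum_congr rfl fun s _ => h2 s, ← Finset.mul_sum, hy, mul_zero]

theorem card_p (D : Cyc T m) (hm : 3 ≤ m) (v : Module.Basis (Fin g) ℂ T.V)
    (u : Fin g → (ZMod m)ˣ) (hZ : ∀ s, D.Z (v s) = zet m (u s) • v s) (w : (ZMod m)ˣ) :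
    (univ.filter fun s => u s = w).card = D.p w := by
  classical
  unfold Cyc.p
  let F : Ws10 D w →ₗ[ℂ] ({s // u s = w} → ℂ) :=
    { toFun := fun a s => (a : Frm T) (v s)
      map_add' := fun _ _ => rfl
      map_smul' := fun _ _ => rfl }
  have hb : Function.Bijective F := by
    constructor
    · rw [injective_iff_map_eq_zero]
      intro a ha
      have h0 : ∀ s, (a : Frm T) (v s) = 0 := by
        intro s
        by_cases hs : u s = w
        · exact congrFun ha ⟨s, hs⟩
        · have h1 := a.2.1 (v s)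
          rw [hZ, clin _ a.2.2] at h1
          by_contra h2
          exact hs (zinj hm (mul_right_cancel₀ h2 h1))
      refine Subtype.ext (LinearMap.ext fun x => ?_)
      rw [← v.sum_repr x, map_sum]
      refine Finset.sum_eq_zero fun s _ => ?_
      rw [clin _ a.2.2, h0, mul_zero]
    · intro c
      let A : T.V →ₗ[ℂ] ℂ := v.constr ℂ fun s => if h : u s = w then c ⟨s, h⟩ else 0
      have hA : ∀ s, A (v s) = if h : u s = w then c ⟨s, h⟩ else 0 :=
        fun s => v.constr_basis ℂ _ s
      have hAZ : A ∘ₗ D.Z = zet m w • A := by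
        refine v.ext fun s => ?_
        rw [LinearMap.comp_apply, hZ, map_smul, LinearMap.smul_apply, hA]
        by_cases hs : u s = w
        · rw [dif_pos hs, congrArg (zet m) hs]
        · rw [dif_neg hs, smul_zero, smul_zero]
      refine ⟨⟨A.restrictScalars ℝ, fun x => LinearMap.congr_fun hAZ x,
        fun x => A.map_smul Complex.I x⟩, ?_⟩
      funext s
      change A (v s) = c s
      rw [hA, dif_pos s.2]
  rw [(LinearEquiv.ofBijective F hb).finrank_eq, Module.finrank_fintype_fun_eq_card,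
    Fintype.card_subtype]

end cyc2

end Jc_aux

end TATE
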