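import Pool.Agent.Lib.TATE.Asm.Spec

/-!
# PROJECT TATE, assembly: the data of the factors (`S_Pk`)
-/

set_option autoImplicit false

open Topology Metric

noncomputable section

namespace TATE

open HC HC.CC SEJ SEB SEQ

theorem tPk : StmtFA3 → S_Pk := by
  intro h3 p N s J γ d hs hB
  choose m Z r i k b hi hlt hm hr hcv hbal hcy hdim hmp A hA1 hA2 hA3 using hB
  have hcvb : ∀ n, Cvb (m n) (b n) := fun n => ⟨hm n, (hcv n).2.2⟩
  choose κ hκ1 hκ2 hκ3 hκ4 using fun n => h3 (J n) (m n) (r n) (Z n) (pt s (i n) (k n)) (b n) (γ n)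
    (hcvb n) (hcv n).2.1 (hcy n) (hdim n) (hmp n)
  have hndf : ∀ n, Ndf (m n) (b n) := fun n => by
    rcases hbal n with h | h
    · have h1 := h 1 (by have := hm n; omega) (Nat.coprime_one_left _)
      have h2 := hr n
      have h4 : 1 < m n := by have := hm n; omega
      refine ⟨1, h4, Nat.coprime_one_left _, ?_, ?_⟩ <;> omega
    · exact h.1
  refine ⟨⟨⟨m, r, i, k, b⟩, ⟨hi, hlt, hcvb, hr, hndf⟩, Z, hcy, hdim, hmp, κ, hκ2, hκ3, hκ4,
    ⋃ n, A n, Set.finite_iUnion hA1, fun a ha => ?_, fun n σ hσ => hA3 n σ ⟨hσ.1, fun a ha =>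
      hσ.2 a (Set.mem_iUnion.2 ⟨n, ha⟩)⟩⟩, fun n => (hbal n).imp id fun h => h.2⟩
  obtain ⟨n, hn⟩ := Set.mem_iUnion.1 ha
  exact hA2 n a hn

end TATE
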