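import Pool.Agent.Lib.TATE.Asm.Spec
import Pool.Agent.Lib.SE.Q.Rep

/-!
# PROJECT TATE, assembly, module Rep: representatives of isogeny classes
-/

set_option autoImplicit false

open Topology Metric

noncomputable section

namespace TATE

open HC HC.CC SEJ SEB SEQ

theorem tRep : S_Rep := by
  classical
  intro N J
  let r : Setoid (Fin N) :=
    { r := fun a b => Isg (J a) (J b)
      iseqv := ⟨fun a => SEQ.Rep_aux.isg_refl (J a),
        fun h => SEQ.Rep_aux.isg_symm HC.E.tIsoInv h,
        fun h h' => SEQ.Rep_aux.isg_trans h h'⟩ }
  let e : Quotient r ≃ Fin (Fintype.card (Quotient r)) := Fintype.equivFin (Quotient r)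
  refine ⟨Fintype.card (Quotient r), fun a => (e.symm a).out, fun n => e (Quotient.mk r n), ?_,
    ?_⟩
  · intro n
    have h1 : Quotient.mk r n = Quotient.mk r ((e.symm (e (Quotient.mk r n))).out) := by
      rw [Equiv.symm_apply_apply, Quotient.out_eq]
    exact Quotient.exact h1
  · intro a b hab h
    apply hab
    have h1 : Quotient.mk r (e.symm a).out = Quotient.mk r (e.symm b).out := Quotient.sound h
    rw [Quotient.out_eq, Quotient.out_eq] at h1
    exact e.symm.injective h1

end TATE
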