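import Pool.Agent.Lib.TATE.Iface2
import Pool.Agent.Lib.SE.N.Spec

/-!
# PROJECT TATE: assembly, Spec (helper64)

Every module `Xyz`: file `TATE/Asm/Xyz.lean`, `theorem tXyz : S_Xyz`, namespace `TATE`. Auxiliary lemmas in
`namespace TATE.Xyz_aux`. If the docstring says `From S_A, StmtB` the theorem is `tXyz : S_A → StmtB → S_Xyz`.
-/

set_option autoImplicit false

open Topology Metric

noncomputable section

namespace TATE

open HC HC.CC SEJ SEB SEQ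

/-! ## 1. Linear algebra -/

section lin

/-- `L` is a rational structure on `V`. -/
structure IsQ (V : Type) [NormedAddCommGroup V] [NormedSpace ℂ V] (L : Set V) : Prop where
  zero : (0 : V) ∈ L
  add : ∀ u ∈ L, ∀ v ∈ L, u + v ∈ L
  smul : ∀ x : ℚ, ∀ v ∈ L, (x : ℝ) • v ∈ L
  spn : Submodule.span ℝ L = ⊤
  ind : ∀ (n : ℕ) (x : Fin n → ℝ) (v : Fin n → V), LinearIndependent ℚ x → (∀ k, v k ∈ L) →
    ∑ k, x k • v k = 0 → ∀ k, v k = 0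

variable {V : Type} [NormedAddCommGroup V] [NormedSpace ℂ V]

/-- `c` has rational values on rational forms. -/
def Rtc (L : Set V) {d : ℕ} (c : Cl V d) : Prop :=
  ∀ a : Fin d → (V →ₗ[ℝ] ℂ), (∀ i, ∀ v ∈ L, ∃ x : ℚ, a i v = x) → ∃ x : ℚ, c a = x

/-- `c' = X c`. -/
def IsDr {d : ℕ} (X : V →ₗ[ℝ] V) (c c' : Cl V d) : Prop := ∀ a, c' a = der X c a

end lin

/-- **Dr**: THE LIE ALGEBRA ACTION. PROOF. (1) `c' = ∑_i c(update a i (a i ∘ X))` is multilinear (as `lieM`, HC/L/La.lean: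
`MultilinearMap.compLinearMap`) and alternating: if `a i = a j`, `i ≠ j`, the terms `k ≠ i, j` vanish and the terms
`i`, `j` cancel (`AlternatingMap.map_swap`). (2) The terms with two different indices are symmetric; the
diagonal terms are `c(update a i (a i ∘ X ∘ Y)) - c(update a i (a i ∘ Y ∘ X))`; (3), (4) linearity in `X`, `c`. (5) naturality:
`psh φ (X c) = X' (psh φ c)` if `X' φ = φ X`. -/
def S_Dr : Prop :=
  ∀ (V : Type) [NormedAddCommGroup V] [NormedSpace ℂ V] (d : ℕ),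
    (∀ (X : V →ₗ[ℝ] V) (c : Cl V d), ∃ c', IsDr X c c') ∧
    (∀ (X Y : V →ₗ[ℝ] V) (c c₁ c₂ c₃ c₄ : Cl V d), IsDr Y c c₁ → IsDr X c₁ c₂ → IsDr X c c₃ →
      IsDr Y c₃ c₄ → IsDr (X ∘ₗ Y - Y ∘ₗ X) c (c₂ - c₄)) ∧
    (∀ (X Y : V →ₗ[ℝ] V) (c a b : Cl V d) (x y : ℝ), IsDr X c a → IsDr Y c b →
      IsDr (x • X + y • Y) c ((x : ℂ) • a + (y : ℂ) • b)) ∧
    (∀ (X : V →ₗ[ℝ] V) (c c' a b : Cl V d) (x y : ℂ), IsDr X c a → IsDr X c' b →
      IsDr X (x • c + y • c') (x • a + y • b)) ∧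
    ∀ (V' : Type) [NormedAddCommGroup V'] [NormedSpace ℂ V'] (φ : V →ₗ[ℝ] V') (X : V →ₗ[ℝ] V)
      (X' : V' →ₗ[ℝ] V') (c c' : Cl V d), (∀ v, X' (φ v) = φ (X v)) → IsDr X c c' →
      IsDr X' (psh φ c) (psh φ c')

/-- **Rq**: RATIONAL CLASSES. PROOF. A `ℚ`-basis of `L` is linearly independent over `ℝ` (`ind`: write real
coefficients in a `ℚ`-basis of their span), so it is a real basis `b_i` of `V`, finite, and the coordinate
functions `b_i*` are rational on `L`; they span `V →ₗ[ℝ] ℂ` over `ℂ`. (1) a class is determined by its values on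
tuples of rational forms. (2) independence: `∑ x_k c_k(a) = 0`, `c_k(a)` rational. (3) `a_i ∘ X` is rational. (4) `a_i ∘ φ`. -/
def S_Rq : Prop :=
  ∀ (V : Type) [NormedAddCommGroup V] [NormedSpace ℂ V] [FiniteDimensional ℂ V] (L : Set V)
    (d : ℕ), IsQ V L →
    (∀ c c' : Cl V d, (∀ a : Fin d → (V →ₗ[ℝ] ℂ), (∀ i, ∀ v ∈ L, ∃ x : ℚ, a i v = x) →
      c a = c' a) → c = c') ∧
    (∀ (n : ℕ) (x : Fin n → ℝ) (c : Fin n → Cl V d), LinearIndependent ℚ x →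
      (∀ k, Rtc L (c k)) → ∑ k, (x k : ℂ) • c k = 0 → ∀ k, c k = 0) ∧
    (∀ (X : V →ₗ[ℝ] V) (c c' : Cl V d), (∀ v ∈ L, X v ∈ L) → Rtc L c → IsDr X c c' →
      Rtc L c') ∧
    (∀ (c c' : Cl V d) (x y : ℚ), Rtc L c → Rtc L c' → Rtc L ((x : ℂ) • c + (y : ℂ) • c')) ∧
    ∀ (V' : Type) [NormedAddCommGroup V'] [NormedSpace ℂ V'] (φ : V ≃ₗ[ℝ] V') (L' : Set V')
      (c : Cl V d), φ '' L = L' → Rtc L c → Rtc L' (psh (φ : V →ₗ[ℝ] V') c)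

/-! ## 2. The Lie algebra step -/

section lie

variable {q q' : ℕ} {R : Fin q → AV} {R' : Fin q' → AV} {m : Fin q → ℕ} {m' : Fin q' → ℕ}

/-- A `ℚ`-Lie algebra of pairs of rational tuples in `∏ u` whose real span contains `i`. -/
structure HLP (E : ∀ n, Cyc (R n) (m n)) (E' : ∀ n, Cyc (R' n) (m' n))
    (h : Set (Tup R × Tup R')) : Prop where
  rat : ∀ X ∈ h, (∀ n, RatEnd (R n) (X.1 n)) ∧ ∀ n, RatEnd (R' n) (X.2 n)
  u : ∀ X ∈ h, (∀ n, IsU (E n) (X.1 n)) ∧ ∀ n, IsU (E' n) (X.2 n)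
  zero : (0 : Tup R × Tup R') ∈ h
  add : ∀ X ∈ h, ∀ Y ∈ h, X + Y ∈ h
  smul : ∀ x : ℚ, ∀ X ∈ h, (x : ℝ) • X ∈ h
  br : ∀ X ∈ h, ∀ Y ∈ h, X * Y - Y * X ∈ h
  J : ((JT R, JT R') : Tup R × Tup R') ∈ Submodule.span ℝ h

/-- `A` is a rational representation of the tuples, the tuple `i` acts as `i`. -/
structure IsRp {W : Type} [NormedAddCommGroup W] [NormedSpace ℂ W] (L : Set W)
    (A : Tup R → (W →ₗ[ℝ] W)) : Prop where
  add : ∀ X Y, A (X + Y) = A X + A Y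
  smul : ∀ (x : ℝ) X, A (x • X) = x • A X
  mul : ∀ X Y, A (X * Y) = A X ∘ₗ A Y
  J : A (JT R) = jm W
  rat : ∀ X, (∀ n, RatEnd (R n) (X n)) → ∀ v ∈ L, A X v ∈ L

end lie

/-- **Jrt**: `i` IS A REAL COMBINATION OF RATIONAL SKEW ENDOMORPHISMS, with coefficients independent over `ℚ`.
PROOF. One variety: `tHr` (SE/R/Hr.lean) says that `{X | RatEnd T X ∧ IsU D X}` is an `HLie`, so it contains `mulI T` in its real
span; tuples: sum over the components (`Pi.single`); pairs in the same way; then `SEN.S_n0` (proved: SE/N) for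
`h = {rational pairs in ∏ u}`. -/
def S_Jrt : Prop :=
  ∀ (q q' : ℕ) (R : Fin q → AV) (R' : Fin q' → AV) (m : Fin q → ℕ) (m' : Fin q' → ℕ)
    (E : ∀ n, Cyc (R n) (m n)) (E' : ∀ n, Cyc (R' n) (m' n)),
    ∃ (n : ℕ) (x : Fin n → ℝ) (Y : Fin n → Tup R × Tup R'), LinearIndependent ℚ x ∧
      (∀ k, ((∀ n, RatEnd (R n) ((Y k).1 n)) ∧ ∀ n, RatEnd (R' n) ((Y k).2 n)) ∧
        (∀ n, IsU (E n) ((Y k).1 n)) ∧ ∀ n, IsU (E' n) ((Y k).2 n)) ∧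
      ((JT R, JT R') : Tup R × Tup R') = ∑ k, x k • Y k

/-- **Lsa**: THE LIE ALGEBRA STEP. From S_Dr, S_Rq, S_Jrt. PROOF. `h` = the set of the `(X, X')`, rational, in `∏ u`, such that
for all `c ∈ I`, `c₁ = A X c`: `c₁ ∈ I` and `A' X' (φ_* c) = φ_* c₁`. It is closed under `+`, `ℚ`, brackets (`S_Dr`).
`(i, i) = ∑ x_k (Y_k, Y'_k)` (`S_Jrt`). For `c ∈ I`: `i c = ∑ x_k A(Y_k) c`, the `A(Y_k) c` are rational, so they are in `I`
(hypothesis). `i (φ_* c) = φ_* (i c)` (`JC`), so `∑ x_k (A'(Y'_k) φ_* c - φ_* A(Y_k) c) = 0`, and these classes are rational for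
`L'`, so each is `0` (`S_Rq`). So `(Y_k, Y'_k) ∈ h`, `HLP h`. By hypothesis `(X, 0) = ∑ y_l (X_l, X'_l)`, `(X_l, X'_l) ∈ h`, so for `c ∈ I`:
`φ_* (A(X) c) = ∑ y_l φ_* A(X_l) c = ∑ y_l A'(X'_l) φ_* c = A'(0) φ_* c = 0`, and `φ_*` is injective. -/
def S_Lsa : Prop :=
  ∀ (W : Type) [NormedAddCommGroup W] [NormedSpace ℂ W] [FiniteDimensional ℂ W] (L L' : Set W),
    IsQ W L → IsQ W L' → ∀ φ : W ≃ₗ[ℝ] W, φ '' L = L' →
    ∀ (d : ℕ) (I : Set (Cl W d)), (∀ c ∈ I, Rtc L c) → 0 ∈ I →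
    (∀ c ∈ I, ∀ c' ∈ I, c + c' ∈ I) → (∀ x : ℚ, ∀ c ∈ I, (x : ℂ) • c ∈ I) →
    (∀ c ∈ I, JC (φ : W →ₗ[ℝ] W) c) →
    (∀ c ∈ I, ∀ c', IsDr (jm W) c c' → ∀ (n : ℕ) (x : Fin n → ℝ) (e : Fin n → Cl W d),
      LinearIndependent ℚ x → (∀ k, Rtc L (e k)) → c' = ∑ k, (x k : ℂ) • e k → ∀ k, e k ∈ I) →
    ∀ (q q' : ℕ) (R : Fin q → AV) (R' : Fin q' → AV) (m : Fin q → ℕ) (m' : Fin q' → ℕ)
      (E : ∀ n, Cyc (R n) (m n)) (E' : ∀ n, Cyc (R' n) (m' n)),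
      (∀ h, HLP E E' h → ∀ X : Tup R, (∀ n, IsSU (E n) (X n)) →
        ((X, 0) : Tup R × Tup R') ∈ Submodule.span ℝ h) →
      ∀ (A : Tup R → (W →ₗ[ℝ] W)) (A' : Tup R' → (W →ₗ[ℝ] W)), IsRp L A → IsRp L' A' →
      ∀ c ∈ I, ∀ X : Tup R, (∀ n, IsSU (E n) (X n)) → ∀ a, der (A X) c a = 0

/-- **Rep**: REPRESENTATIVES. PROOF. `Isg` is an equivalence relation (`HC.E.tIsoInv`, see SE/Q/Rep.lean). -/
def S_Rep : Prop :=
  ∀ (N : ℕ) (J : Fin N → AV), ∃ (q : ℕ) (ρ : Fin q → Fin N) (j : Fin N → Fin q),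
    (∀ n, Isg (J n) (J (ρ (j n)))) ∧ ∀ a b, a ≠ b → ¬ Isg (J (ρ a)) (J (ρ b))

/-- **Rp**: THE REPRESENTATION. PROOF. `f n : (J n).V ≃ (R (j n)).V` the isogeny;
`(A X v) n = κ n (f n⁻¹ (X (j n) (f n (κ n⁻¹ (v n)))))`. `Rt` is preserved by `f n` and by its inverse (`HC.E.tIsoInv`), and by rational
endomorphisms. -/
def S_Rp : Prop :=
  ∀ (p N : ℕ) (D : Dt p N) (s : Fin p → ℂ) (J : Fin N → AV)
    (κ : ∀ n, (J n).V ≃ₗ[ℂ] (Ix (D.m n) (D.b n) → ℂ)),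
    (∀ n, κ n '' {v | Rt (J n) v} = LQ (D.m n) (D.b n) (D.t s n)) →
    ∀ (q : ℕ) (R : Fin q → AV) (j : Fin N → Fin q), (∀ n, Isg (J n) (R (j n))) →
    ∃ (θ : ∀ n, (Ix (D.m n) (D.b n) → ℂ) ≃ₗ[ℂ] (R (j n)).V) (A : Tup R → (D.V →ₗ[ℝ] D.V)),
      (∀ X v n, θ n (A X v n) = X (j n) (θ n (v n))) ∧ IsRp (D.L s) A

/-- **Ht**: THE LIE ALGEBRA OF VERY GENERAL BALANCED NEW PARTS. PROOF. Compare `SEN.finN_of`, `gdN_of_gd` (SE/N/Fn.lean). `SET.tJng`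
for `MMk` (`mmk_meagre`) gives `X p`. For a factor: `IsNew → New` (SE/CC/New.lean), `D` = `E n` from `tAvg` (as in SE/L/Dt.lean), `HypW`
holds (`Bal`, `r ≥ 3`: `0 < r / 2 < r`), `pt s i k ∉ MMk m r b`, so `SEB.gfw_of_MMx` (SE/Big/Gw.lean): `GFw D r` and `D.p u = sg m r b u = r / 2` for
all `u`. Pairs: `Isg ∨ Ind` from the last part of `SET.tJng`. `IsHitN (triv D)` from `IsHit` (as in `gdN_of_gd`), so `HTN (triv)` by `SEN.S_n8`
(proved, SE/N/All.lean); `SEN.tn9` (`S_n9`) for the tuple `X` (`X n = i` or `0`), which is in `∏ su` (the traces of `i Z^k` vanish because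
`D.p u = D.p (-u)`; compare SE/Big for the trace in terms of the eigenspaces) and in `CT` (`Θ g = id`). -/
def S_Ht : Prop :=
  ∃ X : (p : ℕ) → Set (Fin p → ℂ), (∀ p, IsMeagre (X p)) ∧ ∀ (p : ℕ) (s : Fin p → ℂ), s ∉ X p →
    ∀ (q : ℕ) (D : Dt p q), D.ok → ∀ (R : Fin q → AV) (Z : ∀ n, (R n).V → (R n).V),
    (∀ n, IsNew (R n) (D.m n) (Z n) (D.t s n) (D.b n)) →
    (∀ n n', n ≠ n' → ¬ Isg (R n) (R n')) →
    ∃ E : ∀ n, Cyc (R n) (D.m n), (∀ n (u : (ZMod (D.m n))ˣ), (E n).p u =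
        sg (D.m n) (D.r n) (D.b n) (u : ZMod (D.m n)).val) ∧
      ∀ h, HLieT E h → ∀ X : Tup R, (∀ n, IsSU (E n) (X n)) → X ∈ Submodule.span ℝ (ComT h)

/-- **Ht2**: TWO POINTS. From S_Ht. PROOF. `(s, s') ↦ Fin.append s s'` is a homeomorphism; the indices of the second point are
shifted by `p` (`Fin.natAdd`), `pt (append s s') (natAdd ∘ i) (k.map natAdd) = pt s' i k`. The family indexed by `Fin (q + q')`
(`Fin.addCases`). -/
def S_Ht2 : Prop :=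
  ∀ p : ℕ, ∃ X : Set ((Fin p → ℂ) × (Fin p → ℂ)), IsMeagre X ∧ ∀ x ∉ X, ∀ (q q' : ℕ)
    (D : Dt p q) (D' : Dt p q'), D.ok → D'.ok → ∀ (R : Fin q → AV) (R' : Fin q' → AV)
    (Z : ∀ n, (R n).V → (R n).V) (Z' : ∀ n, (R' n).V → (R' n).V),
    (∀ n, IsNew (R n) (D.m n) (Z n) (D.t x.1 n) (D.b n)) →
    (∀ n, IsNew (R' n) (D'.m n) (Z' n) (D'.t x.2 n) (D'.b n)) →
    (∀ n n', n ≠ n' → ¬ Isg (R n) (R n')) → (∀ n n', n ≠ n' → ¬ Isg (R' n) (R' n')) →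
    (∀ n n', ¬ Isg (R n) (R' n')) →
    ∃ (E : ∀ n, Cyc (R n) (D.m n)) (E' : ∀ n, Cyc (R' n) (D'.m n)),
      (∀ n (u : (ZMod (D.m n))ˣ), (E n).p u =
        sg (D.m n) (D.r n) (D.b n) (u : ZMod (D.m n)).val) ∧
      ∀ h, HLP E E' h → ∀ X : Tup R, (∀ n, IsSU (E n) (X n)) →
        ((X, 0) : Tup R × Tup R') ∈ Submodule.span ℝ h

/-- **Coc**: FLAT TRANSPORT is unique. PROOF. `t'' ↦ τ t t''⁻¹ (τ t' t'' (τ t t' v))`, `v ∈ LZ`, is continuous on the convex set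
`ball t ρ ∩ ball t' ρ'` with values in the countable set `LZ t`, so it is constant (a connected countable
metric space is a point), `= v` at `t'' = t'`; `LZ t` spans. -/
def S_Coc : Prop :=
  ∀ (m r : ℕ) (b : Fin (r + 1) → ℕ) (Φ : FamD m b) (t t' t'' : Fin (r + 1) → ℂ),
    Function.Injective t → t' ∈ ball t (Φ.ρ t) → t'' ∈ ball t (Φ.ρ t) → t'' ∈ ball t' (Φ.ρ t') →
    ∀ v, Φ.τ t' t'' (Φ.τ t t' v) = Φ.τ t t'' v

/-- **Ni**: NO ISOGENIES between the new parts at two very general points. From StmtFA1, StmtFA3, StmtFA5, S_Coc.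
PROOF. Countably many data; countably many pairs of balls `B × B'` (rational centres `c`, `c'`, radius so small that
`pt` maps them into the domains of the transports) cover all pairs of injective points. An isogeny is a
complex linear `Ψ : V → V'` with `Ψ LQ(t) = LQ(t')` (`StmtFA3`), it corresponds to a real linear `Λ` with `Λ LQ(t(c)) = LQ(t'(c'))`: countably
many. `C_Λ = {(s, s') ∈ B × B' | τ' Λ τ⁻¹ is complex linear}` is relatively closed (`hol`: continuity). If `C_Λ` contains an open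
set `U × U'`, then for `s'_1, s'_2 ∈ U'` the transport from `s'_1` to `s'_2` is complex linear (`S_Coc`), and `s' ↦ pt s' i k` is open at
`s'_1`: contradiction to `StmtFA5` (balanced, `r ≥ 3`, so `0 < r / 2 < r`). -/
def S_Ni : Prop :=
  ∀ p : ℕ, ∃ X : Set ((Fin p → ℂ) × (Fin p → ℂ)), IsMeagre X ∧ ∀ x ∉ X, ∀ (N N' : ℕ)
    (D : Dt p N) (D' : Dt p N'), D.ok → D'.ok → ∀ n n' (R R' : AV) (Z : R.V → R.V)
    (Z' : R'.V → R'.V), IsNew R (D.m n) Z (D.t x.1 n) (D.b n) →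
    IsNew R' (D'.m n') Z' (D'.t x.2 n') (D'.b n') → ¬ Isg R R'

/-- **Ku**: KURATOWSKI-ULAM. PROOF. `K` closed with empty interior, `B` in a countable base: `{s | {s} × B ⊆ K}` is closed with
empty interior; their union contains the `s` for which `K_s` is not nowhere dense. -/
def S_Ku : Prop :=
  ∀ (p : ℕ) (X : Set ((Fin p → ℂ) × (Fin p → ℂ))), IsMeagre X →
    IsMeagre {s : Fin p → ℂ | ¬ IsMeagre {s' | (s, s') ∈ X}}

/-! ## 3. Families on lines -/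

section gc

variable {p N : ℕ}

/-- `c` belongs to a finite flat family on every line through `s`. -/
def GC (Φ : FF) (D : Dt p N) (h : D.ok) (s : Fin p → ℂ) {d : ℕ} (c : Cl D.V d) : Prop :=
  Rtc (D.L s) c ∧ ∀ (w : Fin p → ℂ) (M : Fml D.V (Bd s w)), IsLn Φ D h s w M →
    ∃ O, IsFF M O ∧ c ∈ O 0

end gc

/-- **Av**: THE NEW PARTS exist; the lattice is a rational structure. From StmtFA3, StmtFA4. PROOF. `D.t s n` is injective;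
`StmtFA4` gives `IsNew`, so there is `γ` with `IsMp`, `StmtFA3` gives `κ`. `IsQ`: for `T : AV` the set `Rt T` is a rational
structure (`RatSp_aux.lat_basis`, SE/Big/RatSp.lean); products. -/
def S_Av : Prop :=
  ∀ (p N : ℕ) (D : Dt p N) (s : Fin p → ℂ), D.ok → Function.Injective s →
    (∀ n, Function.Injective (D.t s n)) ∧ IsQ D.V (D.L s) ∧
    ∃ (J : Fin N → AV) (Z : ∀ n, (J n).V → (J n).V)
      (κ : ∀ n, (J n).V ≃ₗ[ℂ] (Ix (D.m n) (D.b n) → ℂ)),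
      (∀ n, IsNew (J n) (D.m n) (Z n) (D.t s n) (D.b n)) ∧
      ∀ n, κ n '' {v | Rt (J n) v} = LQ (D.m n) (D.b n) (D.t s n)

/-- **Gc1**: A `ℚ`-SPACE. From S_Rq, S_Av. PROOF. The families `{0}`, `{x a + y b | a ∈ O z, b ∈ O' z}` are finite and flat. -/
def S_Gc1 : Prop :=
  ∀ (Φ : FF) (p N : ℕ) (D : Dt p N) (h : D.ok) (s : Fin p → ℂ), Function.Injective s →
    ∀ d : ℕ, GC Φ D h s (0 : Cl D.V d) ∧ ∀ (c c' : Cl D.V d) (x y : ℚ), GC Φ D h s c →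
      GC Φ D h s c' → GC Φ D h s ((x : ℂ) • c + (y : ℂ) • c')

/-- **Gc2**: STABLE UNDER `i`. From S_Rq, S_Av, StmtFP, StmtPA1, StmtPA3, StmtPA4. PROOF. `c ∈ O 0`. For a loop `γ` at `0`
outside `Bd s w` with transport `φ` (`F = Bd s w`, `D = ∅` in `StmtPA3`): `psh φ c ∈ O 0` and `JC φ c` (`StmtPA4`), so
`psh φ c' = i (psh φ c)` takes finitely many values; `psh φ c' = ∑ x_k psh φ (e k)`, the `psh φ (e k)` are rational (`StmtPA1`: `φ 1` maps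
`M.L 0` to itself), so they are determined by `psh φ c'` (`S_Rq`, difference of two such expressions). So the orbit
of `e k` is finite: `StmtPA3`. -/
def S_Gc2 : Prop :=
  ∀ (Φ : FF) (p N : ℕ) (D : Dt p N) (h : D.ok) (s : Fin p → ℂ), Function.Injective s →
    ∀ (d : ℕ) (c c' : Cl D.V d), GC Φ D h s c → IsDr (jm D.V) c c' →
    ∀ (n : ℕ) (x : Fin n → ℝ) (e : Fin n → Cl D.V d), LinearIndependent ℚ x →
      (∀ k, Rtc (D.L s) (e k)) → c' = ∑ k, (x k : ℂ) • e k → ∀ k, GC Φ D h s (e k)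

/-- **Gc3**: NEAR `s`. From StmtFP, StmtPA1, StmtPA4, StmtFL. PROOF. `s' ∈ ball s ε`: all points of the segment are injective;
`w = s' - s`, `M` from `StmtFL`, `γ t = t` is a path outside `Bd s w` from `0` to `1`, `φ` = the transport at `1` (`StmtPA1`), which maps
`M.L 0 = D.L s` to `M.L 1 = D.L s'`; `JC` from `StmtPA4`. -/
def S_Gc3 : Prop :=
  ∀ (Φ : FF) (p N : ℕ) (D : Dt p N) (h : D.ok) (s : Fin p → ℂ), Function.Injective s →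
    ∃ ε > 0, ∀ s' ∈ ball s ε, Function.Injective s' ∧ ∃ φ : D.V ≃ₗ[ℝ] D.V,
      φ '' D.L s = D.L s' ∧ ∀ (d : ℕ) (c : Cl D.V d), GC Φ D h s c →
        JC (φ : D.V →ₗ[ℝ] D.V) c

/-- **Jc**: `i` KILLS A CLASS OF DEGREE `d` WHICH IS KILLED BY `∏ su`, if every factor is balanced or has rank `r i > d`.
Statement and proof: the same as in Asm/JcSpec.lean. -/
def S_Jc : Prop :=
  ∀ (N : ℕ) (K : Fin N → Type) [∀ n, NormedAddCommGroup (K n)] [∀ n, NormedSpace ℂ (K n)]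
    [∀ n, FiniteDimensional ℂ (K n)] (q : ℕ) (R : Fin q → AV) (m r : Fin q → ℕ)
    (E : ∀ i, Cyc (R i) (m i)) (j : Fin N → Fin q) (θ : ∀ n, K n ≃ₗ[ℂ] (R (j n)).V)
    (A : Tup R → ((∀ n, K n) →ₗ[ℝ] (∀ n, K n))),
    (∀ X v n, θ n (A X v n) = X (j n) (θ n (v n))) →
    (∀ i, 3 ≤ m i) → (∀ i, 2 * Module.finrank ℂ (R i).V = r i * (m i).totient) →
    ∀ d : ℕ, (∀ i, (∀ u, (E i).p u = (E i).p (-u)) ∨ d < r i) →
    ∀ c : Cl (∀ n, K n) d, (∀ X : Tup R, (∀ i, IsSU (E i) (X i)) → ∀ a, der (A X) c a = 0) →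
    ∀ a, der (jm (∀ n, K n)) c a = 0

/-- **Ls**: `i` KILLS THE CLASSES WITH FINITE FLAT FAMILIES. From S_Lsa, S_Rep, S_Rp, S_Ht2, S_Ni, S_Ku, S_Av, S_Gc1, S_Gc2, S_Gc3, S_Jc.
PROOF. `X p = {s | {s' | (s, s') ∈ X₂} not meagre} ∪ {s not injective}`, `X₂` = the union of the meagre sets of `S_Ht2`, `S_Ni`. For
`s ∉ X p`: the set of the good `s'` is comeagre, hence dense (Baire): choose `s'` in the ball of `S_Gc3`. `J`, `κ` for `s` and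
`J'`, `κ'` for `s'` (`S_Av`), representatives (`S_Rep`), the data of the representatives are
`⟨m ∘ ρ, r ∘ ρ, …⟩`; `S_Ht2` and `S_Ni` give the hypothesis of `S_Lsa` with `I = {c | GC c}`, `A`, `A'` from `S_Rp`; then `S_Jc`. -/
def S_Ls : Prop :=
  ∀ Φ : FF, ∃ X : (p : ℕ) → Set (Fin p → ℂ), (∀ p, IsMeagre (X p)) ∧
    ∀ (p : ℕ) (s : Fin p → ℂ), s ∉ X p → Function.Injective s ∧
    ∀ (N : ℕ) (D : Dt p N) (h : D.ok) (d : ℕ), (∀ n, Bal (D.m n) (D.b n) ∨ d < D.r n) →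
      ∀ c : Cl D.V d, GC Φ D h s c → ∀ a, der (jm D.V) c a = 0

/-! ## 4. The data of the theorem -/

/-- The data of the factors `J n`. -/
structure Pk {p N : ℕ} (s : Fin p → ℂ) {J : Fin N → AV} (γ : ∀ n, Cur (J n)) where
  D : Dt p N
  ok : D.ok
  Z : ∀ n, (J n).V → (J n).V
  cy : ∀ n, IsCy (J n) (D.m n) (Z n)
  dim : ∀ n, 2 * Module.finrank ℂ (J n).V = D.r n * (D.m n).totient
  mp : ∀ n, IsMp (J n) (D.m n) (Z n) (D.t s n) (D.b n) (γ n)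
  κ : ∀ n, (J n).V ≃ₗ[ℂ] (Ix (D.m n) (D.b n) → ℂ)
  om : ∀ n, ∀ x ∉ (γ n).S, ∀ y, (γ n).P (x, y) = 0 →
    κ n ((γ n).ω x y) = TATE.om (D.m n) (D.b n) (D.t s n) (x, y)
  rt : ∀ n, κ n '' {v | Rt (J n) v} = LQ (D.m n) (D.b n) (D.t s n)
  al : ∀ n P Q v, Itg (D.m n) (D.b n) (D.t s n) P Q v →
    ∃ l, In (J n) l ∧ κ n ((γ n).α Q.1 Q.2 - (γ n).α P.1 P.2) - v = κ n l
  A : Set ℂ
  fin : A.Finite
  alg : ∀ a ∈ A, AlgO s a
  mod : ∀ n, IsMod s (γ n) A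

/-- **Pk**: THE DATA. From StmtFA3. PROOF. `choose` in `IsBn`; `A` = the union of the `A n`; `IsMod s γ A → IsMod s γ A'` for
`A ⊆ A'`; `IsCv m t b` with `3 ≤ m` is `Cvb m b` and `t` injective. -/
def S_Pk : Prop :=
  ∀ (p N : ℕ) (s : Fin p → ℂ) (J : Fin N → AV) (γ : ∀ n, Cur (J n)) (d : ℕ),
    Function.Injective s → (∀ n, IsBn s d (γ n)) →
    ∃ P : Pk s γ, ∀ n, Bal (P.D.m n) (P.D.b n) ∨ d < P.D.r n

/-- **Pg**: THE ISOMORPHISM `T.V → D.V`. PROOF. Linear and bijective (`IsPr`); `G (Rt T) ⊆ D.L s` (`rt`), and both are rational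
structures of the same real space (lattices of the same rank), so they are equal. -/
def S_Pg : Prop :=
  ∀ (p N : ℕ) (s : Fin p → ℂ) (J : Fin N → AV) (γ : ∀ n, Cur (J n)) (P : Pk s γ) (T : AV)
    (g : ∀ n, T.V → (J n).V), IsPr g →
    ∃ G : T.V ≃ₗ[ℂ] P.D.V, (∀ v n, G v n = P.κ n (g n v)) ∧ G '' {v | Rt T v} = P.D.L s

section gal

variable {p N : ℕ} {s : Fin p → ℂ} {J : Fin N → AV} {γ : ∀ n, Cur (J n)}

/-- `η` is at every finite level `ℓ ^ k` the action of an automorphism `σ` of `ℂ` which fixes `s`, `A`, `B` and the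
`ℓ ^ k`-th roots of unity. -/
def IsGal (P : Pk s γ) (ℓ : ℕ) (B : Set ℂ)
    (η : ∀ n, (Ix (P.D.m n) (P.D.b n) → ℂ) ≃ₗ[ℝ] (Ix (P.D.m n) (P.D.b n) → ℂ)) : Prop :=
  ∀ k : ℕ, ∃ σ ∈ Fix s (B ∪ P.A), (∀ ξ : ℂ, ξ ^ ℓ ^ k = 1 → σ ξ = ξ) ∧
    ∀ (n : Fin N) (v : (J n).V), In (J n) v → In (J n) ((P.κ n).symm (η n (P.κ n v))) ∧
      GR (γ n) σ (mu ((ℓ : ℂ) ^ k)⁻¹ v) (mu ((ℓ : ℂ) ^ k)⁻¹ ((P.κ n).symm (η n (P.κ n v))))

end gal

/-- **Rc**: THE RATIONAL COMPONENTS of a Tate class (`c = ∑ x_k C_k`), invariant under all `η` as in `IsGal`.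
From StmtTO. (helper4 writes the modules.) PROOF. (a) `GR` is additive (concatenation of divisors); for `σ ∈ Fix s A` it is
a well defined additive relation on `V / L` (`IsMod`), everywhere defined on torsion points (`StmtTO`, `P.al`). (b) For
`f : H1 J ℓ` integral and `σ ∈ Fix s A` there is `f'` with `IsAct γ σ ℓ f f'`: for `v ∈ L`, `k`: `v'_k ∈ L` with `GR σ (v/ℓ^k) (v'_k/ℓ^k)`; `f' v = lim f(v'_k)`.
`IsCh σ ℓ χ` exists: `σ ξ_k = ξ_k ^ a_k`, `χ = lim a_k`. (c) `c` is a polynomial in the values on a basis, so it is continuous.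
For `η` as in `IsGal` and `f`, `f_η := f ∘ κ⁻¹ η κ`: the `f'_k` of `σ_k` satisfy `‖f'_k v - f_η v‖ ≤ ℓ^-k`, `‖χ_k - 1‖ ≤ ℓ^-k`, so in the limit
`c F_η = c F` for pull backs `F`, `F_η` of integral `f`, `f_η`; by multilinearity for all `F`: `c` is invariant under `h = G⁻¹ η G`
(`h` preserves `Rt T`). (d) `C_k`: `x_k` a `ℚ`-basis of the `ℚ`-span of the values of `c` on tuples of dual basis vectors of
`T.L`. (e) `∑ x_k (C_k(a ∘ h) - C_k(a)) = 0` for rational `a`, so `C_k(a ∘ h) = C_k(a)`: `psh φ (psh G C_k) = psh G C_k`. -/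
def S_Rc : Prop :=
  ∀ (p N : ℕ) (s : Fin p → ℂ) (J : Fin N → AV) (γ : ∀ n, Cur (J n)), Function.Injective s →
    ∀ (P : Pk s γ) (T : AV) (g : ∀ n, T.V → (J n).V), IsPr g → ∀ G : T.V ≃ₗ[ℂ] P.D.V,
    (∀ v n, G v n = P.κ n (g n v)) → G '' {v | Rt T v} = P.D.L s →
    ∀ (ℓ : ℕ) [Fact ℓ.Prime] (i : ℕ) (c : HL T ℓ (2 * i)), IsTate s γ g ℓ i c →
    ∃ (B : Set ℂ) (n : ℕ) (x : Fin n → ℚ_[ℓ]) (C : Fin n → Hlg T (2 * i)), B.Finite ∧
      (∀ a ∈ B, AlgO s a) ∧ (∀ k, Rtc {v | In T v} (C k)) ∧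
      (∀ (a : Fin (2 * i) → F1 T) (f : Fin (2 * i) → H1 T ℓ),
        (∀ j (v : T.L), ∃ q : ℚ, ev (a j) v = q ∧ f j v = q) →
        ∃ q : Fin n → ℚ, (∀ k, itg (C k) a = q k) ∧ c f = ∑ k, x k * q k) ∧
      ∀ η : ∀ n, (Ix (P.D.m n) (P.D.b n) → ℂ) ≃ₗ[ℝ] (Ix (P.D.m n) (P.D.b n) → ℂ),
        IsGal P ℓ B η → ∀ (k : Fin n) (φ : P.D.V ≃ₗ[ℝ] P.D.V), (∀ v n, φ v n = η n (v n)) →
        psh (φ : P.D.V →ₗ[ℝ] P.D.V) (psh ((G : T.V →ₗ[ℂ] P.D.V).restrictScalars ℝ) (C k)) =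
          psh ((G : T.V →ₗ[ℂ] P.D.V).restrictScalars ℝ) (C k)

/-- **Cmp**: THE TRANSPORT IS COMPONENTWISE. PROOF. `{t ∈ [0, 1] | for all n, v, v': v n = v' n → φ t v n = φ t v' n and
(φ t)⁻¹ …}` is open and closed (`IsTr.loc`, `IsLn.τ`); `η n x = φ 1 (Pi.single n x) n`. -/
def S_Cmp : Prop :=
  ∀ (Φ : FF) (p N : ℕ) (D : Dt p N) (h : D.ok) (s w : Fin p → ℂ) (M : Fml D.V (Bd s w)),
    IsLn Φ D h s w M → ∀ (γ : ℝ → ℂ) (z z' : ℂ), IsPth (Bd s w) γ z z' → ∀ φ, IsTr M γ φ →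
    ∃ η : ∀ n, (Ix (D.m n) (D.b n) → ℂ) ≃ₗ[ℝ] (Ix (D.m n) (D.b n) → ℂ),
      ∀ v n, φ 1 v n = η n (v n)

/-- **Mg**: THE LOOPS WHICH FIX `B ∪ A` ARE GALOIS. From StmtMG, StmtTO, StmtGA5, StmtPA1, S_Cmp. PROOF. `y_A` = the elements of
`B ∪ P.A`. For every `k` and all `n` and all `v` in a `ℤ`-basis of `(J n).L`: `StmtTO` for `v` and for `v / ℓ^k`; `y_k` = `y_A`, a primitive `ℓ^k`-th root
of unity, all these coordinates. `D₀` = the union of the sets of `StmtMG` for the `y_k` and of the set of `StmtGA5` for `y_A`; `e` from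
`StmtGA5`. A loop with `e γ = y_A`: for every `k` the continuation of `y_k` contains a continuation of `y_A`, whose end value is `e γ`, so
`σ` fixes `B ∪ A`; the root of unity is constant along the path (continuous with values in a finite set). `κ v = ∑ u_a` gives
`η (κ v) = ∑ u'_a`, so `GR σ v (κ⁻¹ η κ v)` (`P.al` at both ends, `P.mp`), `IsMod`: `κ⁻¹ η κ v ∈ L`; the same for `v / ℓ^k`; then for all `v ∈ L` by
additivity of `GR`. (2) is `StmtGA5`. (3): the end values are conjugates of `y_A` (`StmtMG`: `σ y`), so there are finitely many.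
`s` algebraically independent: `StmtMG`. The set `X p`: countably many `(N, D)`. -/
def S_Mg : Prop :=
  ∀ Φ : FF, ∃ X : (p : ℕ) → Set (Fin p → ℂ), (∀ p, IsMeagre (X p)) ∧
    ∀ (p : ℕ) (s : Fin p → ℂ), s ∉ X p → Function.Injective s ∧
    ∀ (N : ℕ) (J : Fin N → AV) (γ : ∀ n, Cur (J n)) (P : Pk s γ) (ℓ : ℕ) [Fact ℓ.Prime]
      (B : Set ℂ), B.Finite → (∀ a ∈ B, AlgO s a) →
    ∀ (w : Fin p → ℂ) (M : Fml P.D.V (Bd s w)), IsLn Φ P.D P.ok s w M →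
    ∃ (D₀ : Set ℂ) (K : ℕ) (y : Fin K → ℂ) (e : (ℝ → ℂ) → (Fin K → ℂ)), D₀.Countable ∧ 0 ∉ D₀ ∧
      (∀ δ, IsPth (Bd s w ∪ D₀) δ 0 0 → e δ = y → ∀ φ, IsTr M δ φ →
        ∀ η : ∀ n, (Ix (P.D.m n) (P.D.b n) → ℂ) ≃ₗ[ℝ] (Ix (P.D.m n) (P.D.b n) → ℂ),
          (∀ v n, φ 1 v n = η n (v n)) → IsGal P ℓ B η) ∧
      (∀ δ δ', IsPth (Bd s w ∪ D₀) δ 0 0 → IsPth (Bd s w ∪ D₀) δ' 0 0 → e δ = e δ' →
        e (cat δ δ') = y) ∧
      (e '' {δ | IsPth (Bd s w ∪ D₀) δ 0 0}).Finite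

/-- **Fo**: FINITE ORBITS. From S_Mg, S_Cmp, StmtPA1, StmtPA3, StmtPA5. PROOF. `w`, `M` given; `D₀`, `y`, `e` from `S_Mg`. Two loops `δ`, `δ'` outside
`Bd s w ∪ D₀` with `e δ = e δ'` and transports `φ`, `φ'`: `cat δ δ'` has a transport `ψ` (`StmtPA1`, `StmtPA5`: it is a path), `e = y`, so its
components `η` (`S_Cmp`) are `IsGal`, `psh ψ c = c`, `φ' ψ = φ` (`StmtPA5`): `psh φ c = psh φ' c`. So the orbit of `c` is finite (`e` has finitely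
many values): `StmtPA3` with `F = Bd s w` (finite: `StmtFL`), `D = D₀`. -/
def S_Fo : Prop :=
  StmtFL → ∀ Φ : FF, ∃ X : (p : ℕ) → Set (Fin p → ℂ), (∀ p, IsMeagre (X p)) ∧
    ∀ (p : ℕ) (s : Fin p → ℂ), s ∉ X p → Function.Injective s ∧
    ∀ (N : ℕ) (J : Fin N → AV) (γ : ∀ n, Cur (J n)) (P : Pk s γ) (ℓ : ℕ) [Fact ℓ.Prime]
      (B : Set ℂ), B.Finite → (∀ a ∈ B, AlgO s a) → ∀ (d : ℕ) (c : Cl P.D.V d),
      Rtc (P.D.L s) c →
      (∀ η : ∀ n, (Ix (P.D.m n) (P.D.b n) → ℂ) ≃ₗ[ℝ] (Ix (P.D.m n) (P.D.b n) → ℂ),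
        IsGal P ℓ B η → ∀ φ : P.D.V ≃ₗ[ℝ] P.D.V, (∀ v n, φ v n = η n (v n)) →
        psh (φ : P.D.V →ₗ[ℝ] P.D.V) c = c) → GC Φ P.D P.ok s c

/-- **Cc**: RATIONAL CLASSES KILLED BY `i` ARE ALGEBRAIC. PROOF. `SEN.S_n25` (proved, SE/N): `C` is a Hodge class; `HC.CC.Main` with `B = T`,
`q = N = 0`, `f = id`, `A` = the zero variety (of CM type: `n = 0` in `IsCM`), `G n = J n` (`IsGd`, last case, from `IsBn`, `IsMp`), `f'` = the zero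
map, `g' = g`; `SUK` is trivial (`f (X v) = 0` gives `X = 0`). -/
def S_Cc : Prop :=
  HC.CC.Main → ∃ X : (p : ℕ) → Set (Fin p → ℂ), (∀ p, IsMeagre (X p)) ∧
    ∀ (p : ℕ) (s : Fin p → ℂ), s ∉ X p → ∀ (T : AV) (N : ℕ) (J : Fin N → AV)
    (γ : ∀ n, Cur (J n)) (g : ∀ n, T.V → (J n).V) (e : ℕ), (∀ n, IsBn s e (γ n)) → IsPr g →
    ∀ (d : ℕ) (C : Hlg T d), Rtc {v | In T v} C → (∀ a, der (jm T.V) C a = 0) → AlgC T d C

end TATE
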